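import Pool.Agent.H65.GD.Defs

/-! The number of active scales of a profile. -/

namespace Pool.Agent.H65.GD

open Finset

theorem act_mono {K : ℕ} (Pr : ℕ → ℕ) (h2 : ∀ k < K, Pr k ≤ Pr (k + 1)) (a j : ℕ)
    (hj : a + j ≤ K) : Pr a ≤ Pr (a + j) := by
  induction j with
  | zero => simp
  | succ j ih =>
    have h := ih (by omega)
    have h' := h2 (a + j) (by omega)
    rw [← add_assoc]
    omega

theorem act_sum {K δ : ℕ} (Pr : ℕ → ℕ) (h2 : ∀ k < K, Pr (k + 1) ≤ Pr k + δ + 3) (a j : ℕ)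
    (hj : a + j ≤ K) :
    Pr (a + j) ≤ Pr a + 2 * j +
      (δ + 3) * ((Ico a (a + j)).filter (fun k => Pr k + 3 ≤ Pr (k + 1))).card := by
  induction j with
  | zero => simp
  | succ j ih =>
    have ih' := ih (by omega)
    have h := h2 (a + j) (by omega)
    have hI : Ico a (a + (j + 1)) = insert (a + j) (Ico a (a + j)) := by
      ext k
      simp only [mem_Ico, mem_insert]
      omega
    rw [hI, filter_insert, ← add_assoc]
    split_ifs with hc
    · rw [card_insert_of_notMem (by simp), mul_add (δ + 3)]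
      omega
    · omega

theorem act (P : Par) (Pr : ℕ → ℕ) (h0 : Pr 0 = 0) (h1 : Pr P.K = P.m)
    (h2 : ∀ k < P.K, Pr k ≤ Pr (k + 1) ∧ Pr (k + 1) ≤ Pr k + P.δ + 3) :
    P.L * P.M0 ^ (P.L - 1) < ((range P.K).filter (fun k =>
      P.κ ≤ Pr k ∧ Pr k ≤ P.W1 ∧ Pr k + 3 ≤ Pr (k + 1))).card := by
  classical
  have hk := P.hκ
  have hW := P.hW
  have hk1 := P.hκ1
  have hact := P.hact
  have hex0 : ∃ k, k ≤ P.K ∧ P.κ ≤ Pr k := ⟨P.K, le_rfl, by omega⟩
  have hex1 : ∃ k, k ≤ P.K ∧ P.W1 < Pr k := ⟨P.K, le_rfl, by omega⟩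
  obtain ⟨ha, ha'⟩ := Nat.find_spec hex0
  obtain ⟨hb, hb'⟩ := Nat.find_spec hex1
  set a := Nat.find hex0 with hadef
  set b := Nat.find hex1 with hbdef
  have hab : a ≤ b := Nat.find_min' hex0 ⟨hb, by omega⟩
  have hmin : ∀ k < b, Pr k ≤ P.W1 := by
    intro k hk'
    have := Nat.find_min hex1 hk'
    push Not at this
    exact this (by omega)
  have ha0 : a ≠ 0 := by
    intro h
    rw [h, h0] at ha'
    omega
  have haPr : Pr a ≤ P.κ + P.δ + 2 := by
    have h := Nat.find_min hex0 (show a - 1 < a by omega)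
    push Not at h
    have h3 := h (by omega)
    have h4 := (h2 (a - 1) (by omega)).2
    have h5 : a - 1 + 1 = a := by omega
    rw [h5] at h4
    omega
  by_contra hcon
  push Not at hcon
  have hsub : (Ico a (a + (b - a))).filter (fun k => Pr k + 3 ≤ Pr (k + 1)) ⊆
      (range P.K).filter (fun k => P.κ ≤ Pr k ∧ Pr k ≤ P.W1 ∧ Pr k + 3 ≤ Pr (k + 1)) := by
    intro k hk'
    simp only [mem_filter, mem_Ico, mem_range] at hk' ⊢
    have h5 : a + (b - a) = b := by omega
    rw [h5] at hk'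
    refine ⟨by omega, ?_, hmin k hk'.1.2, hk'.2⟩
    have h6 := act_mono Pr (fun k hk => (h2 k hk).1) a (k - a) (by omega)
    have h7 : a + (k - a) = k := by omega
    rw [h7] at h6
    omega
  have hs := act_sum Pr (fun k hk => (h2 k hk).2) a (b - a) (by omega)
  have hc := Nat.mul_le_mul_left (P.δ + 3) ((card_le_card hsub).trans hcon)
  have h5 : a + (b - a) = b := by omega
  rw [h5] at hs hc
  have hK : P.K = P.L * P.M0 ^ P.L := rfl
  omega

end Pool.Agent.H65.GD
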