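import Mathlib

/-! One flip of a class by a class brings the colour matrix far from all cut matrices. -/

namespace Pool.Agent.H65.GD

open Finset

theorem Cut_aux {q : ℕ} (X : Finset ((Fin 2 × Fin q) × (Fin 2 × Fin q)))
    (h : ∀ i j : Fin q, ((0, i), (0, j)) ∈ X ∨ ((0, i), (1, j)) ∈ X ∨
      ((1, i), (0, j)) ∈ X ∨ ((1, i), (1, j)) ∈ X) : q ^ 2 ≤ X.card := by
  classical
  have h1 : (univ : Finset (Fin q × Fin q)) ⊆ X.image (fun p => (p.1.2, p.2.2)) := by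
    intro p _
    rw [mem_image]
    rcases h p.1 p.2 with h | h | h | h
    · exact ⟨_, h, rfl⟩
    · exact ⟨_, h, rfl⟩
    · exact ⟨_, h, rfl⟩
    · exact ⟨_, h, rfl⟩
  have h2 := (card_le_card h1).trans card_image_le
  rw [card_univ, Fintype.card_prod, Fintype.card_fin] at h2
  rw [sq]
  exact h2

theorem Cut_z2 (e1 e2 e3 e4 u0 u1 v0 v1 s0 s1 t0 t1 : ZMod 2)
    (h1 : e1 = u0 + v0) (h2 : e2 = u0 + v1) (h3 : e3 = u1 + v0) (h4 : e4 = u1 + v1)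
    (g1 : e1 + 1 = s0 + t0) (g2 : e2 + 0 = s0 + t1) (g3 : e3 + 0 = s1 + t0)
    (g4 : e4 + 0 = s1 + t1) : False := by
  have h2' : (2 : ZMod 2) = 0 := by decide
  have key : (1 : ZMod 2) = 0 := by
    linear_combination (g1 + g2 + g3 + g4) - (h1 + h2 + h3 + h4) +
      (s0 + s1 + t0 + t1 - u0 - u1 - v0 - v1) * h2'
  exact absurd key (by decide)

theorem cut_far {q : ℕ} (E : (Fin 2 × Fin q) → (Fin 2 × Fin q) → ZMod 2) :
    (∀ u v : Fin 2 × Fin q → ZMod 2, q ^ 2 ≤ 2 * (univ.filter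
      (fun p : (Fin 2 × Fin q) × (Fin 2 × Fin q) => E p.1 p.2 ≠ u p.1 + v p.2)).card) ∨
    (∀ u v : Fin 2 × Fin q → ZMod 2, q ^ 2 ≤ 2 * (univ.filter
      (fun p : (Fin 2 × Fin q) × (Fin 2 × Fin q) =>
        E p.1 p.2 + (if p.1.1 = 0 ∧ p.2.1 = 0 then 1 else 0) ≠ u p.1 + v p.2)).card) := by
  classical
  by_contra hcon
  rw [not_or] at hcon
  obtain ⟨hA, hB⟩ := hcon
  push Not at hA hB
  obtain ⟨u, v, hA⟩ := hA
  obtain ⟨s, t, hB⟩ := hB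
  have hX := Cut_aux ((univ.filter
      (fun p : (Fin 2 × Fin q) × (Fin 2 × Fin q) => E p.1 p.2 ≠ u p.1 + v p.2)) ∪
      (univ.filter (fun p : (Fin 2 × Fin q) × (Fin 2 × Fin q) =>
        E p.1 p.2 + (if p.1.1 = 0 ∧ p.2.1 = 0 then 1 else 0) ≠ s p.1 + t p.2))) (by
    intro i j
    by_contra hc
    simp only [mem_union, mem_filter, mem_univ, true_and, not_or, not_not] at hc
    obtain ⟨⟨a1, b1⟩, ⟨a2, b2⟩, ⟨a3, b3⟩, ⟨a4, b4⟩⟩ := hc
    rw [if_pos trivial] at b1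
    rw [if_neg (by decide)] at b2 b3 b4
    exact Cut_z2 _ _ _ _ _ _ _ _ _ _ _ _ a1 a2 a3 a4 b1 b2 b3 b4)
  have h3 := hX.trans (card_union_le _ _)
  omega

end Pool.Agent.H65.GD

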