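import Pool.Agent.H46.TS.Group

/-! Definitions for the two-sided linear exponent (project GD, note 2772).

Scales `0, ..., K - 1` (`K = L * M0 ^ L`), cells of scale `k` are the intervals of length
`z ^ (δ * k)`; the board has side `N = z ^ (δ * K)`, the matrix has side `n = z ^ m`; the rows
come in `z ^ D` coarse blocks of `z ^ κ` rows (`D = m - κ`). -/

namespace Pool.Agent.H65.GD

open Finset Pool.Agent.H46.SR Pool.Agent.H46.TS

/-- the parameters -/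
structure Par where
  L : ℕ
  M0 : ℕ
  δ : ℕ
  τ : ℕ
  m : ℕ
  κ : ℕ
  W1 : ℕ
  q : ℕ
  hL : 1 ≤ L
  hM0 : 2 ≤ M0
  hδ : 1 ≤ δ
  hτ : τ = δ * M0 ^ L
  hκ1 : κ + 3 ≤ W1
  hκ : m + τ + 1 ≤ 2 * κ
  hW : κ + 2 * W1 + 5 ≤ 2 * m
  hact : (δ + 3) * (L * M0 ^ (L - 1)) + 2 * (L * M0 ^ L) + δ + 3 + κ ≤ W1
  hq : 8 * L + 1 ≤ q

namespace Par

variable (P : Par)

/-- length of a block of scales -/
def Mm : ℕ := P.M0 ^ P.L
/-- number of scales -/
def K : ℕ := P.L * P.M0 ^ P.L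
/-- side of the board -/
def N (z : ℕ) : ℕ := z ^ (P.δ * P.K)
/-- side of the matrix -/
def n (z : ℕ) : ℕ := z ^ P.m
/-- there are `z ^ D` coarse blocks -/
def D : ℕ := P.m - P.κ

/-- the types of flips -/
def TT (l k : ℕ) : Prop :=
  P.M0 ^ (P.L - 1 - l / P.Mm) ∣ k ∧ ¬ P.M0 ^ (P.L - l / P.Mm) ∣ k ∧
    P.M0 ^ (P.L - 1 - k / P.Mm) ∣ l ∧ ¬ P.M0 ^ (P.L - k / P.Mm) ∣ l

/-- a good rectangle of scales -/
structure Rect (l1 l2 k1 k2 lS kS : ℕ) : Prop where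
  hl1 : l1 < lS
  hl2 : lS ≤ l2
  hlK : l2 < P.K
  hk1 : k1 < kS
  hk2 : kS ≤ k2
  hkK : k2 < P.K
  hS : P.TT lS kS
  T2 : ∀ l k, P.TT l k → k1 < k → k ≤ k2 → l1 < l + P.Mm
  T3 : ∀ l k, P.TT l k → l1 < l → l ≤ l2 → k1 < k + P.Mm

/-- a leaf of a group: class and number -/
abbrev Lf : Type := Fin 2 × Fin P.q

/-- coordinates of the random colouring: type of the flip, row cell, column cell -/
abbrev Co (z : ℕ) : Type := (Fin P.K × Fin P.K) × (Fin (P.N z) × Fin (P.N z))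

/-- the random colouring -/
abbrev Sp (z : ℕ) : Type := P.Co z → Fin (z ^ P.τ)

variable {P} in
/-- the cell of `x` at scale `k` -/
def cell {z : ℕ} (k : ℕ) (x : Fin (P.N z)) : Fin (P.N z) :=
  ⟨x.val / z ^ (P.δ * k), lt_of_le_of_lt (Nat.div_le_self _ _) x.2⟩

variable {P} in
/-- the flip of type `(l, k)` at the cell `(u, v)` -/
def F {z : ℕ} (ω : P.Sp z) (l k : Fin P.K) (u v : Fin (P.N z)) : ZMod 2 :=
  if (ω ((l, k), (u, v))).val = 0 then 1 else 0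

variable {P} in
open scoped Classical in
/-- the colour -/
noncomputable def col {z : ℕ} (ω : P.Sp z) (x y : Fin (P.N z)) : ZMod 2 :=
  ∑ l : Fin P.K, ∑ k : Fin P.K,
    if P.TT l.val k.val then F ω l k (cell l.val x) (cell k.val y) else 0

/-- the cells `ξ` (of scale `l1`) of the leaves of a good group, in one direction -/
structure RowOK (z l1 l2 : ℕ) (ξ : P.Lf → ℕ) : Prop where
  inj : Function.Injective ξ
  g2 : ∀ a i i', ξ (a, i) / z ^ P.δ = ξ (a, i') / z ^ P.δ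
  g3 : ∀ i i', ξ (0, i) / z ^ (P.δ * (l2 - l1)) ≠ ξ (1, i') / z ^ (P.δ * (l2 - l1))
  g4 : ∀ r r', ξ r / z ^ (P.δ * (l2 + 1 - l1)) = ξ r' / z ^ (P.δ * (l2 + 1 - l1))

/-- the pairs of cells of scales `l2`, `k2` met by a group -/
def pairs (z l1 l2 k1 k2 : ℕ) (ξ η : P.Lf → ℕ) : Set (ℕ × ℕ) :=
  {p | ∃ r c, p = (ξ r / z ^ (P.δ * (l2 - l1)), η c / z ^ (P.δ * (k2 - k1)))}

/-- the coordinates which belong to a group with the pairs `S` -/
def V (z l1 l2 k1 k2 lS kS : ℕ) (S : Set (ℕ × ℕ)) : Set (P.Co z) :=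
  {c | c.1.1.val ≤ l2 ∧ c.1.2.val ≤ k2 ∧
    ((c.1.1.val = lS ∧ c.1.2.val = kS) ∨ c.1.1.val < l1 ∨ c.1.2.val < k1) ∧
    (c.2.1.val / z ^ (P.δ * (l2 - c.1.1.val)), c.2.2.val / z ^ (P.δ * (k2 - c.1.2.val))) ∈ S}

variable {P} in
/-- no choice of the positions in the cells makes the group monochromatic -/
def Obs {z : ℕ} (ω : P.Sp z) (l1 k1 : ℕ) (ξ η : P.Lf → ℕ) : Prop :=
  ∀ x y : P.Lf → Fin (P.N z), (∀ r, (cell l1 (x r)).val = ξ r) →
    (∀ c, (cell k1 (y c)).val = η c) →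
    ∃ r c r' c', col ω (x r) (y c) ≠ col ω (x r') (y c')

theorem Mm_pos : 0 < P.Mm := pow_pos (by have := P.hM0; omega) _

theorem K_pos : 0 < P.K := by
  unfold K
  exact Nat.mul_pos (by have := P.hL; omega) (pow_pos (by have := P.hM0; omega) _)

theorem K_eq : P.K = P.L * P.Mm := rfl

theorem τ_pos : 1 ≤ P.τ := by
  have h1 := P.hτ
  have h2 := Nat.mul_le_mul P.hδ P.Mm_pos
  unfold Mm at h2
  omega

end Par

theorem pl_lt' {l m : ℕ} (hl : 0 < l) (hd : l ∣ m) {X : ℕ} (hX : X < m) (Y : ℕ) :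
    pl l X Y < m := by
  obtain ⟨q, rfl⟩ := hd
  have h1 : X / l < q := Nat.div_lt_of_lt_mul hX
  unfold pl
  have h2 : Y % l < l := Nat.mod_lt _ hl
  calc X / l * l + Y % l < X / l * l + l := by omega
    _ = (X / l + 1) * l := by ring
    _ ≤ q * l := Nat.mul_le_mul_right _ h1
    _ = l * q := mul_comm _ _

/-- the sample space of one direction of a group: two scales, a base block, two class blocks,
`2 q` leaves -/
abbrev Rs (z q D : ℕ) : Type :=
  (Fin (D + 1) × Fin (D + 1)) × (Fin (z ^ D) × (Fin 2 → Fin (z ^ D))) ×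
    (Fin 2 × Fin q → Fin (z ^ D))

/-- the coarse blocks of the leaves -/
def lfN {z q D : ℕ} (r : Rs z q D) (c : Fin 2 × Fin q) : ℕ :=
  pl (z ^ r.1.1.val) (pl (z ^ r.1.2.val) r.2.1.1.val (r.2.1.2 c.1).val) (r.2.2 c).val

theorem lfN_lt {z q D : ℕ} (hz : 0 < z) (r : Rs z q D) (c : Fin 2 × Fin q) :
    lfN r c < z ^ D := by
  have h1 : r.1.1.val ≤ D := by have := r.1.1.2; omega
  have h2 : r.1.2.val ≤ D := by have := r.1.2.2; omega
  unfold lfN
  apply pl_lt' (pow_pos hz _) (pow_dvd_pow _ h1)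
  exact pl_lt' (pow_pos hz _) (pow_dvd_pow _ h2) r.2.1.1.2 _

namespace Par

variable (P : Par)

/-- coarse data of one direction: scales `l1, l2`, block scales `a1, a2`, cells of the coarse
blocks at scale `l1` -/
structure Half (z : ℕ) where
  l1 : Fin P.K
  l2 : Fin P.K
  a1 : Fin (P.D + 1)
  a2 : Fin (P.D + 1)
  dr : Fin (z ^ P.D) → Option (Fin (P.N z))

abbrev R1 (z : ℕ) : Type := Rs z P.q P.D

variable {P}

/-- the cell of a leaf -/
def ce {z : ℕ} (h : P.Half z) (t : ℕ) : Option (Fin (P.N z)) :=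
  if ht : t < z ^ P.D then h.dr ⟨t, ht⟩ else none

/-- the cells of the leaves -/
def xi {z : ℕ} (h : P.Half z) (ρ : P.R1 z) (r : P.Lf) : ℕ :=
  match ce h (lfN ρ r) with
  | some u => u.val
  | none => 0

/-- the number of coarse blocks in a cell of scale `l2` -/
def cnt {z : ℕ} (h : P.Half z) (Ξ : ℕ) : ℕ :=
  (univ.filter (fun t : Fin (z ^ P.D) =>
    (h.dr t).map (fun u => u.val / z ^ (P.δ * (h.l2.val - h.l1.val))) = some Ξ)).card

/-- the sample is good for the data -/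
structure GoodR {z : ℕ} (h : P.Half z) (ρ : P.R1 z) : Prop where
  s1 : ρ.1.1.val = h.a1.val + 3
  s2 : ρ.1.2.val = h.a2.val + 3
  some : ∀ r, (ce h (lfN ρ r)).isSome = true
  ok : P.RowOK z h.l1.val h.l2.val (xi h ρ)
  light : ∀ r, cnt h (xi h ρ r / z ^ (P.δ * (h.l2.val - h.l1.val))) ≤ z ^ (P.W1 + 2 - P.κ)

end Par

end Pool.Agent.H65.GD
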