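import Pool.Agent.H65.GD.Defs

/-! The final numerical inequality. -/

namespace Pool.Agent.H65.GD

open Filter

theorem fin_num (P : Par) {c : ℝ} (hc : 0 < c) (hc1 : c ≤ 1) :
    ∀ᶠ z : ℕ in atTop,
      (((P.K : ℝ) ^ 2 * ((P.D : ℝ) + 1) ^ 2 * ((P.N z : ℝ) + 1) ^ (z ^ P.D)) ^ 2 * (P.K : ℝ) ^ 2) *
        (1 - c ^ 2 / (4 * (z : ℝ) ^ P.τ)) ^ (z ^ P.κ) < 1 := by
  set C0 : ℝ := (P.K : ℝ) ^ 6 * ((P.D : ℝ) + 1) ^ 4 with hC0
  set a : ℝ := 2 * ((P.δ * P.K + 1 : ℕ) : ℝ) with ha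
  set b : ℝ := c ^ 2 / 4 with hb
  have hK1 : (1 : ℝ) ≤ (P.K : ℝ) := by exact_mod_cast P.K_pos
  have hD1 : (1 : ℝ) ≤ (P.D : ℝ) + 1 := by
    have : (0 : ℝ) ≤ (P.D : ℝ) := Nat.cast_nonneg _
    linarith
  have hC01 : 1 ≤ C0 := by
    have h1 : (1 : ℝ) ≤ (P.K : ℝ) ^ 6 := one_le_pow₀ hK1
    have h2 : (1 : ℝ) ≤ ((P.D : ℝ) + 1) ^ 4 := one_le_pow₀ hD1
    calc (1 : ℝ) = 1 * 1 := by ring
      _ ≤ C0 := mul_le_mul h1 h2 zero_le_one (by positivity)
  have hlogC : 0 ≤ Real.log C0 := Real.log_nonneg hC01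
  have ha0 : 0 < a := by positivity
  have hb0 : 0 < b := by positivity
  have hlo := Real.isLittleO_log_id_atTop.bound (c := b / (2 * a)) (by positivity)
  have h2 := tendsto_natCast_atTop_atTop (R := ℝ) |>.eventually hlo
  have h3 : ∀ᶠ z : ℕ in atTop, 2 * Real.log C0 / b < (z : ℝ) :=
    (tendsto_natCast_atTop_atTop (R := ℝ)).eventually_gt_atTop _
  filter_upwards [h2, h3, eventually_ge_atTop 2] with z hz2 hz3 hz
  have hZ : (2 : ℝ) ≤ (z : ℝ) := by exact_mod_cast hz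
  have hZ0 : (0 : ℝ) < (z : ℝ) := by linarith
  have hZ1 : (1 : ℝ) ≤ (z : ℝ) := by linarith
  have hlogz : 0 ≤ Real.log (z : ℝ) := Real.log_nonneg hZ1
  have hkey : Real.log C0 + a * Real.log z - b * z < 0 := by
    have h4 : Real.log z ≤ b / (2 * a) * z := by
      have := hz2
      simp only [id, Real.norm_eq_abs, abs_of_nonneg hlogz, abs_of_pos hZ0] at this
      exact this
    have h5 : a * Real.log z ≤ b / 2 * z := by
      calc a * Real.log z ≤ a * (b / (2 * a) * z) := mul_le_mul_of_nonneg_left h4 ha0.le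
        _ = b / 2 * z := by field_simp
    have h6 : Real.log C0 < b / 2 * z := by
      rw [div_lt_iff₀ hb0] at hz3
      linarith
    linarith
  -- the exponents
  have hmκ : P.κ ≤ P.m := by
    have h1 := P.hκ1
    have h2 := P.hW
    omega
  have hexp : P.D + 1 + P.τ ≤ P.κ := by
    have h1 := P.hκ
    unfold Par.D
    omega
  set x : ℝ := c ^ 2 / (4 * (z : ℝ) ^ P.τ) with hx
  have hzτ : (1 : ℝ) ≤ (z : ℝ) ^ P.τ := one_le_pow₀ hZ1
  have hx0 : 0 ≤ x := by positivity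
  have hx1 : x ≤ 1 := by
    rw [hx, div_le_one (by positivity)]
    nlinarith
  have hpow : (1 - x) ^ (z ^ P.κ) ≤ Real.exp (-(b * (z : ℝ) ^ (P.D + 1))) := by
    calc (1 - x) ^ (z ^ P.κ) ≤ (Real.exp (-x)) ^ (z ^ P.κ) :=
          pow_le_pow_left₀ (by linarith) (Real.one_sub_le_exp_neg x) _
      _ = Real.exp (((z ^ P.κ : ℕ) : ℝ) * (-x)) := (Real.exp_nat_mul _ _).symm
      _ ≤ Real.exp (-(b * (z : ℝ) ^ (P.D + 1))) := by
          apply Real.exp_le_exp.2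
          push_cast
          have h7 : b * (z : ℝ) ^ (P.D + 1) ≤ (z : ℝ) ^ P.κ * x := by
            have h8 : (z : ℝ) ^ (P.D + 1 + P.τ) ≤ (z : ℝ) ^ P.κ := pow_le_pow_right₀ hZ1 hexp
            calc b * (z : ℝ) ^ (P.D + 1) = (z : ℝ) ^ (P.D + 1 + P.τ) * x := by
                  rw [hx, hb, pow_add (z : ℝ) (P.D + 1) P.τ]
                  field_simp
              _ ≤ (z : ℝ) ^ P.κ * x := mul_le_mul_of_nonneg_right h8 hx0
          linarith
  have hN : (P.N z : ℝ) + 1 ≤ Real.exp (((P.δ * P.K + 1 : ℕ) : ℝ) * Real.log z) := by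
    rw [Real.exp_nat_mul, Real.exp_log hZ0]
    unfold Par.N
    push_cast
    have h9 : (1 : ℝ) ≤ (z : ℝ) ^ (P.δ * P.K) := one_le_pow₀ hZ1
    rw [pow_succ]
    nlinarith
  have hN0 : (0 : ℝ) ≤ (P.N z : ℝ) + 1 := by positivity
  have hzD : (1 : ℝ) ≤ (z : ℝ) ^ P.D := one_le_pow₀ hZ1
  have hA : ((P.K : ℝ) ^ 2 * ((P.D : ℝ) + 1) ^ 2 * ((P.N z : ℝ) + 1) ^ (z ^ P.D)) ^ 2 *
      (P.K : ℝ) ^ 2 ≤ Real.exp (Real.log C0 * (z : ℝ) ^ P.D + (z : ℝ) ^ P.D * (a * Real.log z)) := by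
    have h10 : ((P.K : ℝ) ^ 2 * ((P.D : ℝ) + 1) ^ 2 * ((P.N z : ℝ) + 1) ^ (z ^ P.D)) ^ 2 *
        (P.K : ℝ) ^ 2 = C0 * (((P.N z : ℝ) + 1) ^ (z ^ P.D)) ^ 2 := by
      rw [hC0]; ring
    rw [h10, Real.exp_add]
    apply mul_le_mul
    · calc C0 = Real.exp (Real.log C0) := (Real.exp_log (by linarith)).symm
        _ ≤ Real.exp (Real.log C0 * (z : ℝ) ^ P.D) := by
            apply Real.exp_le_exp.2
            nlinarith
    · calc (((P.N z : ℝ) + 1) ^ (z ^ P.D)) ^ 2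
          ≤ ((Real.exp (((P.δ * P.K + 1 : ℕ) : ℝ) * Real.log z)) ^ (z ^ P.D)) ^ 2 :=
            pow_le_pow_left₀ (by positivity) (pow_le_pow_left₀ hN0 hN _) 2
        _ = Real.exp ((z : ℝ) ^ P.D * (a * Real.log z)) := by
            rw [← Real.exp_nat_mul, ← Real.exp_nat_mul]
            congr 1
            rw [ha]
            push_cast
            ring
    · positivity
    · positivity
  calc (((P.K : ℝ) ^ 2 * ((P.D : ℝ) + 1) ^ 2 * ((P.N z : ℝ) + 1) ^ (z ^ P.D)) ^ 2 *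
        (P.K : ℝ) ^ 2) * (1 - x) ^ (z ^ P.κ)
      ≤ Real.exp (Real.log C0 * (z : ℝ) ^ P.D + (z : ℝ) ^ P.D * (a * Real.log z)) *
        Real.exp (-(b * (z : ℝ) ^ (P.D + 1))) :=
        mul_le_mul hA hpow (pow_nonneg (by linarith) _) (Real.exp_pos _).le
    _ = Real.exp ((z : ℝ) ^ P.D * (Real.log C0 + a * Real.log z - b * z)) := by
        rw [← Real.exp_add, pow_succ]
        congr 1
        ring
    _ < 1 := by
        rw [Real.exp_lt_one_iff]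
        exact mul_neg_of_pos_of_neg (by positivity) hkey

end Pool.Agent.H65.GD
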