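import Pool.Agent.H65.GD.NoCopy
import Pool.Agent.H46.SR.Final

/-! The exponent of `g_d(n)` is at least `d / 100`. -/

namespace Pool.Agent.H65.GD

open Filter Pool.Agent.H68.RS Topology

theorem final_num (L : ℕ) (hL : 1 ≤ L) : ∃ T Y : ℕ, 1 ≤ T ∧ L ≤ T ∧ L * Y ≤ T ∧
    L * (16 * L) ^ (L - 1) = L * Y ∧ L * (16 * L) ^ L = 16 * T ∧
    (64 * L + 3) * (L * Y) = 64 * T + 3 * (L * Y) := by
  obtain ⟨k, rfl⟩ : ∃ k, L = k + 1 := ⟨L - 1, by omega⟩
  have hY : 1 ≤ (16 * (k + 1)) ^ k := Nat.one_le_pow _ _ (by omega)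
  refine ⟨(k + 1) * ((k + 1) * (16 * (k + 1)) ^ k), (16 * (k + 1)) ^ k, ?_, ?_, ?_, ?_, ?_, ?_⟩
  · exact Nat.mul_pos (by omega) (Nat.mul_pos (by omega) hY)
  · exact Nat.le_mul_of_pos_right _ (Nat.mul_pos (by omega) hY)
  · exact Nat.le_mul_of_pos_left _ (by omega)
  · simp
  · rw [pow_succ]
    ring
  · ring

/-- the parameters for `L` -/
def par (L : ℕ) (hL : 1 ≤ L) : Par where
  L := L
  M0 := 16 * L
  δ := 64 * L
  τ := 64 * L * (16 * L) ^ L
  m := 4 * (64 * L * (16 * L) ^ L)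
  κ := 160 * L * (16 * L) ^ L + 1
  W1 := 176 * L * (16 * L) ^ L - 3
  q := 8 * L + 1
  hL := hL
  hM0 := by omega
  hδ := by omega
  hτ := rfl
  hκ1 := by
    obtain ⟨T, Y, h1, h2, h3, h4, h5, h6⟩ := final_num L hL
    rw [mul_assoc, mul_assoc, h5]
    omega
  hκ := by
    obtain ⟨T, Y, h1, h2, h3, h4, h5, h6⟩ := final_num L hL
    rw [mul_assoc, mul_assoc, h5]
    omega
  hW := by
    obtain ⟨T, Y, h1, h2, h3, h4, h5, h6⟩ := final_num L hL
    rw [mul_assoc, mul_assoc, mul_assoc, h5]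
    omega
  hact := by
    obtain ⟨T, Y, h1, h2, h3, h4, h5, h6⟩ := final_num L hL
    rw [mul_assoc 160, mul_assoc 176, h4, h5, h6]
    omega
  hq := le_rfl

/-- padding a matrix with zeros -/
def finalPad {s : ℕ} (n : ℕ) (M : Fin s → Fin s → Prop) (r c : Fin n) : Prop :=
  ∃ (hr : r.val < s) (hc : c.val < s), M ⟨r.val, hr⟩ ⟨c.val, hc⟩

theorem finalPad_row {s n d : ℕ} (hs : s ≤ n) {M : Fin s → Fin s → Prop}
    (hM : ∀ r, {c | M r c}.ncard ≤ d) (r : Fin n) : {c | finalPad n M r c}.ncard ≤ d := by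
  by_cases hr : r.val < s
  · have h1 : {c | finalPad n M r c} ⊆ (Fin.castLE hs) '' {c | M ⟨r.val, hr⟩ c} := by
      rintro c ⟨_, hc, h2⟩
      exact ⟨⟨c.val, hc⟩, h2, rfl⟩
    exact (Set.ncard_le_ncard h1 (Set.toFinite _)).trans
      ((Set.ncard_image_le (Set.toFinite _)).trans (hM _))
  · have h1 : {c | finalPad n M r c} = ∅ := by
      ext c
      simp only [Set.mem_ofPred_eq, Set.mem_empty_iff_false, iff_false]
      rintro ⟨h2, _⟩
      exact hr h2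
    rw [h1, Set.ncard_empty]
    exact Nat.zero_le _

theorem finalPad_col {s n d : ℕ} (hs : s ≤ n) {M : Fin s → Fin s → Prop}
    (hM : ∀ c, {r | M r c}.ncard ≤ d) (c : Fin n) : {r | finalPad n M r c}.ncard ≤ d := by
  have h1 : {r | finalPad n M r c} = {r | finalPad n (fun a b => M b a) c r} := by
    ext r
    constructor
    · rintro ⟨h2, h3, h4⟩
      exact ⟨h3, h2, h4⟩
    · rintro ⟨h2, h3, h4⟩
      exact ⟨h3, h2, h4⟩
  rw [h1]
  exact finalPad_row hs hM c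

theorem finalPad_copy {s n N : ℕ} (hs : s ≤ n) {M : Fin s → Fin s → Prop}
    {χ : Fin N → Fin N → Bool} (h : HasMonoCopy (finalPad n M) χ) : HasMonoCopy M χ := by
  obtain ⟨b, f, g, hf, hg, hM⟩ := h
  refine ⟨b, fun i => f (Fin.castLE hs i), fun i => g (Fin.castLE hs i), ?_, ?_, ?_⟩
  · intro i j hij
    exact hf hij
  · intro i j hij
    exact hg hij
  · intro r c hrc
    exact hM _ _ ⟨r.2, c.2, hrc⟩

/-- the zero matrix needs a board with `n` rows -/
theorem final_le_R {n : ℕ} (hn : 1 ≤ n) : n ≤ R (fun _ _ : Fin n => False) := by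
  by_contra hcon
  push Not at hcon
  have hd : ∀ r : Fin n, {c : Fin n | (fun _ _ : Fin n => False) r c}.ncard ≤ 0 := by
    intro r
    simp
  have hmem : R (fun _ _ : Fin n => False) ∈
      {N : ℕ | ∀ χ : Fin N → Fin N → Bool, HasMonoCopy (fun _ _ : Fin n => False) χ} := by
    apply Nat.sInf_mem
    exact ⟨n ^ (0 + 1), fun χ => hasMonoCopy hn _ hd χ⟩
  obtain ⟨b, f, g, hf, hg, hfg⟩ := hmem (fun _ _ => true)
  have h1 := Fintype.card_le_of_injective f hf.injective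
  rw [Fintype.card_fin, Fintype.card_fin] at h1
  omega

theorem final_step (P : Par) {d : ℕ} (hd : 2 * P.q ≤ d) {α : ℝ} (hα0 : 0 ≤ α)
    (hα : α * P.m < ((P.δ * P.K : ℕ) : ℝ)) : ∀ᶠ n : ℕ in atTop,
    ∃ M : Fin n → Fin n → Prop, (∀ r, {c | M r c}.ncard ≤ d) ∧ (∀ c, {r | M r c}.ncard ≤ d) ∧
      (n : ℝ) ^ α ≤ R M := by
  have hm1 : 1 ≤ P.m := by
    have h1 := P.hW
    have h2 := P.hκ1
    omega
  set E : ℕ := P.δ * P.K with hE
  have hm0 : (0 : ℝ) < P.m := by exact_mod_cast hm1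
  have hz : Tendsto (fun n : ℕ => ⌊(n : ℝ) ^ (1 / (P.m : ℝ))⌋₊) atTop atTop := by
    apply tendsto_nat_floor_atTop.comp
    exact (tendsto_rpow_atTop (by positivity)).comp tendsto_natCast_atTop_atTop
  have e1 := hz.eventually P.no_copy
  have e2 : ∀ᶠ z : ℕ in atTop, (2 : ℝ) ^ (α * P.m) ≤ (z : ℝ) ^ (E - α * P.m) :=
    ((tendsto_rpow_atTop (by linarith)).comp tendsto_natCast_atTop_atTop).eventually
      (eventually_ge_atTop _)
  have e3 := hz.eventually e2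
  have e4 := hz.eventually (eventually_ge_atTop 1)
  filter_upwards [e1, e3, e4, eventually_ge_atTop 1] with n h1 h2 h3 hn1
  set z := ⌊(n : ℝ) ^ (1 / (P.m : ℝ))⌋₊ with hzdef
  have hz1 : (1 : ℝ) ≤ z := by exact_mod_cast h3
  have hn0 : (0 : ℝ) ≤ n := Nat.cast_nonneg _
  have hroot : ((n : ℝ) ^ (1 / (P.m : ℝ))) ^ P.m = n := by
    rw [← Real.rpow_natCast, ← Real.rpow_mul hn0]
    rw [one_div_mul_cancel hm0.ne', Real.rpow_one]
  have hle : z ^ P.m ≤ n := by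
    have h4 : (z : ℝ) ≤ (n : ℝ) ^ (1 / (P.m : ℝ)) := Nat.floor_le (by positivity)
    have h5 : (z : ℝ) ^ P.m ≤ n := by
      rw [← hroot]
      exact pow_le_pow_left₀ (by linarith) h4 _
    exact_mod_cast h5
  have hlt : (n : ℝ) ≤ (2 * z : ℝ) ^ (P.m : ℝ) := by
    have h4 : (n : ℝ) ^ (1 / (P.m : ℝ)) ≤ 2 * z := by
      have := (Nat.lt_floor_add_one ((n : ℝ) ^ (1 / (P.m : ℝ)))).le
      rw [← hzdef] at this
      linarith
    rw [Real.rpow_natCast, ← hroot]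
    exact pow_le_pow_left₀ (by positivity) h4 _
  obtain ⟨M, hM1, hM2, χ, hχ⟩ := h1
  have hr : ∀ r, {c | finalPad n M r c}.ncard ≤ d :=
    fun r => (finalPad_row hle hM1 r).trans hd
  refine ⟨finalPad n M, hr, fun c => (finalPad_col hle hM2 c).trans hd, ?_⟩
  have hfin : z ^ E < R (finalPad n M) := by
    apply Pool.Agent.H46.SR.lt_R hn1 hr (χ := χ)
    intro hcopy
    exact hχ (finalPad_copy hle hcopy)
  have hfin' : (z : ℝ) ^ (E : ℝ) ≤ R (finalPad n M) := by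
    rw [Real.rpow_natCast]
    exact_mod_cast hfin.le
  refine le_trans ?_ hfin'
  calc (n : ℝ) ^ α ≤ ((2 * z : ℝ) ^ (P.m : ℝ)) ^ α := Real.rpow_le_rpow hn0 hlt hα0
    _ = (2 * z : ℝ) ^ (α * P.m) := by
        rw [← Real.rpow_mul (by linarith)]
        congr 1
        ring
    _ = (2 : ℝ) ^ (α * P.m) * (z : ℝ) ^ (α * P.m) :=
        Real.mul_rpow (by norm_num) (by linarith)
    _ ≤ (z : ℝ) ^ (E - α * P.m) * (z : ℝ) ^ (α * P.m) :=
        mul_le_mul_of_nonneg_right h2 (by positivity)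
    _ = (z : ℝ) ^ (E : ℝ) := by
        rw [← Real.rpow_add (by linarith)]
        congr 1
        ring

theorem main (d : ℕ) (hd : 1 ≤ d) : ∀ᶠ n : ℕ in atTop,
    ∃ M : Fin n → Fin n → Prop, (∀ r, {c | M r c}.ncard ≤ d) ∧ (∀ c, {r | M r c}.ncard ≤ d) ∧
      (n : ℝ) ^ ((d : ℝ) / 100) ≤ R M := by
  by_cases hd100 : d < 100
  · filter_upwards [eventually_ge_atTop 1] with n hn
    refine ⟨fun _ _ => False, fun r => by simp, fun c => by simp, ?_⟩
    have h1 : (n : ℝ) ≤ R (fun _ _ : Fin n => False) := by exact_mod_cast final_le_R hn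
    have hn' : (1 : ℝ) ≤ n := by exact_mod_cast hn
    have hd' : (d : ℝ) ≤ 100 := by exact_mod_cast hd100.le
    refine le_trans ?_ h1
    calc (n : ℝ) ^ ((d : ℝ) / 100) ≤ (n : ℝ) ^ (1 : ℝ) :=
          Real.rpow_le_rpow_of_exponent_le hn' (by linarith)
      _ = n := Real.rpow_one _
  · push Not at hd100
    obtain ⟨L, hL1, hL2, hL3⟩ : ∃ L, 1 ≤ L ∧ 16 * L + 2 ≤ d ∧ d < 16 * L + 18 :=
      ⟨(d - 2) / 16, by omega, by omega, by omega⟩
    apply final_step (par L hL1) (d := d) (α := (d : ℝ) / 100)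
    · show 2 * (8 * L + 1) ≤ d
      omega
    · positivity
    · show (d : ℝ) / 100 * ((4 * (64 * L * (16 * L) ^ L) : ℕ) : ℝ) <
        ((64 * L * (L * (16 * L) ^ L) : ℕ) : ℝ)
      have hX : (0 : ℝ) < ((64 * L * (16 * L) ^ L : ℕ) : ℝ) := by
        have : 0 < 64 * L * (16 * L) ^ L :=
          Nat.mul_pos (by omega) (pow_pos (by omega) _)
        exact_mod_cast this
      have e1 : ((4 * (64 * L * (16 * L) ^ L) : ℕ) : ℝ) =
          4 * ((64 * L * (16 * L) ^ L : ℕ) : ℝ) := by push_cast; ring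
      have e2 : ((64 * L * (L * (16 * L) ^ L) : ℕ) : ℝ) =
          L * ((64 * L * (16 * L) ^ L : ℕ) : ℝ) := by push_cast; ring
      rw [e1, e2, ← mul_assoc]
      apply mul_lt_mul_of_pos_right _ hX
      have h4 : (d : ℝ) < 16 * L + 18 := by exact_mod_cast hL3
      have h5 : (100 : ℝ) ≤ d := by exact_mod_cast hd100
      linarith

end Pool.Agent.H65.GD
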