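import Pool.Agent.H65.GD.Tup
import Pool.Agent.H65.GD.Act
import Pool.Agent.H76.LX.ProfA

/-! Every strictly increasing map gives coarse data for which a random sample is good with
positive probability. -/

namespace Pool.Agent.H65.GD

open Finset Pool.Agent.H46.SR Pool.Agent.H46.TS

lemma HalfE_lt {z D κ m : ℕ} (hm : D + κ = m) {t c : ℕ} (ht : t < z ^ D) (hc : c < z ^ κ) :
    t * z ^ κ + c < z ^ m := by
  calc t * z ^ κ + c < t * z ^ κ + z ^ κ := by omega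
    _ = (t + 1) * z ^ κ := by ring
    _ ≤ z ^ D * z ^ κ := Nat.mul_le_mul_right _ ht
    _ = z ^ m := by rw [← pow_add, hm]

lemma HalfE_div {l : ℕ} (c : ℕ) {t : ℕ} (ht : t < l) : (c * l + t) / l = c := by
  rw [Nat.mul_comm, Nat.mul_add_div (by omega), Nat.div_eq_of_lt ht, add_zero]

lemma HalfE_blk {z D κ m : ℕ} (hm : D + κ = m) (b : Fin (z ^ m)) : b.val / z ^ κ < z ^ D := by
  apply Nat.div_lt_of_lt_mul
  rw [← pow_add, Nat.add_comm κ D, hm]
  exact b.2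

/-- blocks of `z ^ κ` rows -/
lemma HalfE_blocks {z D κ m : ℕ} (hm : D + κ = m) (S : Finset (Fin (z ^ D)))
    (R : Finset (Fin (z ^ m)))
    (h : ∀ t ∈ S, ∀ b : Fin (z ^ m), b.val / z ^ κ = t.val → b ∈ R) :
    S.card * z ^ κ ≤ R.card := by
  have h1 : (S ×ˢ (univ : Finset (Fin (z ^ κ)))).card ≤ R.card := by
    refine Finset.card_le_card_of_injOn
      (fun p => (⟨p.1.val * z ^ κ + p.2.val, HalfE_lt hm p.1.2 p.2.2⟩ : Fin (z ^ m))) ?_ ?_
    · intro p hp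
      rw [mem_coe, mem_product] at hp
      exact mem_coe.2 (h p.1 hp.1 _ (HalfE_div _ p.2.2))
    · intro p _ p' _ hpp
      have h2 : p.1.val * z ^ κ + p.2.val = p'.1.val * z ^ κ + p'.2.val := congrArg Fin.val hpp
      have h3 := HalfE_div p.1.val p.2.2
      have h4 := HalfE_div p'.1.val p'.2.2
      rw [h2, h4] at h3
      have h5 : p.1 = p'.1 := Fin.ext h3.symm
      have h6 : p.2 = p'.2 := Fin.ext (by rw [h5] at h2; omega)
      exact Prod.ext h5 h6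
  rwa [card_product, card_univ, Fintype.card_fin] at h1

lemma HalfE_image {z D κ m : ℕ} (hz : 0 < z) (hm : D + κ = m) (R : Finset (Fin (z ^ m))) :
    R.card ≤ (R.image (fun b => (⟨b.val / z ^ κ, HalfE_blk hm b⟩ : Fin (z ^ D)))).card *
      z ^ κ := by
  rw [mul_comm]
  apply Finset.card_le_mul_card_image
  intro t _
  refine le_trans (card_le_card ?_) (Pool.Agent.H76.LX.ProfA_block_le (pow_pos hz κ) t.val)
  intro b hb
  rw [mem_filter] at hb ⊢
  exact ⟨mem_univ _, congrArg Fin.val hb.2⟩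

open scoped Classical in
/-- the cell of a coarse block, if it is determined -/
noncomputable def HalfE_dr {z : ℕ} (P : Par) (φ : Fin (P.n z) → Fin (P.N z)) (l1 : ℕ)
    (t : Fin (z ^ P.D)) : Option (Fin (P.N z)) :=
  if h : ∃ u, ∀ b : Fin (P.n z), b.val / z ^ P.κ = t.val → Par.cell l1 (φ b) = u then
    some h.choose else none

lemma HalfE_spec {z : ℕ} {P : Par} {φ : Fin (P.n z) → Fin (P.N z)} {l1 : ℕ}
    {t : Fin (z ^ P.D)} {u : Fin (P.N z)} (h : HalfE_dr P φ l1 t = some u)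
    (b : Fin (P.n z)) (hb : b.val / z ^ P.κ = t.val) : Par.cell l1 (φ b) = u := by
  unfold HalfE_dr at h
  split_ifs at h with h'
  injection h with h
  rw [← h]
  exact h'.choose_spec b hb

lemma HalfE_some {z : ℕ} {P : Par} {φ : Fin (P.n z) → Fin (P.N z)} {l1 : ℕ}
    {t : Fin (z ^ P.D)} {u : Fin (P.N z)}
    (h : ∀ b : Fin (P.n z), b.val / z ^ P.κ = t.val → Par.cell l1 (φ b) = u)
    {b0 : Fin (P.n z)} (hb0 : b0.val / z ^ P.κ = t.val) : HalfE_dr P φ l1 t = some u := by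
  have h' : ∃ u, ∀ b : Fin (P.n z), b.val / z ^ P.κ = t.val → Par.cell l1 (φ b) = u := ⟨u, h⟩
  unfold HalfE_dr
  rw [dif_pos h', ← h'.choose_spec b0 hb0, h b0 hb0]

lemma HalfE_pow {z s t b b' : ℕ} (h : s ≤ t) (hb : b' / z ^ s = b / z ^ s) :
    b' / z ^ t = b / z ^ t := by
  obtain ⟨u, rfl⟩ := Nat.exists_eq_add_of_le h
  rw [pow_add, ← Nat.div_div_eq_div_mul, ← Nat.div_div_eq_div_mul, hb]

lemma HalfE_cell {P : Par} {z l1 l : ℕ} (hl : l1 ≤ l) (x : Fin (P.N z)) :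
    (Par.cell l1 x).val / z ^ (P.δ * (l - l1)) = x.val / z ^ (P.δ * l) := by
  unfold Par.cell
  dsimp only
  rw [Nat.div_div_eq_div_mul, ← pow_add, ← Nat.mul_add, Nat.add_sub_cancel' hl]

namespace Par

variable (P : Par)

def C0 : ℕ := 2 * (P.m + 1) ^ (P.K + 1)

/-- probability that a sample is good in one direction -/
noncomputable def c1 : ℝ := 1 / (2 * ((P.D : ℝ) + 1) ^ 2 * (P.C0 : ℝ) ^ (2 * P.q))

def zH : ℕ := 8 * P.q ^ 2 * P.C0 ^ (2 * P.q) * (P.D + 1) ^ 2 + 2 * (2 * P.m * (P.K + 1) + P.K) + 2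

variable {P}

lemma HalfE_num {z t : ℕ} (hz : P.zH ≤ z) (ht : z ^ P.D ≤ t * P.C0) :
    P.c1 ≤ ((t : ℝ) / (z : ℝ) ^ P.D) ^ (2 * P.q) / ((P.D : ℝ) + 1) ^ 2 -
      4 * (P.q : ℝ) ^ 2 / z := by
  have hz0 : (0 : ℝ) < z := by
    have : 0 < z := by unfold zH at hz; omega
    exact_mod_cast this
  have hC : (0 : ℝ) < (P.C0 : ℝ) := by
    have : 0 < P.C0 := by unfold C0; positivity
    exact_mod_cast this
  have hD : (0 : ℝ) < (P.D : ℝ) + 1 := by positivity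
  have h1 : 1 / (P.C0 : ℝ) ≤ (t : ℝ) / (z : ℝ) ^ P.D := by
    rw [div_le_div_iff₀ hC (by positivity)]
    have : ((z ^ P.D : ℕ) : ℝ) ≤ ((t * P.C0 : ℕ) : ℝ) := by exact_mod_cast ht
    push_cast at this
    linarith
  have h2 : (1 / (P.C0 : ℝ)) ^ (2 * P.q) ≤ ((t : ℝ) / (z : ℝ) ^ P.D) ^ (2 * P.q) :=
    pow_le_pow_left₀ (by positivity) h1 _
  have h3 : 4 * (P.q : ℝ) ^ 2 / z ≤ P.c1 := by
    unfold c1
    rw [div_le_div_iff₀ hz0 (by positivity)]
    have h4 : 8 * P.q ^ 2 * P.C0 ^ (2 * P.q) * (P.D + 1) ^ 2 ≤ z := by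
      unfold zH at hz; omega
    have h5 : ((8 * P.q ^ 2 * P.C0 ^ (2 * P.q) * (P.D + 1) ^ 2 : ℕ) : ℝ) ≤ (z : ℝ) := by
      exact_mod_cast h4
    push_cast at h5
    calc _ = 8 * (P.q : ℝ) ^ 2 * (P.C0 : ℝ) ^ (2 * P.q) * ((P.D : ℝ) + 1) ^ 2 := by ring
      _ ≤ z := h5
      _ = 1 * z := (one_mul _).symm
  have h4 : 2 * P.c1 ≤ ((t : ℝ) / (z : ℝ) ^ P.D) ^ (2 * P.q) / ((P.D : ℝ) + 1) ^ 2 := by
    have h5 : 2 * P.c1 = (1 / (P.C0 : ℝ)) ^ (2 * P.q) / ((P.D : ℝ) + 1) ^ 2 := by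
      unfold c1
      rw [one_div_pow]
      field_simp
    rw [h5]
    gcongr
  linarith

theorem half_exists {z : ℕ} (hz : P.zH ≤ z) (φ : Fin (P.n z) → Fin (P.N z))
    (hφ : StrictMono φ) :
    ∃ A : Finset ℕ, A ⊆ range P.K ∧ P.L * P.M0 ^ (P.L - 1) < A.card ∧
      ∀ l1 ∈ A, ∀ l2 ∈ A, l1 < l2 → ∃ h : P.Half z, h.l1.val = l1 ∧ h.l2.val = l2 ∧
        P.c1 ≤ av (fun ρ : P.R1 z => ind (GoodR h ρ)) ∧
        ∀ (b : Fin (P.n z)) (u : Fin (P.N z)), ce h (b.val / z ^ P.κ) = some u →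
          cell l1 (φ b) = u := by
  have hz' : 2 * (2 * P.m * (P.K + 1) + P.K) + 2 ≤ z := by unfold zH at hz; omega
  have hz2 : 2 ≤ z := by omega
  have hz0 : 0 < z := by omega
  have hκ1 := P.hκ1
  have hκ := P.hκ
  have hW := P.hW
  have hmD : P.D + P.κ = P.m := by unfold D; omega
  obtain ⟨Pr, TTs, hTT, h0, h1, hst, hb⟩ :=
    Pool.Agent.H76.LX.profileA (z := z) (δ := P.δ) (Λ := P.K) (D := P.m) (G := P.δ * P.K)
      hz' le_rfl φ hφ
  have hmono : ∀ a b, a ≤ b → b ≤ P.K → Pr a ≤ Pr b := by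
    intro a b hab hbK
    have := act_mono Pr (fun k hk => (hst k hk).1) a (b - a) (by omega)
    rwa [Nat.add_sub_cancel' hab] at this
  refine ⟨(range P.K).filter (fun k => P.κ ≤ Pr k ∧ Pr k ≤ P.W1 ∧ Pr k + 3 ≤ Pr (k + 1)),
    filter_subset _ _, act P Pr h0 h1 hst, ?_⟩
  intro l1 hl1 l2 hl2 h12
  rw [mem_filter, mem_range] at hl1 hl2
  obtain ⟨hK1, hκl1, hWl1, hs1⟩ := hl1
  obtain ⟨hK2, hκl2, hWl2, hs2⟩ := hl2
  have hPm2 : Pr (l2 + 1) ≤ P.m := by rw [← h1]; exact hmono _ _ (by omega) le_rfl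
  have hPm1 : Pr (l1 + 1) ≤ P.m := by rw [← h1]; exact hmono _ _ (by omega) le_rfl
  have hP12 : Pr l1 ≤ Pr l2 := hmono _ _ h12.le (by omega)
  -- the data
  set h : P.Half z :=
    { l1 := ⟨l1, hK1⟩
      l2 := ⟨l2, hK2⟩
      a1 := ⟨Pr l1 - P.κ, by omega⟩
      a2 := ⟨Pr l2 - P.κ, by omega⟩
      dr := HalfE_dr P φ l1 } with hh
  have hce : ∀ t : Fin (z ^ P.D), ce h t.val = HalfE_dr P φ l1 t := by
    intro t
    unfold ce
    rw [dif_pos t.2]
  refine ⟨h, rfl, rfl, ?_, ?_⟩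
  swap
  · intro b u hbu
    have h2 := hce ⟨b.val / z ^ P.κ, HalfE_blk hmD b⟩
    rw [h2] at hbu
    exact HalfE_spec hbu b rfl
  -- the good coarse blocks
  set T : Finset (Fin (z ^ P.D)) :=
    TTs.image (fun b => (⟨b.val / z ^ P.κ, HalfE_blk hmD b⟩ : Fin (z ^ P.D))) with hT
  have hTc : z ^ P.D ≤ T.card * P.C0 := by
    have h2 : TTs.card ≤ T.card * z ^ P.κ := HalfE_image hz0 hmD TTs
    have h3 : z ^ P.D * z ^ P.κ ≤ T.card * P.C0 * z ^ P.κ := by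
      rw [← pow_add, hmD]
      calc z ^ P.m ≤ TTs.card * P.C0 := hTT
        _ ≤ T.card * z ^ P.κ * P.C0 := Nat.mul_le_mul_right _ h2
        _ = T.card * P.C0 * z ^ P.κ := by ring
    exact Nat.le_of_mul_le_mul_right h3 (pow_pos hz0 _)
  -- a good block has a good row
  have hTb : ∀ t ∈ T, ∃ b0 ∈ TTs, b0.val / z ^ P.κ = t.val ∧
      HalfE_dr P φ l1 t = some (cell l1 (φ b0)) := by
    intro t ht
    obtain ⟨b0, hb0, rfl⟩ := mem_image.1 ht
    refine ⟨b0, hb0, rfl, HalfE_some (b0 := b0) ?_ rfl⟩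
    intro b hbb
    apply Fin.ext
    exact (hb b0 hb0 l1 (by omega)).1 b (HalfE_pow hκl1 hbb)
  -- counting
  have hcount : ∀ l, l1 ≤ l → l ≤ P.K → ∀ b0 ∈ TTs, ∀ S : Finset (Fin (z ^ P.D)),
      (∀ t ∈ S, (HalfE_dr P φ l1 t).map (fun u => u.val / z ^ (P.δ * (l - l1))) =
        some ((cell l1 (φ b0)).val / z ^ (P.δ * (l - l1)))) →
      S.card * z ^ P.κ ≤ z ^ (Pr l + 2) := by
    intro l hll hlK b0 hb0 S hS
    refine le_trans (HalfE_blocks hmD S (univ.filter (fun b' : Fin (z ^ P.m) =>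
      (φ b').val / z ^ (P.δ * l) = (φ b0).val / z ^ (P.δ * l))) ?_) (hb b0 hb0 l hlK).2
    intro t ht b hbt
    rw [mem_filter]
    refine ⟨mem_univ _, ?_⟩
    have h2 := hS t ht
    rw [Option.map_eq_some_iff] at h2
    obtain ⟨u, hu, hu2⟩ := h2
    have h3 := HalfE_spec hu b hbt
    rw [← h3, HalfE_cell hll, HalfE_cell hll] at hu2
    exact hu2
  have hmulz : ∀ l, P.κ ≤ Pr l → ∀ c : ℕ, c * z ^ P.κ ≤ z ^ (Pr l + 2) →
      c * z ≤ z ^ (Pr l - P.κ + 3) := by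
    intro l hl c hc
    have h2 : c * z * z ^ P.κ ≤ z ^ (Pr l - P.κ + 3) * z ^ P.κ := by
      calc c * z * z ^ P.κ = c * z ^ P.κ * z := by ring
        _ ≤ z ^ (Pr l + 2) * z := Nat.mul_le_mul_right _ hc
        _ = z ^ (Pr l - P.κ + 3 + P.κ) := by rw [← pow_succ]; congr 1; omega
        _ = _ := pow_add _ _ _
    exact Nat.le_of_mul_le_mul_right h2 (pow_pos hz0 _)
  set e2 : Fin (z ^ P.D) → Option ℕ := fun t =>
    (HalfE_dr P φ l1 t).map (fun u => u.val / z ^ (P.δ * (l2 - l1))) with he2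
  have hmain := tup (q := P.q) hz2 (s1 := Pr l1 - P.κ + 3) (s2 := Pr l2 - P.κ + 3) (D := P.D)
    (by omega) (by omega) T (HalfE_dr P φ l1) e2 (by
      intro t ht
      obtain ⟨b0, hb0, hbt, hdr⟩ := hTb t ht
      apply hmulz l1 hκl1
      apply hcount l1 le_rfl (by omega) b0 hb0
      intro t' ht'
      rw [mem_filter] at ht'
      rw [ht'.2, hdr]
      rfl) (by
      intro t ht
      obtain ⟨b0, hb0, hbt, hdr⟩ := hTb t ht
      apply hmulz l2 hκl2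
      apply hcount l2 h12.le (by omega) b0 hb0
      intro t' ht'
      rw [mem_filter] at ht'
      have h2 : e2 t' = e2 t := ht'.2
      rw [he2] at h2
      dsimp only at h2
      rw [h2, hdr]
      rfl)
  refine (HalfE_num hz hTc).trans (hmain.trans ?_)
  apply av_mono
  intro ρ
  apply ind_mono
  rintro ⟨hr1, hr2, hr⟩
  obtain ⟨hw, hw1, hw2⟩ := hr (fun c => ⟨lfN ρ c, lfN_lt hz0 ρ c⟩) (fun c => rfl)
  choose b0 hb0 hbt hdr using fun c => hTb _ (hw c)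
  dsimp only at hbt
  have hce' : ∀ c, ce h (lfN ρ c) = some (cell l1 (φ (b0 c))) := by
    intro c
    have h2 := hce ⟨lfN ρ c, lfN_lt hz0 ρ c⟩
    dsimp only at h2
    rw [h2, hdr c]
  have hxi : ∀ c, xi h ρ c = (cell l1 (φ (b0 c))).val := by
    intro c
    unfold xi
    rw [hce' c]
  have hxil : ∀ c l, l1 ≤ l → xi h ρ c / z ^ (P.δ * (l - l1)) = (φ (b0 c)).val / z ^ (P.δ * l) := by
    intro c l hl
    rw [hxi c, HalfE_cell hl]
  have he2c : ∀ c, e2 ⟨lfN ρ c, lfN_lt hz0 ρ c⟩ = some (xi h ρ c / z ^ (P.δ * (l2 - l1))) := by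
    intro c
    rw [he2]
    dsimp only
    rw [hdr c, hxi c]
    rfl
  refine ⟨hr1, hr2, fun r => by rw [hce' r]; rfl, ?_, ?_⟩
  · refine ⟨?_, ?_, ?_, ?_⟩
    · rintro ⟨j, l⟩ ⟨j', l'⟩ hxx
      by_contra hne
      by_cases hj : j = j'
      · subst hj
        have hll : l ≠ l' := fun e => hne (by rw [e])
        apply hw1 j l l' hll
        rw [hdr, hdr]
        rw [hxi, hxi] at hxx
        rw [Fin.ext hxx]
      · have h2 : e2 ⟨lfN ρ (j, l), lfN_lt hz0 ρ (j, l)⟩ =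
            e2 ⟨lfN ρ (j', l'), lfN_lt hz0 ρ (j', l')⟩ := by
          rw [he2c, he2c, hxx]
        fin_cases j <;> fin_cases j'
        · exact hj rfl
        · exact hw2 _ _ h2
        · exact hw2 _ _ h2.symm
        · exact hj rfl
    · intro a i i'
      have h2 := hxil (a, i) (l1 + 1) (by omega)
      have h3 := hxil (a, i') (l1 + 1) (by omega)
      have e1 : l1 + 1 - l1 = 1 := by omega
      rw [e1, mul_one] at h2 h3
      rw [h2, h3]
      refine (hb (b0 (a, i')) (hb0 _) (l1 + 1) (by omega)).1 _ ?_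
      apply HalfE_pow hs1
      have e2' : Pr l1 + 3 = P.κ + (Pr l1 - P.κ + 3) := by omega
      rw [e2', pow_add, ← Nat.div_div_eq_div_mul, ← Nat.div_div_eq_div_mul, hbt, hbt]
      unfold lfN
      rw [hr1, pl_div (pow_pos hz0 _), pl_div (pow_pos hz0 _)]
    · intro i i' hii
      exact hw2 i i' (by rw [he2c, he2c, hii])
    · intro r r'
      have h2 := hxil r (l2 + 1) (by omega)
      have h3 := hxil r' (l2 + 1) (by omega)
      have goal : (φ (b0 r)).val / z ^ (P.δ * (l2 + 1)) = (φ (b0 r')).val / z ^ (P.δ * (l2 + 1)) := by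
        refine (hb (b0 r') (hb0 _) (l2 + 1) (by omega)).1 _ ?_
        apply HalfE_pow hs2
        have e2' : Pr l2 + 3 = P.κ + (Pr l2 - P.κ + 3) := by omega
        rw [e2', pow_add, ← Nat.div_div_eq_div_mul, ← Nat.div_div_eq_div_mul, hbt, hbt]
        have key : ∀ c, lfN ρ c / z ^ (Pr l2 - P.κ + 3) = ρ.2.1.1.val / z ^ (Pr l2 - P.κ + 3) := by
          intro c
          unfold lfN
          rw [hr1, hr2]
          have h4 := HalfE_pow (z := z) (show Pr l1 - P.κ + 3 ≤ Pr l2 - P.κ + 3 by omega)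
            (pl_div (pow_pos hz0 (Pr l1 - P.κ + 3))
              (pl (z ^ (Pr l2 - P.κ + 3)) ρ.2.1.1.val (ρ.2.1.2 c.1).val) (ρ.2.2 c).val)
          rw [h4, pl_div (pow_pos hz0 _)]
        rw [key, key]
      calc _ = _ := h2
        _ = _ := goal
        _ = _ := h3.symm
  · intro r
    have hW2 : Pr l2 + 2 ≤ P.W1 + 2 := by omega
    have h2 : cnt h (xi h ρ r / z ^ (P.δ * (l2 - l1))) * z ^ P.κ ≤ z ^ (Pr l2 + 2) := by
      unfold cnt
      apply hcount l2 h12.le (by omega) (b0 r) (hb0 r)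
      intro t ht
      rw [mem_filter] at ht
      have h3 := ht.2
      rw [hxi r] at h3
      exact h3
    have h3 : cnt h (xi h ρ r / z ^ (P.δ * (l2 - l1))) * z ^ P.κ ≤
        z ^ (P.W1 + 2 - P.κ) * z ^ P.κ := by
      rw [← pow_add]
      refine h2.trans (Nat.pow_le_pow_right hz0 (by omega))
    exact Nat.le_of_mul_le_mul_right h3 (pow_pos hz0 _)

end Par

end Pool.Agent.H65.GD
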