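import Pool.Agent.H65.GD.Defs

/-! Resampling the coordinates of another group does not change a group. -/

namespace Pool.Agent.H65.GD

open Finset Pool.Agent.H46.SR Pool.Agent.H46.TS

namespace Par

variable {P : Par}

theorem inv_cell_div {z : ℕ} {l l2 : ℕ} (hl : l ≤ l2) (x : Fin (P.N z)) :
    (cell l x).val / z ^ (P.δ * (l2 - l)) = x.val / z ^ (P.δ * l2) := by
  have h1 : P.δ * l + P.δ * (l2 - l) = P.δ * l2 := by
    rw [← Nat.mul_add]
    congr 1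
    omega
  show x.val / z ^ (P.δ * l) / z ^ (P.δ * (l2 - l)) = _
  rw [Nat.div_div_eq_div_mul, ← pow_add, h1]

theorem inv_col {z : ℕ} {l1 l2 k1 k2 lS kS : ℕ} (hl : l1 ≤ l2) (hk : k1 ≤ k2)
    {ξ η : P.Lf → ℕ} {S : Set (ℕ × ℕ)} (hS : ∀ p ∈ P.pairs z l1 l2 k1 k2 ξ η, p ∉ S)
    (ω ω' : P.Sp z) (x y : P.Lf → Fin (P.N z)) (hx : ∀ r, (cell l1 (x r)).val = ξ r)
    (hy : ∀ c, (cell k1 (y c)).val = η c) (r c : P.Lf) :
    col (mix (P.V z l1 l2 k1 k2 lS kS S) ω ω') (x r) (y c) = col ω (x r) (y c) := by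
  classical
  unfold col
  apply Finset.sum_congr rfl
  intro l _
  apply Finset.sum_congr rfl
  intro k _
  have key : F (mix (P.V z l1 l2 k1 k2 lS kS S) ω ω') l k (cell l.val (x r)) (cell k.val (y c))
      = F ω l k (cell l.val (x r)) (cell k.val (y c)) := by
    unfold F
    have hn : (((l, k), (cell l.val (x r), cell k.val (y c))) : P.Co z) ∉
        P.V z l1 l2 k1 k2 lS kS S := by
      rintro ⟨h1, h2, _, h4⟩
      refine hS _ ⟨r, c, ?_⟩ h4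
      show ((cell l.val (x r)).val / z ^ (P.δ * (l2 - l.val)),
        (cell k.val (y c)).val / z ^ (P.δ * (k2 - k.val))) = _
      rw [inv_cell_div h1, inv_cell_div h2, ← hx r, ← hy c, inv_cell_div hl, inv_cell_div hk]
    rw [mix_not_mem hn]
  rw [key]

theorem obs_inv {z : ℕ} (hz : 0 < z) {l1 l2 k1 k2 lS kS : ℕ} (hR : P.Rect l1 l2 k1 k2 lS kS)
    {ξ η : P.Lf → ℕ} {S : Set (ℕ × ℕ)} (hS : ∀ p ∈ P.pairs z l1 l2 k1 k2 ξ η, p ∉ S)
    (ω ω' : P.Sp z) :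
    Obs (mix (P.V z l1 l2 k1 k2 lS kS S) ω ω') l1 k1 ξ η ↔ Obs ω l1 k1 ξ η := by
  have hl : l1 ≤ l2 := le_trans hR.hl1.le hR.hl2
  have hk : k1 ≤ k2 := le_trans hR.hk1.le hR.hk2
  constructor
  · intro h x y hx hy
    obtain ⟨r, c, r', c', hne⟩ := h x y hx hy
    refine ⟨r, c, r', c', ?_⟩
    rwa [inv_col hl hk hS ω ω' x y hx hy, inv_col hl hk hS ω ω' x y hx hy] at hne
  · intro h x y hx hy
    obtain ⟨r, c, r', c', hne⟩ := h x y hx hy
    refine ⟨r, c, r', c', ?_⟩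
    rwa [inv_col hl hk hS ω ω' x y hx hy, inv_col hl hk hS ω ω' x y hx hy]

end Par

end Pool.Agent.H65.GD
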