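import Pool.Agent.H46.TS.Av2

/-! The probability that many of several disjoint small sets of coordinates are hit. -/

namespace Pool.Agent.H65.GD

open Finset Pool.Agent.H46.SR Pool.Agent.H46.TS

theorem many_coord {ι B : Type*} [Fintype ι] [DecidableEq ι] [Fintype B] [Nonempty B] (c : ι)
    (g : B → ℝ) : av (fun ω : ι → B => g (ω c)) = av g := by
  have h := av_comp_inj (C := Unit) (D := ι) (B := B) (fun _ => c)
    (fun _ _ _ => rfl) (fun ω => g (ω ()))
  rw [h]
  exact av_equiv (Equiv.funUnique Unit B) g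

theorem many_one {ι B : Type*} [Fintype ι] [DecidableEq ι] [Fintype B] [Nonempty B]
    (b0 : B → Prop) {p : ℝ} (hp0 : 0 ≤ p) (hp : av (fun b => ind (b0 b)) ≤ p) (C : Finset ι)
    {A : ℕ} (hA : C.card ≤ A) (ω : ι → B) :
    av (fun ω' : ι → B => ind (∃ c ∈ C, b0 (mix (C : Set ι) ω ω' c))) ≤ (A : ℝ) * p := by
  have h1 : ∀ ω' : ι → B, ind (∃ c ∈ C, b0 (mix (C : Set ι) ω ω' c)) ≤
      ∑ c ∈ C, ind (b0 (ω' c)) := by
    intro ω'
    by_cases h : ∃ c ∈ C, b0 (mix (C : Set ι) ω ω' c)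
    · obtain ⟨c, hc, hb⟩ := h
      rw [ind_pos ⟨c, hc, hb⟩]
      rw [mix_mem (show c ∈ (C : Set ι) from hc)] at hb
      calc (1 : ℝ) = ind (b0 (ω' c)) := (ind_pos hb).symm
        _ ≤ ∑ c ∈ C, ind (b0 (ω' c)) :=
          Finset.single_le_sum (f := fun c => ind (b0 (ω' c))) (fun _ _ => ind_nonneg _) hc
    · rw [ind_neg h]
      exact Finset.sum_nonneg (fun _ _ => ind_nonneg _)
  calc av (fun ω' : ι → B => ind (∃ c ∈ C, b0 (mix (C : Set ι) ω ω' c)))
      ≤ av (fun ω' : ι → B => ∑ c ∈ C, ind (b0 (ω' c))) := av_mono h1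
    _ = ∑ c ∈ C, av (fun ω' : ι → B => ind (b0 (ω' c))) := av_sum _ _
    _ ≤ ∑ _c ∈ C, p := by
        apply Finset.sum_le_sum
        intro c _
        rw [many_coord c (fun b => ind (b0 b))]
        exact hp
    _ = (C.card : ℝ) * p := by rw [Finset.sum_const, nsmul_eq_mul]
    _ ≤ (A : ℝ) * p := mul_le_mul_of_nonneg_right (by exact_mod_cast hA) hp0

theorem many {ι B S : Type*} [Fintype ι] [DecidableEq ι] [Fintype B] [Nonempty B] [Fintype S]
    [DecidableEq S] (b0 : B → Prop) {p : ℝ} (hp : av (fun b => ind (b0 b)) ≤ p)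
    (C : S → Finset ι) (hC : ∀ s s', s ≠ s' → Disjoint (C s) (C s')) {A : ℕ}
    (hA : ∀ s, (C s).card ≤ A) (T : ℕ) :
    av (fun ω : ι → B => ind (∃ S' : Finset S, T ≤ S'.card ∧ ∀ s ∈ S', ∃ c ∈ C s, b0 (ω c))) ≤
      2 ^ (Fintype.card S) * ((A : ℝ) * p) ^ T := by
  classical
  have hp0 : 0 ≤ p := (av_nonneg (fun _ => ind_nonneg _)).trans hp
  have hAp : 0 ≤ (A : ℝ) * p := mul_nonneg (Nat.cast_nonneg _) hp0
  have h1 : ∀ ω : ι → B,
      ind (∃ S' : Finset S, T ≤ S'.card ∧ ∀ s ∈ S', ∃ c ∈ C s, b0 (ω c)) ≤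
        ∑ S' ∈ powersetCard T (univ : Finset S), ind (∀ s ∈ S', ∃ c ∈ C s, b0 (ω c)) := by
    intro ω
    by_cases h : ∃ S' : Finset S, T ≤ S'.card ∧ ∀ s ∈ S', ∃ c ∈ C s, b0 (ω c)
    · rw [ind_pos h]
      obtain ⟨S', hT, hS'⟩ := h
      obtain ⟨S'', hsub, hcard⟩ := Finset.exists_subset_card_eq hT
      have hmem : S'' ∈ powersetCard T (univ : Finset S) := by
        rw [Finset.mem_powersetCard]
        exact ⟨Finset.subset_univ _, hcard⟩
      have hall : ∀ s ∈ S'', ∃ c ∈ C s, b0 (ω c) := fun s hs => hS' s (hsub hs)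
      calc (1 : ℝ) = ind (∀ s ∈ S'', ∃ c ∈ C s, b0 (ω c)) := (ind_pos hall).symm
        _ ≤ _ := Finset.single_le_sum
          (f := fun S' : Finset S => ind (∀ s ∈ S', ∃ c ∈ C s, b0 (ω c)))
          (fun _ _ => ind_nonneg _) hmem
    · rw [ind_neg h]
      exact Finset.sum_nonneg (fun _ _ => ind_nonneg _)
  have h2 : ∀ S' : Finset S,
      av (fun ω : ι → B => ind (∀ s ∈ S', ∃ c ∈ C s, b0 (ω c))) ≤ ((A : ℝ) * p) ^ S'.card := by
    intro S'
    refine prod_bound (fun s => ((C s : Finset ι) : Set ι)) (fun s ω => ∃ c ∈ C s, b0 (ω c))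
      hAp ?_ ?_ S'
    · intro l l' hl ω ω'
      have key : ∀ c ∈ C l, mix ((C l' : Finset ι) : Set ι) ω ω' c = ω c := by
        intro c hc
        apply mix_not_mem
        intro hc'
        exact Finset.disjoint_left.mp (hC l l' hl) hc hc'
      constructor
      · rintro ⟨c, hc, hb⟩
        rw [key c hc] at hb
        exact ⟨c, hc, hb⟩
      · rintro ⟨c, hc, hb⟩
        refine ⟨c, hc, ?_⟩
        rw [key c hc]
        exact hb
    · intro l ω
      exact many_one b0 hp0 hp (C l) (hA l) ω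
  calc av (fun ω : ι → B => ind (∃ S' : Finset S, T ≤ S'.card ∧ ∀ s ∈ S', ∃ c ∈ C s, b0 (ω c)))
      ≤ av (fun ω : ι → B => ∑ S' ∈ powersetCard T (univ : Finset S),
          ind (∀ s ∈ S', ∃ c ∈ C s, b0 (ω c))) := av_mono h1
    _ = ∑ S' ∈ powersetCard T (univ : Finset S),
          av (fun ω : ι → B => ind (∀ s ∈ S', ∃ c ∈ C s, b0 (ω c))) := av_sum _ _
    _ ≤ ∑ _S' ∈ powersetCard T (univ : Finset S), ((A : ℝ) * p) ^ T := by
        apply Finset.sum_le_sum
        intro S' hS'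
        rw [Finset.mem_powersetCard] at hS'
        have := h2 S'
        rw [hS'.2] at this
        exact this
    _ = ((powersetCard T (univ : Finset S)).card : ℝ) * ((A : ℝ) * p) ^ T := by
        rw [Finset.sum_const, nsmul_eq_mul]
    _ ≤ 2 ^ (Fintype.card S) * ((A : ℝ) * p) ^ T := by
        apply mul_le_mul_of_nonneg_right _ (pow_nonneg hAp _)
        have h3 : (powersetCard T (univ : Finset S)).card ≤ 2 ^ (Fintype.card S) := by
          calc (powersetCard T (univ : Finset S)).card ≤ (powerset (univ : Finset S)).card :=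
              Finset.card_le_card (fun s hs => by
                rw [Finset.mem_powerset]
                exact (Finset.mem_powersetCard.mp hs).1)
            _ = 2 ^ (Fintype.card S) := by rw [Finset.card_powerset, Finset.card_univ]
        exact_mod_cast h3

end Pool.Agent.H65.GD

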