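import Pool.Agent.H65.GD.Tup

/-! A new good group rarely meets the cells of a given one. -/

namespace Pool.Agent.H65.GD

open Finset Pool.Agent.H46.SR Pool.Agent.H46.TS

namespace Par

variable {P : Par}

/-- the pairs of a sample -/
def prs {z : ℕ} (hr hc : P.Half z) (g : P.R1 z × P.R1 z) : Set (ℕ × ℕ) :=
  P.pairs z hr.l1.val hr.l2.val hc.l1.val hc.l2.val (xi hr g.1) (xi hc g.2)

/-- one direction: a given leaf of a good sample is rarely in a given cell of scale `l2` -/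
theorem meet_one {z : ℕ} (hz : 0 < z) (h : P.Half z) (Ξ : ℕ) (r : P.Lf) :
    av (fun ρ : P.R1 z => ind (GoodR h ρ ∧
      xi h ρ r / z ^ (P.δ * (h.l2.val - h.l1.val)) = Ξ)) ≤
      (z : ℝ) ^ (P.W1 + 2 - P.κ) / (z : ℝ) ^ P.D := by
  have hz0 : (0 : ℝ) < z := by exact_mod_cast hz
  by_cases hcnt : cnt h Ξ ≤ z ^ (P.W1 + 2 - P.κ)
  · refine le_trans (av_mono fun ρ => ind_mono ?_) (le_trans (lf_marg hz r
      (univ.filter (fun t : Fin (z ^ P.D) =>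
        (h.dr t).map (fun u => u.val / z ^ (P.δ * (h.l2.val - h.l1.val))) = some Ξ))) ?_)
    · rintro ⟨hg, hx⟩
      have ht : lfN ρ r < z ^ P.D := lfN_lt hz ρ r
      have hce : ce h (lfN ρ r) = h.dr ⟨lfN ρ r, ht⟩ := by
        unfold ce
        rw [dif_pos ht]
      obtain ⟨u, hu⟩ := Option.isSome_iff_exists.mp (hg.some r)
      have hxi : xi h ρ r = u.val := by
        unfold xi
        rw [hu]
      refine ⟨⟨lfN ρ r, ht⟩, ?_, rfl⟩
      rw [mem_filter]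
      refine ⟨mem_univ _, ?_⟩
      rw [← hce, hu, Option.map_some, ← hx, hxi]
    · apply div_le_div_of_nonneg_right _ (by positivity)
      exact_mod_cast hcnt
  · have h0 : ∀ ρ : P.R1 z, ind (GoodR h ρ ∧
        xi h ρ r / z ^ (P.δ * (h.l2.val - h.l1.val)) = Ξ) = 0 := by
      intro ρ
      apply ind_neg
      rintro ⟨hg, hx⟩
      apply hcnt
      rw [← hx]
      exact hg.light r
    have : av (fun ρ : P.R1 z => ind (GoodR h ρ ∧
        xi h ρ r / z ^ (P.δ * (h.l2.val - h.l1.val)) = Ξ)) = 0 := by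
      unfold av
      simp only [h0, Finset.sum_const_zero, zero_div]
    rw [this]
    positivity

theorem meet_bound {z : ℕ} (hz : 0 < z) (hr hc : P.Half z) (g' : P.R1 z × P.R1 z) :
    av (fun g : P.R1 z × P.R1 z => ind ((GoodR hr g.1 ∧ GoodR hc g.2) ∧
      ∃ p, p ∈ prs hr hc g' ∧ p ∈ prs hr hc g)) ≤
      16 * (P.q : ℝ) ^ 4 * ((z : ℝ) ^ (P.W1 + 2 - P.κ) / (z : ℝ) ^ P.D) ^ 2 := by
  have hz0 : (0 : ℝ) < z := by exact_mod_cast hz
  have hstep : ∀ g : P.R1 z × P.R1 z, ind ((GoodR hr g.1 ∧ GoodR hc g.2) ∧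
      ∃ p, p ∈ prs hr hc g' ∧ p ∈ prs hr hc g) ≤
      ∑ i : (P.Lf × P.Lf) × (P.Lf × P.Lf),
        ind (GoodR hr g.1 ∧ xi hr g.1 i.2.1 / z ^ (P.δ * (hr.l2.val - hr.l1.val)) =
          xi hr g'.1 i.1.1 / z ^ (P.δ * (hr.l2.val - hr.l1.val))) *
        ind (GoodR hc g.2 ∧ xi hc g.2 i.2.2 / z ^ (P.δ * (hc.l2.val - hc.l1.val)) =
          xi hc g'.2 i.1.2 / z ^ (P.δ * (hc.l2.val - hc.l1.val))) := by
    intro g
    simp only [← ind_and]
    apply ind_le_sum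
    rintro ⟨⟨h1, h2⟩, p, hp', hp⟩
    obtain ⟨r, c, hrc⟩ := hp'
    obtain ⟨r', c', hrc'⟩ := hp
    rw [hrc, Prod.mk.injEq] at hrc'
    exact ⟨((r, c), (r', c')), ⟨h1, hrc'.1.symm⟩, h2, hrc'.2.symm⟩
  refine le_trans (av_mono hstep) ?_
  rw [av_sum]
  set B : ℝ := (z : ℝ) ^ (P.W1 + 2 - P.κ) / (z : ℝ) ^ P.D with hB
  have hB0 : 0 ≤ B := by positivity
  have hterm : ∀ i ∈ (univ : Finset ((P.Lf × P.Lf) × (P.Lf × P.Lf))),
      av (fun g : P.R1 z × P.R1 z =>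
        ind (GoodR hr g.1 ∧ xi hr g.1 i.2.1 / z ^ (P.δ * (hr.l2.val - hr.l1.val)) =
          xi hr g'.1 i.1.1 / z ^ (P.δ * (hr.l2.val - hr.l1.val))) *
        ind (GoodR hc g.2 ∧ xi hc g.2 i.2.2 / z ^ (P.δ * (hc.l2.val - hc.l1.val)) =
          xi hc g'.2 i.1.2 / z ^ (P.δ * (hc.l2.val - hc.l1.val)))) ≤ B ^ 2 := by
    intro i _
    rw [av_prod_mul (fun ρ : P.R1 z => ind (GoodR hr ρ ∧
        xi hr ρ i.2.1 / z ^ (P.δ * (hr.l2.val - hr.l1.val)) =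
          xi hr g'.1 i.1.1 / z ^ (P.δ * (hr.l2.val - hr.l1.val))))
      (fun ρ : P.R1 z => ind (GoodR hc ρ ∧
        xi hc ρ i.2.2 / z ^ (P.δ * (hc.l2.val - hc.l1.val)) =
          xi hc g'.2 i.1.2 / z ^ (P.δ * (hc.l2.val - hc.l1.val)))), pow_two]
    exact mul_le_mul (meet_one hz hr _ _) (meet_one hz hc _ _)
      (av_nonneg fun _ => ind_nonneg _) hB0
  refine le_trans (Finset.sum_le_sum hterm) ?_
  rw [Finset.sum_const, nsmul_eq_mul]
  have hcard : (((univ : Finset ((P.Lf × P.Lf) × (P.Lf × P.Lf))).card : ℕ) : ℝ) =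
      16 * (P.q : ℝ) ^ 4 := by
    rw [Finset.card_univ]
    simp only [Fintype.card_prod, Fintype.card_fin]
    push_cast
    ring
  rw [hcard]

end Par

end Pool.Agent.H65.GD
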