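import Pool.Agent.H65.GD.Defs

/-! Existence of a good rectangle of scales. -/

namespace Pool.Agent.H65.GD

open Finset

theorem RectE_nomul {M k1 k2 k : ℕ} (hM : 0 < M) (he : k1 / M = k2 / M) (h1 : k1 < k)
    (h2 : k ≤ k2) : ¬ M ∣ k := by
  rintro ⟨q, rfl⟩
  have ha : k1 / M ≤ M * q / M := Nat.div_le_div_right h1.le
  have hb : M * q / M ≤ k2 / M := Nat.div_le_div_right h2
  rw [Nat.mul_div_cancel_left _ hM] at ha hb
  have hq : q = k1 / M := by omega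
  have : M * q ≤ k1 := by
    rw [hq]
    exact Nat.mul_div_le k1 M
  omega

theorem RectE_mul {M k1 k2 : ℕ} (hM : 0 < M) (he : k1 % M = k2 % M) (h : k1 < k2) :
    ∃ k, k1 < k ∧ k ≤ k2 ∧ M ∣ k := by
  have e1 := Nat.div_add_mod k1 M
  have e2 := Nat.div_add_mod k2 M
  have m1 := Nat.mod_lt k1 hM
  have hdiv : k1 / M < k2 / M := by
    by_contra hcon
    push Not at hcon
    have := Nat.mul_le_mul_left M hcon
    omega
  have hle : M * (k1 / M + 1) ≤ M * (k2 / M) := Nat.mul_le_mul_left _ hdiv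
  have hmul : M * (k1 / M + 1) = M * (k1 / M) + M := by ring
  exact ⟨M * (k2 / M), by omega, Nat.mul_div_le k2 _, Dvd.intro _ rfl⟩

theorem RectE_div {X M i : ℕ} (hM : 0 < M) (h : X / M = i) : i * M ≤ X ∧ X < (i + 1) * M := by
  have e1 := Nat.div_add_mod X M
  have m1 := Nat.mod_lt X hM
  rw [h] at e1
  constructor
  · rw [mul_comm]; omega
  · rw [add_mul, one_mul, mul_comm]; omega

theorem label_lemma {L M0 : ℕ} (hL : 1 ≤ L) (hM0 : 2 ≤ M0) (A : Finset ℕ)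
    (hA : A ⊆ range (L * M0 ^ L)) (hc : L * M0 ^ (L - 1) < A.card) :
    ∃ i < L, ∀ j < L, ∃ l1 ∈ A, ∃ l2 ∈ A, l1 < l2 ∧ l1 / M0 ^ L = i ∧ l2 / M0 ^ L = i ∧
      (∀ l, l1 < l → l ≤ l2 → ¬ M0 ^ (L - j) ∣ l) ∧
      ∃ l, l1 < l ∧ l ≤ l2 ∧ M0 ^ (L - 1 - j) ∣ l := by
  classical
  have hpL : 0 < M0 ^ L := pow_pos (by omega) _
  have hmap : ∀ l ∈ A, l / M0 ^ L ∈ range L := by
    intro l hl
    have := hA hl
    rw [mem_range] at this ⊢
    exact Nat.div_lt_of_lt_mul (by rw [mul_comm]; exact this)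
  obtain ⟨i, hi, hic⟩ := exists_lt_card_fiber_of_mul_lt_card_of_maps_to hmap
    (n := M0 ^ (L - 1)) (by rw [card_range]; exact hc)
  refine ⟨i, mem_range.1 hi, ?_⟩
  intro j hj
  have hpj : 0 < M0 ^ j := pow_pos (by omega) _
  have hpe : 0 < M0 ^ (L - 1 - j) := pow_pos (by omega) _
  have hpe' : 0 < M0 ^ (L - j) := pow_pos (by omega) _
  have hLe : M0 ^ L = M0 ^ (L - j) * M0 ^ j := by
    rw [← pow_add]; congr 1; omega
  have hLe' : M0 ^ (L - 1) = M0 ^ j * M0 ^ (L - 1 - j) := by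
    rw [← pow_add]; congr 1; omega
  have hmaps : ∀ t ∈ A.filter (fun l => l / M0 ^ L = i),
      (t / M0 ^ (L - j), t % M0 ^ (L - 1 - j)) ∈
      (Ico (i * M0 ^ j) ((i + 1) * M0 ^ j)) ×ˢ (range (M0 ^ (L - 1 - j))) := by
    intro t ht
    rw [mem_filter] at ht
    rw [mem_product, mem_range, mem_Ico]
    refine ⟨?_, Nat.mod_lt _ hpe⟩
    apply RectE_div hpj
    rw [Nat.div_div_eq_div_mul, ← hLe]
    exact ht.2
  have hcard' : ((Ico (i * M0 ^ j) ((i + 1) * M0 ^ j)) ×ˢ (range (M0 ^ (L - 1 - j)))).card <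
      (A.filter (fun l => l / M0 ^ L = i)).card := by
    rw [card_product, card_range, Nat.card_Ico, add_mul, one_mul, Nat.add_sub_cancel_left,
      ← hLe']
    exact hic
  obtain ⟨x, hx, y, hy, hne, heq⟩ := exists_ne_map_eq_of_card_lt_of_maps_to hcard' hmaps
  simp only [Prod.mk.injEq] at heq
  rw [mem_filter] at hx hy
  rcases lt_or_gt_of_ne hne with hlt | hlt
  · exact ⟨x, hx.1, y, hy.1, hlt, hx.2, hy.2, fun l h1 h2 => RectE_nomul hpe' heq.1 h1 h2,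
      RectE_mul hpe heq.2 hlt⟩
  · exact ⟨y, hy.1, x, hx.1, hlt, hy.2, hx.2, fun l h1 h2 => RectE_nomul hpe' heq.1.symm h1 h2,
      RectE_mul hpe heq.2.symm hlt⟩

theorem exists_rect (P : Par) (A B : Finset ℕ) (hA : A ⊆ range P.K) (hB : B ⊆ range P.K)
    (hA' : P.L * P.M0 ^ (P.L - 1) < A.card) (hB' : P.L * P.M0 ^ (P.L - 1) < B.card) :
    ∃ l1 ∈ A, ∃ l2 ∈ A, ∃ k1 ∈ B, ∃ k2 ∈ B, ∃ lS kS, P.Rect l1 l2 k1 k2 lS kS := by
  have hM := P.Mm_pos
  obtain ⟨i, hi, hi'⟩ := label_lemma P.hL P.hM0 A hA hA'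
  obtain ⟨j, hj, hj'⟩ := label_lemma P.hL P.hM0 B hB hB'
  obtain ⟨l1, hl1, l2, hl2, hl, hl1i, hl2i, hln, lS, hS1, hS2, hSd⟩ := hi' j hj
  obtain ⟨k1, hk1, k2, hk2, hk, hk1j, hk2j, hkn, kS, hT1, hT2, hTd⟩ := hj' i hi
  have hlSi : lS / P.Mm = i := by
    have h1 : l1 / P.Mm ≤ lS / P.Mm := Nat.div_le_div_right hS1.le
    have h2 : lS / P.Mm ≤ l2 / P.Mm := Nat.div_le_div_right hS2
    have h3 : l1 / P.Mm = i := hl1i
    have h4 : l2 / P.Mm = i := hl2i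
    omega
  have hkSj : kS / P.Mm = j := by
    have h1 : k1 / P.Mm ≤ kS / P.Mm := Nat.div_le_div_right hT1.le
    have h2 : kS / P.Mm ≤ k2 / P.Mm := Nat.div_le_div_right hT2
    have h3 : k1 / P.Mm = j := hk1j
    have h4 : k2 / P.Mm = j := hk2j
    omega
  refine ⟨l1, hl1, l2, hl2, k1, hk1, k2, hk2, lS, kS, ?_⟩
  refine ⟨hS1, hS2, mem_range.1 (hA hl2), hT1, hT2, mem_range.1 (hB hk2), ?_, ?_, ?_⟩
  · unfold Par.TT
    rw [hlSi, hkSj]
    exact ⟨hTd, hkn kS hT1 hT2, hSd, hln lS hS1 hS2⟩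
  · intro l k hT h1 h2
    have hge : i ≤ l / P.Mm := by
      by_contra hcon
      push Not at hcon
      exact hkn k h1 h2 ((pow_dvd_pow P.M0 (by omega)).trans hT.1)
    have e1 := (RectE_div hM (rfl : l / P.Mm = l / P.Mm)).1
    have e2 := (RectE_div hM (show l1 / P.Mm = i from hl1i)).2
    have e3 := Nat.mul_le_mul_right P.Mm hge
    rw [add_mul, one_mul] at e2
    omega
  · intro l k hT h1 h2
    have hge : j ≤ k / P.Mm := by
      by_contra hcon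
      push Not at hcon
      exact hln l h1 h2 ((pow_dvd_pow P.M0 (by omega)).trans hT.2.2.1)
    have e1 := (RectE_div hM (rfl : k / P.Mm = k / P.Mm)).1
    have e2 := (RectE_div hM (show k1 / P.Mm = j from hk1j)).2
    have e3 := Nat.mul_le_mul_right P.Mm hge
    rw [add_mul, one_mul] at e2
    omega

end Pool.Agent.H65.GD
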