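import Pool.Agent.H65.GD.UnionF
import Pool.Agent.H65.GD.RectE
import Pool.Agent.H68.RS.Main

/-! A matrix with at most `2 q` ones per row and column and a colouring of a much larger board
without monochromatic copy. -/

namespace Pool.Agent.H65.GD

open Finset Filter Pool.Agent.H46.SR Pool.Agent.H46.TS Pool.Agent.H68.RS

namespace Par

variable (P : Par)

theorem noCopy_pow (z : ℕ) : z ^ P.D * z ^ P.κ = z ^ P.m := by
  have h1 := P.hκ1
  have h2 := P.hW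
  rw [← pow_add]
  congr 1
  unfold D
  omega

theorem noCopy_lt {z : ℕ} (hz : 0 < z) (ρ : P.R1 z) (i : Fin (z ^ P.κ)) (l : P.Lf) :
    lfN ρ l * z ^ P.κ + i.val < z ^ P.m := by
  have h1 : lfN ρ l < z ^ P.D := lfN_lt hz ρ l
  have h2 := i.2
  calc lfN ρ l * z ^ P.κ + i.val < lfN ρ l * z ^ P.κ + z ^ P.κ := by omega
    _ = (lfN ρ l + 1) * z ^ P.κ := by ring
    _ ≤ z ^ P.D * z ^ P.κ := Nat.mul_le_mul_right _ h1
    _ = z ^ P.m := P.noCopy_pow z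

/-- the row (or column) of a leaf of group `i` -/
def noCopyRow {z : ℕ} (hz : 0 < z) (ρ : P.R1 z) (i : Fin (z ^ P.κ)) (l : P.Lf) :
    Fin (z ^ P.m) := ⟨lfN ρ l * z ^ P.κ + i.val, P.noCopy_lt hz ρ i l⟩

theorem noCopyRow_mod {z : ℕ} (hz : 0 < z) (ρ : P.R1 z) (i : Fin (z ^ P.κ)) (l : P.Lf) :
    (P.noCopyRow hz ρ i l).val % z ^ P.κ = i.val := by
  show (lfN ρ l * z ^ P.κ + i.val) % z ^ P.κ = i.val
  rw [Nat.mul_add_mod_self_right, Nat.mod_eq_of_lt i.2]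

theorem noCopyRow_div {z : ℕ} (hz : 0 < z) (ρ : P.R1 z) (i : Fin (z ^ P.κ)) (l : P.Lf) :
    (P.noCopyRow hz ρ i l).val / z ^ P.κ = lfN ρ l := by
  have hpos : 0 < z ^ P.κ := pow_pos hz _
  show (lfN ρ l * z ^ P.κ + i.val) / z ^ P.κ = lfN ρ l
  rw [mul_comm, Nat.mul_add_div hpos, Nat.div_eq_of_lt i.2, add_zero]

theorem noCopy_deg {z : ℕ} (hz : 0 < z) (μ ν : Fin (z ^ P.κ) → P.R1 z) (r : Fin (z ^ P.m)) :
    {c | ∃ i lr lc, r = P.noCopyRow hz (μ i) i lr ∧ c = P.noCopyRow hz (ν i) i lc}.ncard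
      ≤ 2 * P.q := by
  classical
  have hpos : 0 < z ^ P.κ := pow_pos hz _
  set i0 : Fin (z ^ P.κ) := ⟨r.val % z ^ P.κ, Nat.mod_lt _ hpos⟩ with hi0
  have hsub : {c | ∃ i lr lc, r = P.noCopyRow hz (μ i) i lr ∧ c = P.noCopyRow hz (ν i) i lc} ⊆
      (fun lc : P.Lf => P.noCopyRow hz (ν i0) i0 lc) '' (Set.univ : Set P.Lf) := by
    rintro c ⟨i, lr, lc, h1, h2⟩
    have h3 : i = i0 := by
      apply Fin.ext
      show i.val = r.val % z ^ P.κ
      rw [h1, P.noCopyRow_mod]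
    subst h3
    exact ⟨lc, Set.mem_univ _, h2.symm⟩
  calc _ ≤ ((fun lc : P.Lf => P.noCopyRow hz (ν i0) i0 lc) '' (Set.univ : Set P.Lf)).ncard :=
        Set.ncard_le_ncard hsub (Set.toFinite _)
    _ ≤ (Set.univ : Set P.Lf).ncard := Set.ncard_image_le (Set.toFinite _)
    _ = 2 * P.q := by
        rw [Set.ncard_univ, Nat.card_eq_fintype_card, Fintype.card_prod, Fintype.card_fin,
          Fintype.card_fin]

theorem noCopy_zmod (a b : ZMod 2) (h : decide (a = 0) = decide (b = 0)) : a = b := by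
  revert a b
  decide

theorem noCopy_cell {z : ℕ} (hz : 0 < z) {φ : Fin (z ^ P.m) → Fin (P.N z)} {h : P.Half z}
    {ρ : P.R1 z} (i : Fin (z ^ P.κ)) (hG : GoodR h ρ)
    (hcell : ∀ (b : Fin (P.n z)) (u : Fin (P.N z)), ce h (b.val / z ^ P.κ) = some u →
      cell h.l1.val (φ b) = u) (l : P.Lf) :
    (cell h.l1.val (φ (P.noCopyRow hz ρ i l))).val = xi h ρ l := by
  obtain ⟨u, hu⟩ := Option.isSome_iff_exists.mp (hG.some l)
  have h1 : xi h ρ l = u.val := by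
    unfold xi
    rw [hu]
  have h2 : ce h ((P.noCopyRow hz ρ i l).val / z ^ P.κ) = some u := by
    rw [P.noCopyRow_div, hu]
  rw [h1, hcell _ u h2]

theorem no_copy : ∀ᶠ z : ℕ in atTop,
    ∃ M : Fin (z ^ P.m) → Fin (z ^ P.m) → Prop,
      (∀ r, {c | M r c}.ncard ≤ 2 * P.q) ∧ (∀ c, {r | M r c}.ncard ≤ 2 * P.q) ∧
      ∃ χ : Fin (z ^ (P.δ * P.K)) → Fin (z ^ (P.δ * P.K)) → Bool, ¬ HasMonoCopy M χ := by
  filter_upwards [P.exists_mu, eventually_ge_atTop P.zH] with z hex hzH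
  have hz : 0 < z := by
    have h1 : 2 ≤ P.zH := by
      unfold zH
      omega
    omega
  obtain ⟨μ, ω, hμ⟩ := hex
  refine ⟨fun r c => ∃ i lr lc, r = P.noCopyRow hz (μ i).1 i lr ∧
    c = P.noCopyRow hz (μ i).2 i lc, ?_, ?_, fun x y => decide (col ω x y = 0), ?_⟩
  · intro r
    exact P.noCopy_deg hz (fun i => (μ i).1) (fun i => (μ i).2) r
  · intro c
    have h1 := P.noCopy_deg hz (fun i => (μ i).2) (fun i => (μ i).1) c
    have h2 : {r | ∃ i lr lc, r = P.noCopyRow hz (μ i).1 i lr ∧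
        c = P.noCopyRow hz (μ i).2 i lc} = {r | ∃ i lr lc, c = P.noCopyRow hz (μ i).2 i lr ∧
        r = P.noCopyRow hz (μ i).1 i lc} := by
      ext r
      constructor
      · rintro ⟨i, lr, lc, h3, h4⟩
        exact ⟨i, lc, lr, h4, h3⟩
      · rintro ⟨i, lr, lc, h3, h4⟩
        exact ⟨i, lc, lr, h4, h3⟩
    rw [h2]
    exact h1
  · rintro ⟨b, f, g, hf, hg, hM⟩
    obtain ⟨A, hA, hA', hAh⟩ := half_exists hzH f hf
    obtain ⟨B, hB, hB', hBh⟩ := half_exists hzH g hg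
    obtain ⟨l1, hl1, l2, hl2, k1, hk1, k2, hk2, lS, kS, hR⟩ := exists_rect P A B hA hB hA' hB'
    obtain ⟨hr, hr1, hr2, hrc, hrcell⟩ := hAh l1 hl1 l2 hl2 (lt_of_lt_of_le hR.hl1 hR.hl2)
    obtain ⟨hc, hc1, hc2, hcc, hccell⟩ := hBh k1 hk1 k2 hk2 (lt_of_lt_of_le hR.hk1 hR.hk2)
    subst hr1
    subst hr2
    subst hc1
    subst hc2
    obtain ⟨i, hG1, hG2, hObs⟩ := hμ hr hc lS kS hR hrc hcc
    obtain ⟨r, c, r', c', hne⟩ := hObs (fun l => f (P.noCopyRow hz (μ i).1 i l))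
      (fun l => g (P.noCopyRow hz (μ i).2 i l))
      (fun l => P.noCopy_cell hz i hG1 hrcell l) (fun l => P.noCopy_cell hz i hG2 hccell l)
    apply hne
    have e1 := hM _ _ ⟨i, r, c, rfl, rfl⟩
    have e2 := hM _ _ ⟨i, r', c', rfl, rfl⟩
    exact noCopy_zmod _ _ (e1.trans e2.symm)

end Par

end Pool.Agent.H65.GD

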