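import Pool.Agent.H65.GD.Defs

/-! The deterministic part: what a monochromatic placement of a group needs. -/

namespace Pool.Agent.H65.GD

open Finset

namespace Par

variable {P : Par}

/-- reduce a natural number to a cell -/
def fc (P : Par) (z : ℕ) [NeZero (P.N z)] (u : ℕ) : Fin (P.N z) :=
  ⟨u % P.N z, Nat.mod_lt _ (NeZero.pos _)⟩

open scoped Classical in
/-- the part of the colour which is fixed by the cells of scale `l1`, `k1` -/
noncomputable def EA {z : ℕ} [NeZero (P.N z)] (ω : P.Sp z) (l1 k1 : ℕ) (ξ η : P.Lf → ℕ)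
    (r c : P.Lf) : ZMod 2 :=
  ∑ l : Fin P.K, ∑ k : Fin P.K,
    if P.TT l.val k.val ∧ l1 ≤ l.val ∧ k1 ≤ k.val then
      F ω l k (fc P z (ξ r / z ^ (P.δ * (l.val - l1)))) (fc P z (η c / z ^ (P.δ * (k.val - k1))))
    else 0

/-- no fine row flips with the column scale of a class -/
def NoC {z : ℕ} (ω : P.Sp z) (l1 k1 k2 : ℕ) (ξ η : P.Lf → ℕ) : Prop :=
  ∀ l k : Fin P.K, P.TT l.val k.val → l.val < l1 → k1 < k.val → k.val ≤ k2 →
    ∀ u v : Fin (P.N z), (∃ r, u.val / z ^ (P.δ * (l1 - l.val)) = ξ r) →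
      (∃ c, v.val = η c / z ^ (P.δ * (k.val - k1))) → F ω l k u v = 0

/-- no fine column flips with the row scale of a class -/
def NoC' {z : ℕ} (ω : P.Sp z) (l1 l2 k1 : ℕ) (ξ η : P.Lf → ℕ) : Prop :=
  ∀ l k : Fin P.K, P.TT l.val k.val → k.val < k1 → l1 < l.val → l.val ≤ l2 →
    ∀ u v : Fin (P.N z), (∃ r, u.val = ξ r / z ^ (P.δ * (l.val - l1))) →
      (∃ c, v.val / z ^ (P.δ * (k1 - k.val)) = η c) → F ω l k u v = 0

/-- a fine flip at the pair of leaves `(r, c)` -/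
def Dfl {z : ℕ} (ω : P.Sp z) (l1 k1 : ℕ) (x y : P.Lf → Fin (P.N z)) (r c : P.Lf) : Prop :=
  ∃ l k : Fin P.K, P.TT l.val k.val ∧ l.val ≤ l1 ∧ k.val ≤ k1 ∧ (l.val < l1 ∨ k.val < k1) ∧
    F ω l k (cell l.val (x r)) (cell k.val (y c)) = 1

/-- flips are zero or one -/
theorem ObsDet_F01 {z : ℕ} (ω : P.Sp z) (l k : Fin P.K) (u v : Fin (P.N z)) :
    F ω l k u v = 0 ∨ F ω l k u v = 1 := by
  unfold F
  split_ifs
  · exact Or.inr rfl
  · exact Or.inl rfl

theorem ObsDet_div (δ z e : ℕ) {a b : ℕ} (h : a ≤ b) :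
    e / z ^ (δ * b) = e / z ^ (δ * a) / z ^ (δ * (b - a)) := by
  rw [Nat.div_div_eq_div_mul, ← pow_add, ← Nat.mul_add]
  have h1 : a + (b - a) = b := by omega
  rw [h1]

theorem ObsDet_cell_le {z : ℕ} {l1 l : ℕ} (h : l1 ≤ l) {x : Fin (P.N z)} {e : ℕ}
    (hx : (cell l1 x).val = e) : (cell l x).val = e / z ^ (P.δ * (l - l1)) := by
  rw [← hx]
  show x.val / z ^ (P.δ * l) = x.val / z ^ (P.δ * l1) / z ^ (P.δ * (l - l1))
  exact ObsDet_div P.δ z x.val h

theorem ObsDet_cell_ge {z : ℕ} {l1 l : ℕ} (h : l ≤ l1) {x : Fin (P.N z)} {e : ℕ}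
    (hx : (cell l1 x).val = e) : (cell l x).val / z ^ (P.δ * (l1 - l)) = e := by
  rw [← hx]
  show x.val / z ^ (P.δ * l) / z ^ (P.δ * (l1 - l)) = x.val / z ^ (P.δ * l1)
  exact (ObsDet_div P.δ z x.val h).symm

theorem ObsDet_fc {z : ℕ} [NeZero (P.N z)] {u : Fin (P.N z)} {e : ℕ} (h : u.val = e) :
    fc P z e = u := by
  apply Fin.ext
  show e % P.N z = u.val
  rw [← h]
  exact Nat.mod_eq_of_lt u.2

/-- above the scale `l2 + 1` all leaves have the same cell -/
theorem ObsDet_same {z : ℕ} {l1 l2 l : ℕ} (h12 : l1 ≤ l2) (h : l2 < l) {ξ : P.Lf → ℕ}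
    (hξ : P.RowOK z l1 l2 ξ) {x : P.Lf → Fin (P.N z)} (hx : ∀ r, (cell l1 (x r)).val = ξ r)
    (r r' : P.Lf) : cell l (x r) = cell l (x r') := by
  apply Fin.ext
  have h1 : l1 ≤ l2 + 1 := by omega
  have h2 : l2 + 1 ≤ l := by omega
  have e1 : ∀ r, (cell (l2 + 1) (x r)).val = ξ r / z ^ (P.δ * (l2 + 1 - l1)) :=
    fun r => ObsDet_cell_le h1 (hx r)
  rw [ObsDet_cell_le h2 (e1 r), ObsDet_cell_le h2 (e1 r'), hξ.g4 r r']

open scoped Classical in
/-- the four parts of one term of the colour -/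
theorem ObsDet_term {z : ℕ} [NeZero (P.N z)] {l1 l2 k1 k2 : ℕ} (hl : l1 ≤ l2) (hk : k1 ≤ k2)
    {ξ η : P.Lf → ℕ} (hξ : P.RowOK z l1 l2 ξ) (hη : P.RowOK z k1 k2 η) (ω : P.Sp z)
    (h1 : NoC ω l1 k1 k2 ξ η) (h2 : NoC' ω l1 l2 k1 ξ η)
    (x y : P.Lf → Fin (P.N z)) (hx : ∀ r, (cell l1 (x r)).val = ξ r)
    (hy : ∀ c, (cell k1 (y c)).val = η c) (r0 c0 r c : P.Lf) (l k : Fin P.K) :
    (if P.TT l.val k.val then F ω l k (cell l.val (x r)) (cell k.val (y c)) else 0) =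
      (if P.TT l.val k.val ∧ l1 ≤ l.val ∧ k1 ≤ k.val then
        F ω l k (fc P z (ξ r / z ^ (P.δ * (l.val - l1))))
          (fc P z (η c / z ^ (P.δ * (k.val - k1)))) else 0) +
      (if P.TT l.val k.val ∧ l.val < l1 ∧ k2 < k.val then
        F ω l k (cell l.val (x r)) (cell k.val (y c0)) else 0) +
      (if P.TT l.val k.val ∧ k.val < k1 ∧ l2 < l.val then
        F ω l k (cell l.val (x r0)) (cell k.val (y c)) else 0) +
      (if P.TT l.val k.val ∧ l.val ≤ l1 ∧ k.val ≤ k1 ∧ (l.val < l1 ∨ k.val < k1) then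
        F ω l k (cell l.val (x r)) (cell k.val (y c)) else 0) := by
  by_cases hT : P.TT l.val k.val
  swap
  · simp [hT]
  rw [if_pos hT]
  by_cases a1 : l1 ≤ l.val
  · by_cases b1 : k1 ≤ k.val
    · rw [if_pos ⟨hT, a1, b1⟩, if_neg (by omega), if_neg (by omega), if_neg (by omega),
        ObsDet_fc (ObsDet_cell_le a1 (hx r)), ObsDet_fc (ObsDet_cell_le b1 (hy c))]
      ring
    · by_cases a2 : l2 < l.val
      · rw [if_neg (by omega), if_neg (by omega), if_pos ⟨hT, by omega, a2⟩, if_neg (by omega),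
          ObsDet_same hl a2 hξ hx r r0]
        ring
      · by_cases a3 : l1 < l.val
        · have e := h2 l k hT (by omega) a3 (by omega) (cell l.val (x r)) (cell k.val (y c))
            ⟨r, ObsDet_cell_le a1 (hx r)⟩ ⟨c, ObsDet_cell_ge (by omega) (hy c)⟩
          rw [if_neg (by omega), if_neg (by omega), if_neg (by omega), if_neg (by omega), e]
          ring
        · rw [if_neg (by omega), if_neg (by omega), if_neg (by omega),
            if_pos ⟨hT, by omega, by omega, by omega⟩]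
          ring
  · by_cases b2 : k2 < k.val
    · rw [if_neg (by omega), if_pos ⟨hT, by omega, b2⟩, if_neg (by omega), if_neg (by omega),
        ObsDet_same hk b2 hη hy c c0]
      ring
    · by_cases b3 : k1 < k.val
      · have e := h1 l k hT (by omega) b3 (by omega) (cell l.val (x r)) (cell k.val (y c))
          ⟨r, ObsDet_cell_ge (by omega) (hx r)⟩ ⟨c, ObsDet_cell_le (by omega) (hy c)⟩
        rw [if_neg (by omega), if_neg (by omega), if_neg (by omega), if_neg (by omega), e]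
        ring
      · rw [if_neg (by omega), if_neg (by omega), if_neg (by omega),
          if_pos ⟨hT, by omega, by omega, by omega⟩]
        ring

theorem obs_det {z : ℕ} [NeZero (P.N z)] (hz : 0 < z) {l1 l2 k1 k2 lS kS : ℕ}
    (hR : P.Rect l1 l2 k1 k2 lS kS) {ξ η : P.Lf → ℕ} (hξ : P.RowOK z l1 l2 ξ)
    (hη : P.RowOK z k1 k2 η) (ω : P.Sp z) (h1 : NoC ω l1 k1 k2 ξ η) (h2 : NoC' ω l1 l2 k1 ξ η)
    (h3 : ∀ u v : P.Lf → ZMod 2, P.q ^ 2 ≤ 2 * (univ.filter
      (fun p : P.Lf × P.Lf => EA ω l1 k1 ξ η p.1 p.2 ≠ u p.1 + v p.2)).card)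
    (h4 : ∀ x y : P.Lf → Fin (P.N z), (∀ r, (cell l1 (x r)).val = ξ r) →
      (∀ c, (cell k1 (y c)).val = η c) →
      ∀ S : Finset (P.Lf × P.Lf), P.q ^ 2 ≤ 2 * S.card → ∃ p ∈ S, ¬ Dfl ω l1 k1 x y p.1 p.2) :
    Obs ω l1 k1 ξ η := by
  intro x y hx hy
  by_contra hcon
  push Not at hcon
  have hq0 : 0 < P.q := by have := P.hq; omega
  have hl : l1 ≤ l2 := by have := hR.hl1; have := hR.hl2; omega
  have hk : k1 ≤ k2 := by have := hR.hk1; have := hR.hk2; omega
  classical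
  set o : P.Lf := (0, ⟨0, hq0⟩) with ho
  set t0 : ZMod 2 := col ω (x o) (y o) with ht0
  set f : P.Lf → ZMod 2 := fun r => ∑ l : Fin P.K, ∑ k : Fin P.K,
    if P.TT l.val k.val ∧ l.val < l1 ∧ k2 < k.val then
      F ω l k (cell l.val (x r)) (cell k.val (y o)) else 0 with hf
  set g : P.Lf → ZMod 2 := fun c => ∑ l : Fin P.K, ∑ k : Fin P.K,
    if P.TT l.val k.val ∧ k.val < k1 ∧ l2 < l.val then
      F ω l k (cell l.val (x o)) (cell k.val (y c)) else 0 with hg
  have key : ∀ r c, ¬ Dfl ω l1 k1 x y r c →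
      EA ω l1 k1 ξ η r c = (t0 - f r) + (- g c) := by
    intro r c hD
    have e1 : col ω (x r) (y c) = EA ω l1 k1 ξ η r c + f r + g c +
        ∑ l : Fin P.K, ∑ k : Fin P.K,
          (if P.TT l.val k.val ∧ l.val ≤ l1 ∧ k.val ≤ k1 ∧ (l.val < l1 ∨ k.val < k1) then
            F ω l k (cell l.val (x r)) (cell k.val (y c)) else 0) := by
      unfold col EA
      rw [hf, hg]
      simp only []
      rw [← Finset.sum_add_distrib, ← Finset.sum_add_distrib, ← Finset.sum_add_distrib]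
      apply Finset.sum_congr rfl
      intro l _
      rw [← Finset.sum_add_distrib, ← Finset.sum_add_distrib, ← Finset.sum_add_distrib]
      apply Finset.sum_congr rfl
      intro k _
      exact ObsDet_term hl hk hξ hη ω h1 h2 x y hx hy o o r c l k
    have e2 : (∑ l : Fin P.K, ∑ k : Fin P.K,
          (if P.TT l.val k.val ∧ l.val ≤ l1 ∧ k.val ≤ k1 ∧ (l.val < l1 ∨ k.val < k1) then
            F ω l k (cell l.val (x r)) (cell k.val (y c)) else 0)) = 0 := by
      apply Finset.sum_eq_zero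
      intro l _
      apply Finset.sum_eq_zero
      intro k _
      split_ifs with hc
      · rcases ObsDet_F01 ω l k (cell l.val (x r)) (cell k.val (y c)) with h | h
        · exact h
        · exact absurd ⟨l, k, hc.1, hc.2.1, hc.2.2.1, hc.2.2.2, h⟩ hD
      · rfl
    have e3 : col ω (x r) (y c) = t0 := hcon r c o o
    rw [e2, e3, add_zero] at e1
    rw [e1]
    ring
  obtain ⟨p, hp, hD⟩ := h4 x y hx hy _ (h3 (fun r => t0 - f r) (fun c => - g c))
  rw [Finset.mem_filter] at hp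
  exact hp.2 (key p.1 p.2 hD)

end Par

end Pool.Agent.H65.GD
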