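import Pool.Agent.H65.GD.ObsDet
import Pool.Agent.H65.GD.Cut
import Pool.Agent.H65.GD.Many

/-! A group is obstructed with probability at least `1 / (2 z ^ τ)`, whatever happens outside. -/

namespace Pool.Agent.H65.GD

open Finset Pool.Agent.H46.SR Pool.Agent.H46.TS

namespace Par

variable {P : Par}

/-- a size of `z` which is large enough for the estimates of one group -/
def zD (P : Par) : ℕ := (64 * P.K * P.q) ^ (4 * P.q ^ 2)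

theorem obsP_q_pos (P : Par) : 0 < P.q := by have := P.hq; omega

theorem obsP_zD_pos (P : Par) : 0 < zD P := by
  unfold zD
  exact pow_pos (Nat.mul_pos (Nat.mul_pos (by norm_num) P.K_pos) (obsP_q_pos P)) _

theorem obsP_zD_ge (P : Par) : 32 * P.K ^ 2 * P.q ^ 2 ≤ zD P := by
  unfold zD
  have hK := P.K_pos
  have hq := obsP_q_pos P
  have h1 : 1 ≤ 64 * P.K * P.q := Nat.mul_pos (Nat.mul_pos (by norm_num) hK) hq
  have h2 : 2 ≤ 4 * P.q ^ 2 := by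
    have : 1 ≤ P.q ^ 2 := Nat.one_le_pow _ _ hq
    omega
  calc 32 * P.K ^ 2 * P.q ^ 2 ≤ 4096 * P.K ^ 2 * P.q ^ 2 := by gcongr; norm_num
    _ = (64 * P.K * P.q) ^ 2 := by ring
    _ ≤ _ := Nat.pow_le_pow_right h1 h2

theorem obsP_N_pos {z : ℕ} (hz : 0 < z) : 0 < P.N z := by
  unfold N
  exact pow_pos hz _

/-- probability to hit a set of coordinates -/
theorem obsP_hit {z : ℕ} (hz : 0 < z) (C : Finset (P.Co z)) :
    av (fun ω' : P.Sp z => ind (∃ c ∈ C, (ω' c).val = 0)) ≤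
      (C.card : ℝ) * (1 / (z : ℝ) ^ P.τ) := by
  haveI : Nonempty (Fin (z ^ P.τ)) := ⟨⟨0, pow_pos hz _⟩⟩
  have h1 : ∀ ω' : P.Sp z, ind (∃ c ∈ C, (ω' c).val = 0) ≤ ∑ c ∈ C, ind ((ω' c).val = 0) := by
    intro ω'
    by_cases h : ∃ c ∈ C, (ω' c).val = 0
    · obtain ⟨c, hc, h⟩ := h
      rw [ind_pos ⟨c, hc, h⟩]
      calc (1 : ℝ) = ind ((ω' c).val = 0) := (ind_pos h).symm
        _ ≤ _ := Finset.single_le_sum (f := fun c => ind ((ω' c).val = 0))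
          (fun _ _ => ind_nonneg _) hc
    · rw [ind_neg h]
      exact Finset.sum_nonneg (fun _ _ => ind_nonneg _)
  refine (av_mono h1).trans ?_
  rw [av_sum]
  have h2 : ∀ c ∈ C, av (fun ω' : P.Sp z => ind ((ω' c).val = 0)) ≤ 1 / (z : ℝ) ^ P.τ := by
    intro c _
    rw [av_coord c (fun b : Fin (z ^ P.τ) => ind (b.val = 0)), av_ind_eq (pow_pos hz _),
      Nat.cast_pow]
  calc ∑ c ∈ C, av (fun ω' : P.Sp z => ind ((ω' c).val = 0)) ≤ ∑ _c ∈ C, 1 / (z : ℝ) ^ P.τ :=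
        Finset.sum_le_sum h2
    _ = _ := by rw [Finset.sum_const, nsmul_eq_mul]

theorem obsP_count {z : ℕ} (hz : zD P ≤ z) (C : Finset (P.Co z))
    (hC : C.card ≤ P.K * P.K * ((2 * P.q) * (2 * P.q)) * z ^ (P.δ * (P.Mm - 1))) :
    (C.card : ℝ) * (1 / (z : ℝ) ^ P.τ) ≤ 1 / 8 := by
  have hz0 : 0 < z := lt_of_lt_of_le (obsP_zD_pos P) hz
  have hM := P.Mm_pos
  have hτ : P.τ = P.δ * (P.Mm - 1) + P.δ := by
    rw [P.hτ]
    show P.δ * P.Mm = _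
    obtain ⟨M, hM'⟩ : ∃ M, P.Mm = M + 1 := ⟨P.Mm - 1, by omega⟩
    rw [hM', Nat.add_sub_cancel]
    ring
  have h1 : 8 * (P.K * P.K * ((2 * P.q) * (2 * P.q)) * z ^ (P.δ * (P.Mm - 1))) ≤ z ^ P.τ := by
    rw [hτ, pow_add]
    have h2 : z ≤ z ^ P.δ := Nat.le_self_pow (by have := P.hδ; omega) z
    calc 8 * (P.K * P.K * ((2 * P.q) * (2 * P.q)) * z ^ (P.δ * (P.Mm - 1)))
        = z ^ (P.δ * (P.Mm - 1)) * (32 * P.K ^ 2 * P.q ^ 2) := by ring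
      _ ≤ z ^ (P.δ * (P.Mm - 1)) * z ^ P.δ :=
        Nat.mul_le_mul_left _ ((obsP_zD_ge P).trans (hz.trans h2))
  have h3 : 8 * C.card ≤ z ^ P.τ := (Nat.mul_le_mul_left 8 hC).trans h1
  have h4 : (8 : ℝ) * (C.card : ℝ) ≤ (z : ℝ) ^ P.τ := by exact_mod_cast h3
  have h5 : (0 : ℝ) < (z : ℝ) ^ P.τ := by positivity
  rw [mul_one_div, div_le_div_iff₀ h5 (by norm_num)]
  linarith

theorem obsP_F_ne {z : ℕ} {ω : P.Sp z} {l k : Fin P.K} {u v : Fin (P.N z)} (h : F ω l k u v ≠ 0) :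
    (ω ((l, k), (u, v))).val = 0 := by
  by_contra h'
  apply h
  unfold F
  rw [if_neg h']

theorem obsP_F_one {z : ℕ} {ω : P.Sp z} {l k : Fin P.K} {u v : Fin (P.N z)} :
    F ω l k u v = 1 ↔ (ω ((l, k), (u, v))).val = 0 := by
  unfold F
  by_cases h : (ω ((l, k), (u, v))).val = 0
  · simp [h]
  · simp [h]

theorem obsP_div {z : ℕ} {a b e u w : ℕ} (hab : a ≤ b) (hbe : b ≤ e)
    (h : u / z ^ (P.δ * (b - a)) = w) :
    u / z ^ (P.δ * (e - a)) = w / z ^ (P.δ * (e - b)) := by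
  rw [← h, Nat.div_div_eq_div_mul, ← pow_add, ← Nat.mul_add]
  congr 3
  omega

/-- probability of `NoC` -/
theorem av_noC {z : ℕ} (hz : zD P ≤ z) {l1 l2 k1 k2 lS kS : ℕ} (hR : P.Rect l1 l2 k1 k2 lS kS)
    {ξ η : P.Lf → ℕ} (hξ : P.RowOK z l1 l2 ξ) (hη : P.RowOK z k1 k2 η) (ω : P.Sp z) :
    av (fun ω' : P.Sp z => ind (¬ NoC (mix (P.V z l1 l2 k1 k2 lS kS
      (P.pairs z l1 l2 k1 k2 ξ η)) ω ω') l1 k1 k2 ξ η)) ≤ 1 / 8 := by
  have hz0 : 0 < z := lt_of_lt_of_le (obsP_zD_pos P) hz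
  have hN : 0 < P.N z := obsP_N_pos hz0
  set g : ((Fin P.K × Fin P.K) × (P.Lf × P.Lf)) × Fin (z ^ (P.δ * (P.Mm - 1))) → P.Co z :=
    fun a => (a.1.1, (⟨(ξ a.1.2.1 * z ^ (P.δ * (l1 - a.1.1.1.val)) + a.2.val) % P.N z,
      Nat.mod_lt _ hN⟩, ⟨(η a.1.2.2 / z ^ (P.δ * (a.1.1.2.val - k1))) % P.N z,
      Nat.mod_lt _ hN⟩)) with hg
  set C : Finset (P.Co z) := univ.image g with hC
  have hcard : C.card ≤ P.K * P.K * ((2 * P.q) * (2 * P.q)) * z ^ (P.δ * (P.Mm - 1)) := by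
    refine Finset.card_image_le.trans (le_of_eq ?_)
    simp only [Finset.card_univ, Fintype.card_prod, Fintype.card_fin]
  refine le_trans (av_mono (fun ω' => ind_mono ?_)) ((obsP_hit hz0 C).trans (obsP_count hz C hcard))
  intro h
  unfold NoC at h
  push Not at h
  obtain ⟨l, k, hT, hl, hk, hk2, u, v, ⟨r, hr⟩, ⟨c, hc⟩, hF⟩ := h
  have hval := obsP_F_ne hF
  have hlS := hR.hl1
  have hlS2 := hR.hl2
  have hmem : ((l, k), (u, v)) ∈ P.V z l1 l2 k1 k2 lS kS (P.pairs z l1 l2 k1 k2 ξ η) := by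
    refine ⟨by show l.val ≤ l2; omega, hk2, Or.inr (Or.inl hl), r, c, ?_⟩
    apply Prod.ext
    · exact obsP_div (P := P) hl.le (by omega) hr
    · show v.val / z ^ (P.δ * (k2 - k.val)) = η c / z ^ (P.δ * (k2 - k1))
      exact (obsP_div (P := P) hk.le hk2 hc.symm).symm
  rw [mix_mem hmem] at hval
  refine ⟨((l, k), (u, v)), ?_, hval⟩
  rw [hC, Finset.mem_image]
  have hMl : l1 - l.val ≤ P.Mm - 1 := by
    have := hR.T2 l.val k.val hT hk hk2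
    omega
  have ht : u.val % z ^ (P.δ * (l1 - l.val)) < z ^ (P.δ * (P.Mm - 1)) :=
    lt_of_lt_of_le (Nat.mod_lt _ (pow_pos hz0 _))
      (Nat.pow_le_pow_right hz0 (Nat.mul_le_mul_left _ hMl))
  refine ⟨(((l, k), (r, c)), ⟨u.val % z ^ (P.δ * (l1 - l.val)), ht⟩), mem_univ _, ?_⟩
  rw [hg]
  apply Prod.ext
  · rfl
  · apply Prod.ext
    · apply Fin.ext
      show (ξ r * z ^ (P.δ * (l1 - l.val)) + u.val % z ^ (P.δ * (l1 - l.val))) % P.N z = u.val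
      rw [← hr, Nat.div_add_mod']
      exact Nat.mod_eq_of_lt u.2
    · apply Fin.ext
      show (η c / z ^ (P.δ * (k.val - k1))) % P.N z = v.val
      rw [← hc]
      exact Nat.mod_eq_of_lt v.2

theorem av_noC' {z : ℕ} (hz : zD P ≤ z) {l1 l2 k1 k2 lS kS : ℕ} (hR : P.Rect l1 l2 k1 k2 lS kS)
    {ξ η : P.Lf → ℕ} (hξ : P.RowOK z l1 l2 ξ) (hη : P.RowOK z k1 k2 η) (ω : P.Sp z) :
    av (fun ω' : P.Sp z => ind (¬ NoC' (mix (P.V z l1 l2 k1 k2 lS kS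
      (P.pairs z l1 l2 k1 k2 ξ η)) ω ω') l1 l2 k1 ξ η)) ≤ 1 / 8 := by
  have hz0 : 0 < z := lt_of_lt_of_le (obsP_zD_pos P) hz
  have hN : 0 < P.N z := obsP_N_pos hz0
  set g : ((Fin P.K × Fin P.K) × (P.Lf × P.Lf)) × Fin (z ^ (P.δ * (P.Mm - 1))) → P.Co z :=
    fun a => (a.1.1, (⟨(ξ a.1.2.1 / z ^ (P.δ * (a.1.1.1.val - l1))) % P.N z,
      Nat.mod_lt _ hN⟩, ⟨(η a.1.2.2 * z ^ (P.δ * (k1 - a.1.1.2.val)) + a.2.val) % P.N z,
      Nat.mod_lt _ hN⟩)) with hg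
  set C : Finset (P.Co z) := univ.image g with hC
  have hcard : C.card ≤ P.K * P.K * ((2 * P.q) * (2 * P.q)) * z ^ (P.δ * (P.Mm - 1)) := by
    refine Finset.card_image_le.trans (le_of_eq ?_)
    simp only [Finset.card_univ, Fintype.card_prod, Fintype.card_fin]
  refine le_trans (av_mono (fun ω' => ind_mono ?_)) ((obsP_hit hz0 C).trans (obsP_count hz C hcard))
  intro h
  unfold NoC' at h
  push Not at h
  obtain ⟨l, k, hT, hk, hl, hl2, u, v, ⟨r, hr⟩, ⟨c, hc⟩, hF⟩ := h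
  have hval := obsP_F_ne hF
  have hkS := hR.hk1
  have hkS2 := hR.hk2
  have hmem : ((l, k), (u, v)) ∈ P.V z l1 l2 k1 k2 lS kS (P.pairs z l1 l2 k1 k2 ξ η) := by
    refine ⟨hl2, by show k.val ≤ k2; omega, Or.inr (Or.inr hk), r, c, ?_⟩
    apply Prod.ext
    · show u.val / z ^ (P.δ * (l2 - l.val)) = ξ r / z ^ (P.δ * (l2 - l1))
      exact (obsP_div (P := P) hl.le hl2 hr.symm).symm
    · exact obsP_div (P := P) hk.le (by omega) hc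
  rw [mix_mem hmem] at hval
  refine ⟨((l, k), (u, v)), ?_, hval⟩
  rw [hC, Finset.mem_image]
  have hMk : k1 - k.val ≤ P.Mm - 1 := by
    have := hR.T3 l.val k.val hT hl hl2
    omega
  have ht : v.val % z ^ (P.δ * (k1 - k.val)) < z ^ (P.δ * (P.Mm - 1)) :=
    lt_of_lt_of_le (Nat.mod_lt _ (pow_pos hz0 _))
      (Nat.pow_le_pow_right hz0 (Nat.mul_le_mul_left _ hMk))
  refine ⟨(((l, k), (r, c)), ⟨v.val % z ^ (P.δ * (k1 - k.val)), ht⟩), mem_univ _, ?_⟩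
  rw [hg]
  apply Prod.ext
  · rfl
  · apply Prod.ext
    · apply Fin.ext
      show (ξ r / z ^ (P.δ * (l.val - l1))) % P.N z = u.val
      rw [← hr]
      exact Nat.mod_eq_of_lt u.2
    · apply Fin.ext
      show (η c * z ^ (P.δ * (k1 - k.val)) + v.val % z ^ (P.δ * (k1 - k.val))) % P.N z = v.val
      rw [← hc, Nat.div_add_mod']
      exact Nat.mod_eq_of_lt v.2

/-- the group can be repaired by fine flips -/
def Rep {z : ℕ} (ω : P.Sp z) (l1 k1 : ℕ) (ξ η : P.Lf → ℕ) : Prop :=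
  ∃ x y : P.Lf → Fin (P.N z), (∀ r, (cell l1 (x r)).val = ξ r) ∧
    (∀ c, (cell k1 (y c)).val = η c) ∧
    ∃ S : Finset (P.Lf × P.Lf), P.q ^ 2 ≤ 2 * S.card ∧ ∀ p ∈ S, Dfl ω l1 k1 x y p.1 p.2

theorem obsP_cell {z : ℕ} {a b : ℕ} (hab : a ≤ b) (x : Fin (P.N z)) :
    (cell b x).val = (cell a x).val / z ^ (P.δ * (b - a)) := by
  show x.val / z ^ (P.δ * b) = x.val / z ^ (P.δ * a) / z ^ (P.δ * (b - a))
  rw [Nat.div_div_eq_div_mul, ← pow_add, ← Nat.mul_add]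
  congr 3
  omega

/-- the coordinates of the fine flips at a pair of leaves -/
def repC {z : ℕ} (l1 k1 : ℕ) (x y : P.Lf → Fin (P.N z)) (p : P.Lf × P.Lf) : Finset (P.Co z) :=
  (univ.filter (fun lk : Fin P.K × Fin P.K => lk.1.val ≤ l1 ∧ lk.2.val ≤ k1 ∧
    (lk.1.val < l1 ∨ lk.2.val < k1))).image
    (fun lk => (lk, (cell lk.1.val (x p.1), cell lk.2.val (y p.2))))

theorem repC_card {z : ℕ} (l1 k1 : ℕ) (x y : P.Lf → Fin (P.N z)) (p : P.Lf × P.Lf) :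
    (repC l1 k1 x y p).card ≤ P.K * P.K := by
  unfold repC
  refine Finset.card_image_le.trans ((Finset.card_filter_le _ _).trans (le_of_eq ?_))
  simp only [Finset.card_univ, Fintype.card_prod, Fintype.card_fin]

theorem repC_disj {z : ℕ} {l1 l2 k1 k2 : ℕ} {ξ η : P.Lf → ℕ} (hξ : P.RowOK z l1 l2 ξ)
    (hη : P.RowOK z k1 k2 η) {x y : P.Lf → Fin (P.N z)} (hx : ∀ r, (cell l1 (x r)).val = ξ r)
    (hy : ∀ c, (cell k1 (y c)).val = η c) (p p' : P.Lf × P.Lf) (hp : p ≠ p') :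
    Disjoint (repC l1 k1 x y p) (repC l1 k1 x y p') := by
  rw [Finset.disjoint_left]
  intro a ha ha'
  unfold repC at ha ha'
  rw [Finset.mem_image] at ha ha'
  obtain ⟨lk, hlk, rfl⟩ := ha
  obtain ⟨lk', hlk', h'⟩ := ha'
  rw [Finset.mem_filter] at hlk
  have h1 : lk' = lk := congrArg Prod.fst h'
  subst h1
  have h2 : cell lk'.1.val (x p'.1) = cell lk'.1.val (x p.1) :=
    congrArg (fun a : P.Co z => a.2.1) h'
  have h3 : cell lk'.2.val (y p'.2) = cell lk'.2.val (y p.2) :=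
    congrArg (fun a : P.Co z => a.2.2) h'
  apply hp
  apply Prod.ext
  · apply hξ.inj
    rw [← hx, ← hx, obsP_cell hlk.2.1 (x p.1), obsP_cell hlk.2.1 (x p'.1), h2]
  · apply hη.inj
    rw [← hy, ← hy, obsP_cell hlk.2.2.1 (y p.2), obsP_cell hlk.2.2.1 (y p'.2), h3]

theorem repC_V {z : ℕ} {l1 l2 k1 k2 lS kS : ℕ} (hR : P.Rect l1 l2 k1 k2 lS kS)
    {ξ η : P.Lf → ℕ} {x y : P.Lf → Fin (P.N z)} (hx : ∀ r, (cell l1 (x r)).val = ξ r)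
    (hy : ∀ c, (cell k1 (y c)).val = η c) {l k : Fin P.K} (hl : l.val ≤ l1) (hk : k.val ≤ k1)
    (h : l.val < l1 ∨ k.val < k1) (p : P.Lf × P.Lf) :
    ((l, k), (cell l.val (x p.1), cell k.val (y p.2))) ∈
      P.V z l1 l2 k1 k2 lS kS (P.pairs z l1 l2 k1 k2 ξ η) := by
  have h1 := hR.hl1
  have h2 := hR.hl2
  have h3 := hR.hk1
  have h4 := hR.hk2
  refine ⟨by show l.val ≤ l2; omega, by show k.val ≤ k2; omega, Or.inr h, p.1, p.2, ?_⟩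
  apply Prod.ext
  · show (cell l.val (x p.1)).val / z ^ (P.δ * (l2 - l.val)) = ξ p.1 / z ^ (P.δ * (l2 - l1))
    rw [← obsP_cell (by omega) (x p.1), ← hx, ← obsP_cell (by omega) (x p.1)]
  · show (cell k.val (y p.2)).val / z ^ (P.δ * (k2 - k.val)) = η p.2 / z ^ (P.δ * (k2 - k1))
    rw [← obsP_cell (by omega) (y p.2), ← hy, ← obsP_cell (by omega) (y p.2)]

/-- one choice of the positions -/
theorem obsP_rep1 {z : ℕ} (hz0 : 0 < z) {l1 l2 k1 k2 lS kS : ℕ} (hR : P.Rect l1 l2 k1 k2 lS kS)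
    {ξ η : P.Lf → ℕ} (hξ : P.RowOK z l1 l2 ξ) (hη : P.RowOK z k1 k2 η) (ω : P.Sp z)
    (x y : P.Lf → Fin (P.N z)) :
    av (fun ω' : P.Sp z => ind ((∀ r, (cell l1 (x r)).val = ξ r) ∧
      (∀ c, (cell k1 (y c)).val = η c) ∧ ∃ S : Finset (P.Lf × P.Lf), P.q ^ 2 ≤ 2 * S.card ∧
        ∀ p ∈ S, Dfl (mix (P.V z l1 l2 k1 k2 lS kS (P.pairs z l1 l2 k1 k2 ξ η)) ω ω')
          l1 k1 x y p.1 p.2)) ≤
      2 ^ (4 * P.q ^ 2) * (((P.K * P.K : ℕ) : ℝ) * (1 / (z : ℝ) ^ P.τ)) ^ ((P.q ^ 2 + 1) / 2) := by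
  by_cases hxy : (∀ r, (cell l1 (x r)).val = ξ r) ∧ (∀ c, (cell k1 (y c)).val = η c)
  · obtain ⟨hx, hy⟩ := hxy
    haveI : Nonempty (Fin (z ^ P.τ)) := ⟨⟨0, pow_pos hz0 _⟩⟩
    have hm := many (ι := P.Co z) (B := Fin (z ^ P.τ)) (S := P.Lf × P.Lf)
      (fun b => b.val = 0) (p := 1 / (z : ℝ) ^ P.τ)
      (by rw [av_ind_eq (pow_pos hz0 _), Nat.cast_pow])
      (repC l1 k1 x y) (repC_disj hξ hη hx hy) (A := P.K * P.K)
      (repC_card l1 k1 x y) ((P.q ^ 2 + 1) / 2)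
    have hcard : Fintype.card (P.Lf × P.Lf) = 4 * P.q ^ 2 := by
      simp only [Fintype.card_prod, Fintype.card_fin]
      ring
    rw [hcard] at hm
    refine le_trans (av_mono (fun ω' => ind_mono ?_)) hm
    rintro ⟨_, _, S, hS, hD⟩
    refine ⟨S, by omega, ?_⟩
    intro p hp
    obtain ⟨l, k, _, hl, hk, hlk, hF⟩ := hD p hp
    rw [obsP_F_one, mix_mem (repC_V hR hx hy hl hk hlk p)] at hF
    refine ⟨((l, k), (cell l.val (x p.1), cell k.val (y p.2))), ?_, hF⟩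
    unfold repC
    rw [Finset.mem_image]
    exact ⟨(l, k), Finset.mem_filter.mpr ⟨mem_univ _, hl, hk, hlk⟩, rfl⟩
  · have h0 : ∀ ω' : P.Sp z, ind ((∀ r, (cell l1 (x r)).val = ξ r) ∧
      (∀ c, (cell k1 (y c)).val = η c) ∧ ∃ S : Finset (P.Lf × P.Lf), P.q ^ 2 ≤ 2 * S.card ∧
        ∀ p ∈ S, Dfl (mix (P.V z l1 l2 k1 k2 lS kS (P.pairs z l1 l2 k1 k2 ξ η)) ω ω')
          l1 k1 x y p.1 p.2) ≤ 0 := by
      intro ω'
      rw [ind_neg]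
      rintro ⟨h1, h2, _⟩
      exact hxy ⟨h1, h2⟩
    haveI : Nonempty (Fin (z ^ P.τ)) := ⟨⟨0, pow_pos hz0 _⟩⟩
    refine (av_mono h0).trans ?_
    rw [av_const]
    positivity

theorem obsP_final {z : ℕ} (hz : zD P ≤ z) :
    ((P.N z : ℝ) ^ (2 * P.q) * (P.N z : ℝ) ^ (2 * P.q)) *
      (2 ^ (4 * P.q ^ 2) * (((P.K * P.K : ℕ) : ℝ) * (1 / (z : ℝ) ^ P.τ)) ^ ((P.q ^ 2 + 1) / 2)) ≤
      1 / 8 := by
  have hz0 : 0 < z := lt_of_lt_of_le (obsP_zD_pos P) hz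
  have hq := P.hq
  have hq0 := obsP_q_pos P
  have hK := P.K_pos
  set T := (P.q ^ 2 + 1) / 2 with hT
  have hT1 : 4 * P.q * P.L + 1 ≤ T := by
    have h1 : P.q * (8 * P.L + 1) ≤ P.q * P.q := Nat.mul_le_mul_left _ hq
    have h2 : P.q * (8 * P.L + 1) = 2 * (4 * P.q * P.L) + P.q := by ring
    have h3 : P.q ^ 2 = P.q * P.q := by ring
    omega
  have hT2 : T ≤ P.q ^ 2 := by
    have : 1 ≤ P.q ^ 2 := Nat.one_le_pow _ _ hq0
    omega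
  have hN : (P.N z : ℝ) ^ (2 * P.q) * (P.N z : ℝ) ^ (2 * P.q) = (z : ℝ) ^ (P.τ * (4 * P.q * P.L)) := by
    unfold N
    rw [Nat.cast_pow, ← pow_mul, ← pow_add]
    congr 1
    rw [P.hτ]
    unfold K
    ring
  have hnat : 8 * (z ^ (P.τ * (4 * P.q * P.L)) * (2 ^ (4 * P.q ^ 2) * (P.K * P.K) ^ T)) ≤
      z ^ (P.τ * T) := by
    have h1 : 8 * (2 ^ (4 * P.q ^ 2) * (P.K * P.K) ^ T) ≤ zD P := by
      unfold zD
      have h2 : (P.K * P.K) ^ T ≤ P.K ^ (4 * P.q ^ 2) := by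
        rw [← pow_two, ← pow_mul]
        exact Nat.pow_le_pow_right hK (by omega)
      have h3 : 8 * 2 ^ (4 * P.q ^ 2) ≤ 64 ^ (4 * P.q ^ 2) := by
        have h4 : (1 : ℕ) ≤ 4 * P.q ^ 2 := by
          have : 1 ≤ P.q ^ 2 := Nat.one_le_pow _ _ hq0
          omega
        calc 8 * 2 ^ (4 * P.q ^ 2) ≤ 32 ^ (4 * P.q ^ 2) * 2 ^ (4 * P.q ^ 2) :=
              Nat.mul_le_mul_right _ (le_trans (by norm_num) (Nat.pow_le_pow_right (n := 32) (by norm_num) h4))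
          _ = 64 ^ (4 * P.q ^ 2) := by rw [← Nat.mul_pow]
      have h5 : 1 ≤ P.q ^ (4 * P.q ^ 2) := Nat.one_le_pow _ _ hq0
      calc 8 * (2 ^ (4 * P.q ^ 2) * (P.K * P.K) ^ T)
          = (8 * 2 ^ (4 * P.q ^ 2)) * (P.K * P.K) ^ T * 1 := by ring
        _ ≤ 64 ^ (4 * P.q ^ 2) * P.K ^ (4 * P.q ^ 2) * P.q ^ (4 * P.q ^ 2) :=
          Nat.mul_le_mul (Nat.mul_le_mul h3 h2) h5
        _ = _ := by rw [← Nat.mul_pow, ← Nat.mul_pow]
    have h6 : z ≤ z ^ P.τ := Nat.le_self_pow (by have := P.τ_pos; omega) z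
    calc 8 * (z ^ (P.τ * (4 * P.q * P.L)) * (2 ^ (4 * P.q ^ 2) * (P.K * P.K) ^ T))
        = z ^ (P.τ * (4 * P.q * P.L)) * (8 * (2 ^ (4 * P.q ^ 2) * (P.K * P.K) ^ T)) := by ring
      _ ≤ z ^ (P.τ * (4 * P.q * P.L)) * z ^ P.τ := Nat.mul_le_mul_left _ (h1.trans (hz.trans h6))
      _ = z ^ (P.τ * (4 * P.q * P.L + 1)) := by rw [← pow_add]; congr 1
      _ ≤ z ^ (P.τ * T) := Nat.pow_le_pow_right hz0 (Nat.mul_le_mul_left _ hT1)
  have hreal : (8 : ℝ) * ((z : ℝ) ^ (P.τ * (4 * P.q * P.L)) *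
      (2 ^ (4 * P.q ^ 2) * ((P.K * P.K : ℕ) : ℝ) ^ T)) ≤ (z : ℝ) ^ (P.τ * T) := by
    exact_mod_cast hnat
  have hzT : (0 : ℝ) < (z : ℝ) ^ (P.τ * T) := by positivity
  rw [hN, mul_pow, one_div, inv_pow, ← pow_mul]
  rw [← mul_assoc, ← mul_assoc, ← div_eq_mul_inv, div_le_div_iff₀ hzT (by norm_num)]
  calc (z : ℝ) ^ (P.τ * (4 * P.q * P.L)) * 2 ^ (4 * P.q ^ 2) * ((P.K * P.K : ℕ) : ℝ) ^ T * 8
      = 8 * ((z : ℝ) ^ (P.τ * (4 * P.q * P.L)) *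
      (2 ^ (4 * P.q ^ 2) * ((P.K * P.K : ℕ) : ℝ) ^ T)) := by ring
    _ ≤ _ := hreal
    _ = 1 * (z : ℝ) ^ (P.τ * T) := by ring

theorem av_rep {z : ℕ} (hz : zD P ≤ z) {l1 l2 k1 k2 lS kS : ℕ} (hR : P.Rect l1 l2 k1 k2 lS kS)
    {ξ η : P.Lf → ℕ} (hξ : P.RowOK z l1 l2 ξ) (hη : P.RowOK z k1 k2 η) (ω : P.Sp z) :
    av (fun ω' : P.Sp z => ind (Rep (mix (P.V z l1 l2 k1 k2 lS kS
      (P.pairs z l1 l2 k1 k2 ξ η)) ω ω') l1 k1 ξ η)) ≤ 1 / 8 := by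
  have hz0 : 0 < z := lt_of_lt_of_le (obsP_zD_pos P) hz
  have h1 : ∀ ω' : P.Sp z, ind (Rep (mix (P.V z l1 l2 k1 k2 lS kS
      (P.pairs z l1 l2 k1 k2 ξ η)) ω ω') l1 k1 ξ η) ≤
      ∑ xy : (P.Lf → Fin (P.N z)) × (P.Lf → Fin (P.N z)),
        ind ((∀ r, (cell l1 (xy.1 r)).val = ξ r) ∧
      (∀ c, (cell k1 (xy.2 c)).val = η c) ∧ ∃ S : Finset (P.Lf × P.Lf), P.q ^ 2 ≤ 2 * S.card ∧
        ∀ p ∈ S, Dfl (mix (P.V z l1 l2 k1 k2 lS kS (P.pairs z l1 l2 k1 k2 ξ η)) ω ω')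
          l1 k1 xy.1 xy.2 p.1 p.2) := by
    intro ω'
    apply ind_le_sum
    rintro ⟨x, y, h⟩
    exact ⟨(x, y), h⟩
  refine (av_mono h1).trans ?_
  rw [av_sum]
  refine (Finset.sum_le_sum (fun xy _ => obsP_rep1 hz0 hR hξ hη ω xy.1 xy.2)).trans ?_
  rw [Finset.sum_const, nsmul_eq_mul, Finset.card_univ]
  have hc : ((Fintype.card ((P.Lf → Fin (P.N z)) × (P.Lf → Fin (P.N z))) : ℕ) : ℝ) =
      (P.N z : ℝ) ^ (2 * P.q) * (P.N z : ℝ) ^ (2 * P.q) := by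
    simp only [Fintype.card_prod, Fintype.card_fun, Fintype.card_fin]
    push_cast
    rfl
  rw [hc]
  exact obsP_final hz

end Par

end Pool.Agent.H65.GD
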