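import Pool.Agent.H65.GD.ObsP

/-! A group is obstructed with probability at least `1 / (2 z ^ τ)`, whatever happens outside. -/

namespace Pool.Agent.H65.GD

open Finset Pool.Agent.H46.SR Pool.Agent.H46.TS

namespace Par

variable {P : Par}

theorem obsQ_one_lt {z : ℕ} (hz : zD P ≤ z) : 2 ≤ z := by
  refine le_trans ?_ hz
  unfold zD
  have h1 : 1 ≤ P.K := P.K_pos
  have h2 : 1 ≤ P.q := by have := P.hq; omega
  have h3 : 2 ≤ 64 * P.K * P.q := by nlinarith [Nat.mul_le_mul h1 h2]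
  have h4 : 4 * P.q ^ 2 ≠ 0 := by positivity
  calc 2 ≤ 64 * P.K * P.q := h3
    _ ≤ (64 * P.K * P.q) ^ (4 * P.q ^ 2) := Nat.le_self_pow h4 _

/-- coarser cells of equal cells are equal -/
theorem obsQ_div {z a b : ℕ} (hab : a ≤ b) {x y : ℕ} (h : x / z ^ a = y / z ^ a) :
    x / z ^ b = y / z ^ b := by
  obtain ⟨c, rfl⟩ := Nat.exists_eq_add_of_le hab
  rw [pow_add, ← Nat.div_div_eq_div_mul, ← Nat.div_div_eq_div_mul, h]

theorem obsQ_fc {z : ℕ} [NeZero (P.N z)] {u v : ℕ} (hu : u < P.N z) (hv : v < P.N z) :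
    fc P z u = fc P z v ↔ u = v := by
  unfold fc
  rw [Fin.mk.injEq, Nat.mod_eq_of_lt hu, Nat.mod_eq_of_lt hv]

/-- the class of a leaf is seen by its cell of scale `lS` -/
theorem obsQ_class {z : ℕ} [NeZero (P.N z)] {l1 l2 lS : ℕ} (h1 : l1 < lS) (h2 : lS ≤ l2)
    {ξ : P.Lf → ℕ} (hξ : P.RowOK z l1 l2 ξ) (hξN : ∀ r, ξ r < P.N z) (i0 : Fin P.q) (r : P.Lf) :
    fc P z (ξ r / z ^ (P.δ * (lS - l1))) = fc P z (ξ (0, i0) / z ^ (P.δ * (lS - l1))) ↔
      r.1 = 0 := by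
  rw [obsQ_fc (lt_of_le_of_lt (Nat.div_le_self _ _) (hξN _))
    (lt_of_le_of_lt (Nat.div_le_self _ _) (hξN _))]
  obtain ⟨a, i⟩ := r
  constructor
  · intro h
    by_contra hne
    have ha : a = 1 := by
      simp only at hne
      omega
    subst ha
    have h3 := obsQ_div (Nat.mul_le_mul_left P.δ (Nat.sub_le_sub_right h2 l1)) h
    exact hξ.g3 i0 i h3.symm
  · intro h
    simp only at h
    subst h
    have h3 := hξ.g2 0 i i0
    have h4 : P.δ ≤ P.δ * (lS - l1) := Nat.le_mul_of_pos_right _ (by omega)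
    exact obsQ_div h4 h3

open scoped Classical in
/-- the part of `EA` away from the coordinate `e0` -/
noncomputable def obsQE {z : ℕ} [NeZero (P.N z)] (e0 : P.Co z) (ω : P.Sp z) (l1 k1 : ℕ)
    (ξ η : P.Lf → ℕ) (r c : P.Lf) : ZMod 2 :=
  ∑ l : Fin P.K, ∑ k : Fin P.K,
    if P.TT l.val k.val ∧ l1 ≤ l.val ∧ k1 ≤ k.val then
      (if (((l, k), (fc P z (ξ r / z ^ (P.δ * (l.val - l1))),
          fc P z (η c / z ^ (P.δ * (k.val - k1))))) : P.Co z) = e0 then 0 else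
        F ω l k (fc P z (ξ r / z ^ (P.δ * (l.val - l1))))
          (fc P z (η c / z ^ (P.δ * (k.val - k1)))))
    else 0

theorem obsQ_F {z : ℕ} {W : Set (P.Co z)} {e0 : P.Co z} (he : e0 ∈ W) (ω ω1 ω2 : P.Sp z)
    (l k : Fin P.K) (u v : Fin (P.N z)) :
    F (mix W ω (mix {e0} ω1 ω2)) l k u v =
      if ((l, k), (u, v)) = e0 then (if (ω2 e0).val = 0 then 1 else 0)
      else F (mix W ω ω1) l k u v := by
  by_cases h : ((l, k), (u, v)) = e0
  · rw [if_pos h]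
    unfold F
    rw [h, mix_mem he, mix_mem (Set.mem_singleton e0)]
  · rw [if_neg h]
    unfold F
    by_cases hW : ((l, k), (u, v)) ∈ W
    · rw [mix_mem hW, mix_mem hW, mix_not_mem (by simpa using h)]
    · rw [mix_not_mem hW, mix_not_mem hW]

theorem obsQ_EA {z : ℕ} [NeZero (P.N z)] {l1 l2 k1 k2 lS kS : ℕ}
    (hR : P.Rect l1 l2 k1 k2 lS kS)
    {ξ η : P.Lf → ℕ} (hξ : P.RowOK z l1 l2 ξ) (hη : P.RowOK z k1 k2 η)
    (hξN : ∀ r, ξ r < P.N z) (hηN : ∀ c, η c < P.N z) (i0 : Fin P.q)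
    {W : Set (P.Co z)} (hlS : lS < P.K) (hkS : kS < P.K) {e0 : P.Co z}
    (he0 : e0 = ((⟨lS, hlS⟩, ⟨kS, hkS⟩), (fc P z (ξ (0, i0) / z ^ (P.δ * (lS - l1))),
      fc P z (η (0, i0) / z ^ (P.δ * (kS - k1)))))) (he : e0 ∈ W)
    (ω ω1 ω2 : P.Sp z) (r c : P.Lf) :
    EA (mix W ω (mix {e0} ω1 ω2)) l1 k1 ξ η r c =
      obsQE e0 (mix W ω ω1) l1 k1 ξ η r c +
        (if (ω2 e0).val = 0 then (if r.1 = 0 ∧ c.1 = 0 then 1 else 0) else 0) := by
  classical
  have h1 : ∀ l k : Fin P.K,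
      (if P.TT l.val k.val ∧ l1 ≤ l.val ∧ k1 ≤ k.val then
        F (mix W ω (mix {e0} ω1 ω2)) l k (fc P z (ξ r / z ^ (P.δ * (l.val - l1))))
          (fc P z (η c / z ^ (P.δ * (k.val - k1)))) else 0) =
      (if P.TT l.val k.val ∧ l1 ≤ l.val ∧ k1 ≤ k.val then
        (if (((l, k), (fc P z (ξ r / z ^ (P.δ * (l.val - l1))),
          fc P z (η c / z ^ (P.δ * (k.val - k1))))) : P.Co z) = e0 then 0 else
        F (mix W ω ω1) l k (fc P z (ξ r / z ^ (P.δ * (l.val - l1))))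
          (fc P z (η c / z ^ (P.δ * (k.val - k1))))) else 0) +
      (if l = ⟨lS, hlS⟩ then (if k = ⟨kS, hkS⟩ then
        (if (ω2 e0).val = 0 then (if r.1 = 0 ∧ c.1 = 0 then 1 else 0) else 0) else 0) else 0) := by
    intro l k
    rw [obsQ_F he]
    by_cases hl : l = ⟨lS, hlS⟩
    · by_cases hk : k = ⟨kS, hkS⟩
      · subst hl
        subst hk
        have hcond : P.TT lS kS ∧ l1 ≤ lS ∧ k1 ≤ kS := ⟨hR.hS, hR.hl1.le, hR.hk1.le⟩
        simp only [if_pos hcond, if_true]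
        have hiff : ((((⟨lS, hlS⟩ : Fin P.K), (⟨kS, hkS⟩ : Fin P.K)),
            (fc P z (ξ r / z ^ (P.δ * (lS - l1))),
            fc P z (η c / z ^ (P.δ * (kS - k1))))) : P.Co z) = e0 ↔ r.1 = 0 ∧ c.1 = 0 := by
          rw [he0]
          simp only [Prod.mk.injEq, true_and]
          rw [obsQ_class hR.hl1 hR.hl2 hξ hξN i0 r, obsQ_class hR.hk1 hR.hk2 hη hηN i0 c]
        by_cases hrc : r.1 = 0 ∧ c.1 = 0
        · simp only [if_pos (hiff.mpr hrc), if_pos hrc, zero_add]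
        · simp only [if_neg (fun h => hrc (hiff.mp h)), if_neg hrc, ite_self, add_zero]
      · have hne : ∀ p : Fin (P.N z) × Fin (P.N z), ¬ (((l, k), p) : P.Co z) = e0 := by
          intro p h
          rw [he0] at h
          simp only [Prod.mk.injEq] at h
          exact hk h.1.2
        simp only [if_neg (hne _), if_neg hk, ite_self, add_zero]
    · have hne : ∀ p : Fin (P.N z) × Fin (P.N z), ¬ (((l, k), p) : P.Co z) = e0 := by
        intro p h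
        rw [he0] at h
        simp only [Prod.mk.injEq] at h
        exact hl h.1.1
      simp only [if_neg (hne _), if_neg hl, add_zero]
  unfold EA obsQE
  rw [Finset.sum_congr rfl (fun l _ => Finset.sum_congr rfl (fun k _ => h1 l k))]
  simp only [Finset.sum_add_distrib]
  congr 1
  rw [Finset.sum_eq_single (⟨lS, hlS⟩ : Fin P.K)]
  · rw [Finset.sum_eq_single (⟨kS, hkS⟩ : Fin P.K)]
    · simp only [if_true]
    · intro k _ hk
      simp only [if_neg hk, ite_self]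
    · intro h
      exact absurd (mem_univ _) h
  · intro l _ hl
    simp only [if_neg hl, Finset.sum_const_zero]
  · intro h
    exact absurd (mem_univ _) h

/-- far from all cuts -/
def obsQFar {z : ℕ} [NeZero (P.N z)] (ω : P.Sp z) (l1 k1 : ℕ) (ξ η : P.Lf → ℕ) : Prop :=
  ∀ u v : P.Lf → ZMod 2, P.q ^ 2 ≤ 2 * (univ.filter
      (fun p : P.Lf × P.Lf => EA ω l1 k1 ξ η p.1 p.2 ≠ u p.1 + v p.2)).card

theorem obsQ_far {z : ℕ} [NeZero (P.N z)] (hz : 2 ≤ z) {l1 l2 k1 k2 lS kS : ℕ}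
    (hR : P.Rect l1 l2 k1 k2 lS kS)
    {ξ η : P.Lf → ℕ} (hξ : P.RowOK z l1 l2 ξ) (hη : P.RowOK z k1 k2 η)
    (hξN : ∀ r, ξ r < P.N z) (hηN : ∀ c, η c < P.N z) (ω : P.Sp z) :
    1 / (z : ℝ) ^ P.τ ≤ av (fun ω' : P.Sp z => ind (obsQFar (mix (P.V z l1 l2 k1 k2 lS kS
      (P.pairs z l1 l2 k1 k2 ξ η)) ω ω') l1 k1 ξ η)) := by
  classical
  set W := P.V z l1 l2 k1 k2 lS kS (P.pairs z l1 l2 k1 k2 ξ η) with hW
  have hz0 : 0 < z := by omega
  have hτ0 : 0 < z ^ P.τ := pow_pos hz0 _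
  have : Nonempty (Fin (z ^ P.τ)) := ⟨⟨0, hτ0⟩⟩
  have hq : 0 < P.q := by have := P.hq; omega
  have hlS : lS < P.K := lt_of_le_of_lt hR.hl2 hR.hlK
  have hkS : kS < P.K := lt_of_le_of_lt hR.hk2 hR.hkK
  obtain ⟨e0, he0⟩ : ∃ e0 : P.Co z, e0 = ((⟨lS, hlS⟩, ⟨kS, hkS⟩),
      (fc P z (ξ (0, ⟨0, hq⟩) / z ^ (P.δ * (lS - l1))),
      fc P z (η (0, ⟨0, hq⟩) / z ^ (P.δ * (kS - k1))))) := ⟨_, rfl⟩
  have hdd : ∀ {a b c : ℕ} (x : ℕ), a < b → b ≤ c →
      x / z ^ (P.δ * (b - a)) / z ^ (P.δ * (c - b)) = x / z ^ (P.δ * (c - a)) := by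
    intro a b c x h1 h2
    rw [Nat.div_div_eq_div_mul, ← pow_add, ← Nat.mul_add]
    congr 3
    omega
  have he : e0 ∈ W := by
    rw [hW, he0]
    refine ⟨hR.hl2, hR.hk2, Or.inl ⟨rfl, rfl⟩, (0, ⟨0, hq⟩), (0, ⟨0, hq⟩), ?_⟩
    simp only [fc]
    rw [Nat.mod_eq_of_lt (lt_of_le_of_lt (Nat.div_le_self _ _) (hξN _)),
      Nat.mod_eq_of_lt (lt_of_le_of_lt (Nat.div_le_self _ _) (hηN _)),
      hdd _ hR.hl1 hR.hl2, hdd _ hR.hk1 hR.hk2]
  have hp : av (fun ω2 : P.Sp z => ind ((ω2 e0).val = 0)) = 1 / (z : ℝ) ^ P.τ := by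
    rw [av_coord e0 (fun b : Fin (z ^ P.τ) => ind (b.val = 0)), av_ind_eq hτ0]
    push_cast
    rfl
  have hzR : (2 : ℝ) ≤ (z : ℝ) := by exact_mod_cast hz
  have hzτ : (2 : ℝ) ≤ (z : ℝ) ^ P.τ := by
    calc (2 : ℝ) ≤ (z : ℝ) := hzR
      _ = (z : ℝ) ^ 1 := (pow_one _).symm
      _ ≤ (z : ℝ) ^ P.τ := pow_le_pow_right₀ (by linarith) P.τ_pos
  have hp2 : 1 / (z : ℝ) ^ P.τ ≤ av (fun ω2 : P.Sp z => ind (¬ (ω2 e0).val = 0)) := by
    have h1 : av (fun ω2 : P.Sp z => ind (¬ (ω2 e0).val = 0)) = 1 + (-1) * (1 / (z : ℝ) ^ P.τ) := by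
      rw [← hp, ← av_mul_left, ← av_const (Ω := P.Sp z) (1 : ℝ), ← av_add]
      apply av_congr
      intro ω2
      rw [av_const, ind_not]
      ring
    rw [h1]
    have h2 : 1 / (z : ℝ) ^ P.τ ≤ 1 / 2 := one_div_le_one_div_of_le (by norm_num) hzτ
    linarith
  rw [av_mix {e0}]
  have key : ∀ ω1 : P.Sp z, 1 / (z : ℝ) ^ P.τ ≤
      av (fun ω2 : P.Sp z => ind (obsQFar (mix W ω (mix {e0} ω1 ω2)) l1 k1 ξ η)) := by
    intro ω1
    have hEA := fun ω2 r c => obsQ_EA hR hξ hη hξN hηN ⟨0, hq⟩ hlS hkS he0 he ω ω1 ω2 r c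
    rcases cut_far (obsQE e0 (mix W ω ω1) l1 k1 ξ η) with hf | hf
    · refine hp2.trans (av_mono (fun ω2 => ind_mono (fun h0 => ?_)))
      intro u v
      have := hf u v
      simp only [hEA, if_neg h0, add_zero]
      exact this
    · rw [← hp]
      refine av_mono (fun ω2 => ind_mono (fun h0 => ?_))
      intro u v
      have := hf u v
      simp only [hEA, if_pos h0]
      exact this
  calc 1 / (z : ℝ) ^ P.τ = av (fun _ : P.Sp z => 1 / (z : ℝ) ^ P.τ) := (av_const _).symm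
    _ ≤ _ := av_mono key

theorem obs_prob {z : ℕ} (hz : zD P ≤ z) {l1 l2 k1 k2 lS kS : ℕ}
    (hR : P.Rect l1 l2 k1 k2 lS kS)
    {ξ η : P.Lf → ℕ} (hξ : P.RowOK z l1 l2 ξ) (hη : P.RowOK z k1 k2 η)
    (hξN : ∀ r, ξ r < P.N z) (hηN : ∀ c, η c < P.N z) (ω : P.Sp z) :
    1 / (2 * (z : ℝ) ^ P.τ) ≤ av (fun ω' : P.Sp z => ind (Obs (mix (P.V z l1 l2 k1 k2 lS kS
      (P.pairs z l1 l2 k1 k2 ξ η)) ω ω') l1 k1 ξ η)) := by
  classical
  have hz2 := obsQ_one_lt hz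
  have hz0 : 0 < z := by omega
  have hτ0 : 0 < z ^ P.τ := pow_pos hz0 _
  have : Nonempty (Fin (z ^ P.τ)) := ⟨⟨0, hτ0⟩⟩
  have : NeZero (P.N z) := ⟨(pow_pos hz0 _).ne'⟩
  have hC := av_noC hz hR hξ hη ω
  have hC' := av_noC' hz hR hξ hη ω
  have hRep := av_rep hz hR hξ hη ω
  have hFar := obsQ_far hz2 hR hξ hη hξN hηN ω
  set W := P.V z l1 l2 k1 k2 lS kS (P.pairs z l1 l2 k1 k2 ξ η) with hW
  obtain ⟨f, hf⟩ : ∃ f : P.Sp z → ℝ, ∀ ω', f ω' = ind (obsQFar (mix W ω ω') l1 k1 ξ η) :=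
    ⟨_, fun _ => rfl⟩
  obtain ⟨g, hg⟩ : ∃ g : P.Sp z → ℝ, ∀ ω', g ω' = ind (NoC (mix W ω ω') l1 k1 k2 ξ η ∧
      NoC' (mix W ω ω') l1 l2 k1 ξ η ∧ ¬ Rep (mix W ω ω') l1 k1 ξ η) := ⟨_, fun _ => rfl⟩
  have h1 : ∀ ω', f ω' * g ω' ≤ ind (Obs (mix W ω ω') l1 k1 ξ η) := by
    intro ω'
    rw [hf, hg, ← ind_and]
    apply ind_mono
    rintro ⟨hfar, hn, hn', hrep⟩
    refine obs_det hz0 hR hξ hη _ hn hn' hfar ?_
    intro x y hx hy S hS
    by_contra hcon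
    push Not at hcon
    exact hrep ⟨x, y, hx, hy, S, hS, hcon⟩
  refine le_trans ?_ (av_mono h1)
  have hFmem : ∀ (ω1 ω2 : P.Sp z) (l k : Fin P.K) (u v : Fin (P.N z)),
      ¬ l.val < l1 → ¬ k.val < k1 →
      F (mix W ω (mix {c : P.Co z | c.1.1.val = lS ∧ c.1.2.val = kS} ω1 ω2)) l k u v =
        F (mix W ω ω2) l k u v := by
    intro ω1 ω2 l k u v hl hk
    unfold F
    by_cases hc : ((l, k), (u, v)) ∈ W
    · rw [mix_mem hc, mix_mem hc]
      have hD : ((l, k), (u, v)) ∈ {c : P.Co z | c.1.1.val = lS ∧ c.1.2.val = kS} := by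
        rw [hW] at hc
        rcases hc.2.2.1 with h | h | h
        · exact h
        · exact absurd h hl
        · exact absurd h hk
      rw [mix_mem hD]
    · rw [mix_not_mem hc, mix_not_mem hc]
  have hFnot : ∀ (ω1 ω2 : P.Sp z) (l k : Fin P.K) (u v : Fin (P.N z)),
      ¬ (l.val = lS ∧ k.val = kS) →
      F (mix W ω (mix {c : P.Co z | c.1.1.val = lS ∧ c.1.2.val = kS} ω1 ω2)) l k u v =
        F (mix W ω ω1) l k u v := by
    intro ω1 ω2 l k u v hlk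
    unfold F
    by_cases hc : ((l, k), (u, v)) ∈ W
    · rw [mix_mem hc, mix_mem hc]
      have hD : ((l, k), (u, v)) ∉ {c : P.Co z | c.1.1.val = lS ∧ c.1.2.val = kS} := hlk
      rw [mix_not_mem hD]
    · rw [mix_not_mem hc, mix_not_mem hc]
  have hinv1 : ∀ ω1 ω2, f (mix {c : P.Co z | c.1.1.val = lS ∧ c.1.2.val = kS} ω1 ω2) = f ω2 := by
    intro ω1 ω2
    rw [hf, hf]
    have hEA : ∀ r c, EA (mix W ω (mix {c : P.Co z | c.1.1.val = lS ∧ c.1.2.val = kS} ω1 ω2))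
        l1 k1 ξ η r c = EA (mix W ω ω2) l1 k1 ξ η r c := by
      intro r c
      unfold EA
      apply Finset.sum_congr rfl
      intro l _
      apply Finset.sum_congr rfl
      intro k _
      by_cases hcond : P.TT l.val k.val ∧ l1 ≤ l.val ∧ k1 ≤ k.val
      · rw [if_pos hcond, if_pos hcond, hFmem ω1 ω2 l k _ _ (by omega) (by omega)]
      · rw [if_neg hcond, if_neg hcond]
    unfold obsQFar
    simp only [hEA]
  have hinv2 : ∀ ω1 ω2, g (mix {c : P.Co z | c.1.1.val = lS ∧ c.1.2.val = kS} ω1 ω2) = g ω1 := by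
    intro ω1 ω2
    rw [hg, hg]
    have hn : NoC (mix W ω (mix {c : P.Co z | c.1.1.val = lS ∧ c.1.2.val = kS} ω1 ω2))
        l1 k1 k2 ξ η ↔ NoC (mix W ω ω1) l1 k1 k2 ξ η := by
      unfold NoC
      refine forall_congr' (fun l => forall_congr' (fun k => forall_congr' (fun _ =>
        forall_congr' (fun hl => forall_congr' (fun _ => forall_congr' (fun _ =>
        forall_congr' (fun u => forall_congr' (fun v => forall_congr' (fun _ =>
        forall_congr' (fun _ => ?_))))))))))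
      rw [hFnot ω1 ω2 l k u v (fun h => by have := hR.hl1; omega)]
    have hn' : NoC' (mix W ω (mix {c : P.Co z | c.1.1.val = lS ∧ c.1.2.val = kS} ω1 ω2))
        l1 l2 k1 ξ η ↔ NoC' (mix W ω ω1) l1 l2 k1 ξ η := by
      unfold NoC'
      refine forall_congr' (fun l => forall_congr' (fun k => forall_congr' (fun _ =>
        forall_congr' (fun hk => forall_congr' (fun _ => forall_congr' (fun _ =>
        forall_congr' (fun u => forall_congr' (fun v => forall_congr' (fun _ =>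
        forall_congr' (fun _ => ?_))))))))))
      rw [hFnot ω1 ω2 l k u v (fun h => by have := hR.hk1; omega)]
    have hD : ∀ x y r c, Dfl (mix W ω (mix {c : P.Co z | c.1.1.val = lS ∧ c.1.2.val = kS} ω1 ω2))
        l1 k1 x y r c ↔ Dfl (mix W ω ω1) l1 k1 x y r c := by
      intro x y r c
      unfold Dfl
      refine exists_congr (fun l => exists_congr (fun k => and_congr_right (fun _ =>
        and_congr_right (fun hl => and_congr_right (fun _ => and_congr_right (fun _ => ?_))))))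
      rw [hFnot ω1 ω2 l k _ _ (fun h => by have := hR.hl1; omega)]
    have hr : Rep (mix W ω (mix {c : P.Co z | c.1.1.val = lS ∧ c.1.2.val = kS} ω1 ω2))
        l1 k1 ξ η ↔ Rep (mix W ω ω1) l1 k1 ξ η := by
      unfold Rep
      simp only [hD]
    simp only [hn, hn', hr]
  rw [av_indep {c : P.Co z | c.1.1.val = lS ∧ c.1.2.val = kS} hinv1 hinv2]
  have hfa : 1 / (z : ℝ) ^ P.τ ≤ av f := by
    rw [av_congr hf]
    exact hFar
  have hga : 1 / 2 ≤ av g := by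
    have h2 : ∀ ω', 1 + (-1) * (ind (¬ NoC (mix W ω ω') l1 k1 k2 ξ η) +
        (ind (¬ NoC' (mix W ω ω') l1 l2 k1 ξ η) + ind (Rep (mix W ω ω') l1 k1 ξ η))) ≤ g ω' := by
      intro ω'
      rw [hg, ind_not, ind_not]
      by_cases ha : NoC (mix W ω ω') l1 k1 k2 ξ η
      · by_cases hb : NoC' (mix W ω ω') l1 l2 k1 ξ η
        · by_cases hc : Rep (mix W ω ω') l1 k1 ξ η
          · have h6 := ind_nonneg (NoC (mix W ω ω') l1 k1 k2 ξ η ∧
              NoC' (mix W ω ω') l1 l2 k1 ξ η ∧ ¬ Rep (mix W ω ω') l1 k1 ξ η)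
            rw [ind_pos ha, ind_pos hb, ind_pos hc]
            linarith
          · rw [ind_pos ha, ind_pos hb, ind_neg hc, ind_pos ⟨ha, hb, hc⟩]
            norm_num
        · have h3 := ind_nonneg (Rep (mix W ω ω') l1 k1 ξ η)
          have h6 := ind_nonneg (NoC (mix W ω ω') l1 k1 k2 ξ η ∧
              NoC' (mix W ω ω') l1 l2 k1 ξ η ∧ ¬ Rep (mix W ω ω') l1 k1 ξ η)
          rw [ind_pos ha, ind_neg hb]
          linarith
      · have h3 := ind_nonneg (Rep (mix W ω ω') l1 k1 ξ η)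
        have h4 := ind_le_one (NoC' (mix W ω ω') l1 l2 k1 ξ η)
        have h6 := ind_nonneg (NoC (mix W ω ω') l1 k1 k2 ξ η ∧
              NoC' (mix W ω ω') l1 l2 k1 ξ η ∧ ¬ Rep (mix W ω ω') l1 k1 ξ η)
        rw [ind_neg ha]
        linarith
    refine le_trans ?_ (av_mono h2)
    rw [av_add, av_mul_left, av_add, av_add, av_const]
    linarith
  have h5 : (0 : ℝ) < (z : ℝ) ^ P.τ := by
    have : (0 : ℝ) < (z : ℝ) := by exact_mod_cast hz0
    positivity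
  calc 1 / (2 * (z : ℝ) ^ P.τ) = 1 / (z : ℝ) ^ P.τ * (1 / 2) := by
        field_simp
    _ ≤ av f * av g := mul_le_mul hfa hga (by norm_num) (le_trans (by positivity) hfa)

end Par

end Pool.Agent.H65.GD

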