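import Pool.Agent.H46.TS.Group

/-! Revealing the groups one by one: most good groups are fresh. -/

namespace Pool.Agent.H65.GD

open Finset Pool.Agent.H46.SR Pool.Agent.H46.TS

theorem seqG_pow {n : ℕ} (a : ℝ) (P : Fin n → Prop) [DecidablePred P] :
    a ^ (univ.filter (fun i => P i)).card = ∏ i, (if P i then a else 1) := by
  rw [Finset.prod_ite, Finset.prod_const, Finset.prod_const_one, mul_one]

open scoped Classical in
theorem seqG_last {G : Type*} [Fintype G] [Nonempty G] (gd : G → Prop) (mt : G → G → Prop)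
    {ρ c β : ℝ} (hρ0 : 0 ≤ ρ)
    (hc : c ≤ av (fun g => ind (gd g))) (hβ0 : 0 ≤ β)
    (hβ : ∀ g', gd g' → av (fun g => ind (gd g ∧ mt g' g)) ≤ β) (n : ℕ)
    (hn : (n : ℝ) * β ≤ c / 2) (μ : Fin n → G) :
    av (fun g => if (gd g ∧ ∀ j, gd (μ j) → ¬ mt (μ j) g) then (1 - ρ) else 1) ≤
      1 - ρ * c / 2 := by
  have h1 : ∀ g, (if (gd g ∧ ∀ j, gd (μ j) → ¬ mt (μ j) g) then (1 - ρ) else 1) ≤
      (1 + (-ρ) * ind (gd g)) + ρ * ∑ j, ind (gd (μ j)) * ind (gd g ∧ mt (μ j) g) := by
    intro g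
    have hs : 0 ≤ ρ * ∑ j, ind (gd (μ j)) * ind (gd g ∧ mt (μ j) g) :=
      mul_nonneg hρ0 (Finset.sum_nonneg (fun j _ => mul_nonneg (ind_nonneg _) (ind_nonneg _)))
    split_ifs with h
    · rw [ind_pos h.1]
      linarith
    · by_cases hg : gd g
      · have h0 : ∃ j, gd (μ j) ∧ mt (μ j) g := by
          by_contra hcon
          push Not at hcon
          exact h ⟨hg, hcon⟩
        obtain ⟨j, hj1, hj2⟩ := h0
        have h2 : (1 : ℝ) ≤ ∑ j, ind (gd (μ j)) * ind (gd g ∧ mt (μ j) g) := by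
          calc (1 : ℝ) = ind (gd (μ j)) * ind (gd g ∧ mt (μ j) g) := by
                rw [ind_pos hj1, ind_pos ⟨hg, hj2⟩, one_mul]
            _ ≤ _ := Finset.single_le_sum
                (f := fun j => ind (gd (μ j)) * ind (gd g ∧ mt (μ j) g))
                (fun j _ => mul_nonneg (ind_nonneg _) (ind_nonneg _)) (mem_univ j)
        have h2' := mul_le_mul_of_nonneg_left h2 hρ0
        rw [ind_pos hg] at *
        linarith
      · rw [ind_neg hg] at *
        linarith
  have h3 : av (fun g => (1 + (-ρ) * ind (gd g)) +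
      ρ * ∑ j, ind (gd (μ j)) * ind (gd g ∧ mt (μ j) g)) =
      (1 + (-ρ) * av (fun g => ind (gd g))) +
        ρ * ∑ j, ind (gd (μ j)) * av (fun g => ind (gd g ∧ mt (μ j) g)) := by
    rw [av_add, av_add, av_const, av_mul_left, av_mul_left, av_sum]
    congr 2
    exact Finset.sum_congr rfl (fun j _ => av_mul_left _ _)
  have h4 : ∑ j, ind (gd (μ j)) * av (fun g => ind (gd g ∧ mt (μ j) g)) ≤ (n : ℝ) * β := by
    calc ∑ j, ind (gd (μ j)) * av (fun g => ind (gd g ∧ mt (μ j) g)) ≤ ∑ _j : Fin n, β := by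
          apply Finset.sum_le_sum
          intro j _
          by_cases hj : gd (μ j)
          · rw [ind_pos hj, one_mul]
            exact hβ _ hj
          · rw [ind_neg hj, zero_mul]
            exact hβ0
      _ = (n : ℝ) * β := by
          rw [Finset.sum_const, Finset.card_univ, Fintype.card_fin, nsmul_eq_mul]
  refine (av_mono h1).trans ?_
  rw [h3]
  have h5 := mul_le_mul_of_nonneg_left hc hρ0
  have h6 := mul_le_mul_of_nonneg_left (h4.trans hn) hρ0
  linarith

open scoped Classical in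
theorem seqG_step {G : Type*} [Fintype G] (gd : G → Prop) (mt : G → G → Prop) (a : ℝ) (n : ℕ)
    (μ : Fin n → G) (g : G) :
    a ^ (univ.filter (fun i : Fin (n + 1) => gd ((Fin.snoc μ g : Fin (n + 1) → G) i) ∧
      ∀ j < i, gd ((Fin.snoc μ g : Fin (n + 1) → G) j) →
        ¬ mt ((Fin.snoc μ g : Fin (n + 1) → G) j) ((Fin.snoc μ g : Fin (n + 1) → G) i))).card =
    a ^ (univ.filter (fun i : Fin n =>
      gd (μ i) ∧ ∀ j < i, gd (μ j) → ¬ mt (μ j) (μ i))).card *
      (if (gd g ∧ ∀ j, gd (μ j) → ¬ mt (μ j) g) then a else 1) := by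
  rw [seqG_pow, seqG_pow, Fin.prod_univ_castSucc]
  congr 1
  · apply Finset.prod_congr rfl
    intro i _
    have h : (gd ((Fin.snoc μ g : Fin (n + 1) → G) i.castSucc) ∧
      ∀ j < i.castSucc, gd ((Fin.snoc μ g : Fin (n + 1) → G) j) →
        ¬ mt ((Fin.snoc μ g : Fin (n + 1) → G) j)
          ((Fin.snoc μ g : Fin (n + 1) → G) i.castSucc)) ↔
        (gd (μ i) ∧ ∀ j < i, gd (μ j) → ¬ mt (μ j) (μ i)) := by
      rw [Fin.snoc_castSucc (α := fun _ => G)]
      constructor
      · rintro ⟨h1, h2⟩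
        refine ⟨h1, fun j hj hgj => ?_⟩
        have h3 := h2 j.castSucc (Fin.castSucc_lt_castSucc_iff.mpr hj)
        rw [Fin.snoc_castSucc (α := fun _ => G)] at h3
        exact h3 hgj
      · rintro ⟨h1, h2⟩
        refine ⟨h1, fun j hj => ?_⟩
        refine Fin.lastCases (motive := fun j => j < i.castSucc →
          gd ((Fin.snoc μ g : Fin (n + 1) → G) j) →
            ¬ mt ((Fin.snoc μ g : Fin (n + 1) → G) j) (μ i)) ?_ ?_ j hj
        · intro hl
          exact absurd hl (not_lt.mpr (Fin.le_last _))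
        · intro j' hj'
          rw [Fin.snoc_castSucc (α := fun _ => G)]
          exact h2 j' (Fin.castSucc_lt_castSucc_iff.mp hj')
    by_cases hp : (gd (μ i) ∧ ∀ j < i, gd (μ j) → ¬ mt (μ j) (μ i))
    · rw [if_pos hp, if_pos (h.mpr hp)]
    · rw [if_neg hp, if_neg (fun h' => hp (h.mp h'))]
  · have h : (gd ((Fin.snoc μ g : Fin (n + 1) → G) (Fin.last n)) ∧
      ∀ j < Fin.last n, gd ((Fin.snoc μ g : Fin (n + 1) → G) j) →
        ¬ mt ((Fin.snoc μ g : Fin (n + 1) → G) j)
          ((Fin.snoc μ g : Fin (n + 1) → G) (Fin.last n))) ↔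
        (gd g ∧ ∀ j, gd (μ j) → ¬ mt (μ j) g) := by
      rw [Fin.snoc_last (α := fun _ => G)]
      constructor
      · rintro ⟨h1, h2⟩
        refine ⟨h1, fun j hgj => ?_⟩
        have h3 := h2 j.castSucc (Fin.castSucc_lt_last j)
        rw [Fin.snoc_castSucc (α := fun _ => G)] at h3
        exact h3 hgj
      · rintro ⟨h1, h2⟩
        refine ⟨h1, fun j hj => ?_⟩
        refine Fin.lastCases (motive := fun j => j < Fin.last n →
          gd ((Fin.snoc μ g : Fin (n + 1) → G) j) →
            ¬ mt ((Fin.snoc μ g : Fin (n + 1) → G) j) g) ?_ ?_ j hj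
        · intro hl
          exact absurd hl (lt_irrefl _)
        · intro j' _
          rw [Fin.snoc_castSucc (α := fun _ => G)]
          exact h2 j'
    by_cases hp : (gd g ∧ ∀ j, gd (μ j) → ¬ mt (μ j) g)
    · rw [if_pos hp, if_pos (h.mpr hp)]
    · rw [if_neg hp, if_neg (fun h' => hp (h.mp h'))]

open scoped Classical in
theorem seqG {G : Type*} [Fintype G] [Nonempty G] (gd : G → Prop) (mt : G → G → Prop)
    {ρ c β : ℝ} (hρ0 : 0 ≤ ρ) (hρ1 : ρ ≤ 1) (hc0 : 0 ≤ c)
    (hc : c ≤ av (fun g => ind (gd g)))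
    (hβ : ∀ g', gd g' → av (fun g => ind (gd g ∧ mt g' g)) ≤ β) (Γ : ℕ)
    (hΓ : (Γ : ℝ) * β ≤ c / 2) :
    av (fun μ : Fin Γ → G => (1 - ρ) ^ (univ.filter (fun i : Fin Γ =>
      gd (μ i) ∧ ∀ j < i, gd (μ j) → ¬ mt (μ j) (μ i))).card) ≤ (1 - ρ * c / 2) ^ Γ := by
  rcases hc0.eq_or_lt with hc0' | hc0'
  · rw [← hc0', mul_zero, zero_div, sub_zero, one_pow]
    calc _ ≤ av (fun _ : Fin Γ → G => (1 : ℝ)) :=
          av_mono (fun μ => pow_le_one₀ (by linarith) (by linarith))
      _ = 1 := av_const _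
  · have hg : ∃ g', gd g' := by
      by_contra hcon
      push Not at hcon
      have h1 : av (fun g => ind (gd g)) = 0 := by
        rw [av_congr (fun g => ind_neg (hcon g))]
        exact av_const _
      linarith
    obtain ⟨g', hg'⟩ := hg
    have hβ0 : 0 ≤ β := le_trans (av_nonneg (fun g => ind_nonneg _)) (hβ g' hg')
    have hc1 : c ≤ 1 := by
      refine hc.trans ?_
      calc _ ≤ av (fun _ : G => (1 : ℝ)) := av_mono (fun g => ind_le_one _)
        _ = 1 := av_const _
    have hρc : 0 ≤ 1 - ρ * c / 2 := by nlinarith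
    induction Γ with
    | zero =>
      rw [pow_zero]
      calc _ ≤ av (fun _ : Fin 0 → G => (1 : ℝ)) :=
            av_mono (fun μ => pow_le_one₀ (by linarith) (by linarith))
        _ = 1 := av_const _
    | succ n ih =>
      have hn : (n : ℝ) * β ≤ c / 2 := by
        push_cast at hΓ
        nlinarith
      have ih' := ih hn
      rw [← av_equiv ((Equiv.prodComm (Fin n → G) G).trans (Fin.snocEquiv (fun _ => G))),
        av_prod]
      have h1 : ∀ (μ : Fin n → G), av (fun g : G => (1 - ρ) ^ (univ.filter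
          (fun i : Fin (n + 1) => gd ((((Equiv.prodComm (Fin n → G) G).trans
            (Fin.snocEquiv (fun _ => G))) (μ, g)) i) ∧ ∀ j < i,
            gd ((((Equiv.prodComm (Fin n → G) G).trans
            (Fin.snocEquiv (fun _ => G))) (μ, g)) j) →
            ¬ mt ((((Equiv.prodComm (Fin n → G) G).trans
            (Fin.snocEquiv (fun _ => G))) (μ, g)) j) ((((Equiv.prodComm (Fin n → G) G).trans
            (Fin.snocEquiv (fun _ => G))) (μ, g)) i))).card) ≤
          (1 - ρ) ^ (univ.filter (fun i : Fin n =>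
            gd (μ i) ∧ ∀ j < i, gd (μ j) → ¬ mt (μ j) (μ i))).card * (1 - ρ * c / 2) := by
        intro μ
        have h2 : ∀ g : G, (1 - ρ) ^ (univ.filter
          (fun i : Fin (n + 1) => gd ((((Equiv.prodComm (Fin n → G) G).trans
            (Fin.snocEquiv (fun _ => G))) (μ, g)) i) ∧ ∀ j < i,
            gd ((((Equiv.prodComm (Fin n → G) G).trans
            (Fin.snocEquiv (fun _ => G))) (μ, g)) j) →
            ¬ mt ((((Equiv.prodComm (Fin n → G) G).trans
            (Fin.snocEquiv (fun _ => G))) (μ, g)) j) ((((Equiv.prodComm (Fin n → G) G).trans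
            (Fin.snocEquiv (fun _ => G))) (μ, g)) i))).card =
            (1 - ρ) ^ (univ.filter (fun i : Fin n =>
            gd (μ i) ∧ ∀ j < i, gd (μ j) → ¬ mt (μ j) (μ i))).card *
            (if (gd g ∧ ∀ j, gd (μ j) → ¬ mt (μ j) g) then (1 - ρ) else 1) :=
          fun g => seqG_step gd mt (1 - ρ) n μ g
        rw [av_congr h2, av_mul_left]
        exact mul_le_mul_of_nonneg_left (seqG_last gd mt hρ0 hc hβ0 hβ n hn μ)
          (pow_nonneg (by linarith) _)
      refine (av_mono h1).trans ?_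
      rw [av_mul_right, pow_succ]
      exact mul_le_mul_of_nonneg_right ih' hρc

end Pool.Agent.H65.GD

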