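import Pool.Agent.H65.GD.ObsQ
import Pool.Agent.H65.GD.Inv
import Pool.Agent.H65.GD.Meet
import Pool.Agent.H65.GD.SeqG

/-! The bound for one choice of the coarse data. -/

namespace Pool.Agent.H65.GD

open Finset Pool.Agent.H46.SR Pool.Agent.H46.TS

namespace Par

variable {P : Par}

theorem One_zpos {z : ℕ} (hz : zD P ≤ z) : 0 < z := by
  have h1 : 0 < zD P := by
    unfold zD
    apply Nat.pow_pos
    have h2 := P.K_pos
    have h3 := P.hq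
    have h4 : 0 < P.q := by omega
    positivity
  omega

theorem One_xi_lt {z : ℕ} (hz : 0 < z) (h : P.Half z) (ρ : P.R1 z) (r : P.Lf) :
    xi h ρ r < P.N z := by
  unfold xi
  split
  · rename_i u _
    exact u.2
  · exact pow_pos hz _

/-- the bound for fixed samples -/
theorem One_fixed {z : ℕ} (hz : zD P ≤ z) (hr hc : P.Half z) {lS kS : ℕ}
    (hR : P.Rect hr.l1.val hr.l2.val hc.l1.val hc.l2.val lS kS)
    (μ : Fin (z ^ P.κ) → P.R1 z × P.R1 z) (S : Finset (Fin (z ^ P.κ)))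
    (hS1 : ∀ i ∈ S, GoodR hr (μ i).1 ∧ GoodR hc (μ i).2)
    (hS2 : ∀ i ∈ S, ∀ j ∈ S, j < i → ¬ ∃ p, p ∈ prs hr hc (μ j) ∧ p ∈ prs hr hc (μ i)) :
    av (fun ω : P.Sp z =>
      ind (∀ i, ¬ (GoodR hr (μ i).1 ∧ GoodR hc (μ i).2 ∧
        Obs ω hr.l1.val hc.l1.val (xi hr (μ i).1) (xi hc (μ i).2)))) ≤
      (1 - 1 / (2 * (z : ℝ) ^ P.τ)) ^ S.card := by
  classical
  have hz0 := One_zpos hz
  have : Nonempty (Fin (z ^ P.τ)) := ⟨⟨0, pow_pos hz0 _⟩⟩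
  obtain ⟨D, hD⟩ : ∃ D : {i // i ∈ S} → Set (P.Co z), ∀ l, D l =
      P.V z hr.l1.val hr.l2.val hc.l1.val hc.l2.val lS kS (prs hr hc (μ l.1)) :=
    ⟨fun l => _, fun _ => rfl⟩
  obtain ⟨E, hE⟩ : ∃ E : {i // i ∈ S} → P.Sp z → Prop, ∀ l ω, E l ω ↔
      ¬ Obs ω hr.l1.val hc.l1.val (xi hr (μ l.1).1) (xi hc (μ l.1).2) :=
    ⟨fun l ω => _, fun _ _ => Iff.rfl⟩
  have hz1 : (1 : ℝ) ≤ (z : ℝ) := by exact_mod_cast hz0
  have hzτ : (1 : ℝ) ≤ (z : ℝ) ^ P.τ := one_le_pow₀ hz1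
  have hρ1 : 1 / (2 * (z : ℝ) ^ P.τ) ≤ 1 := by
    rw [div_le_one (by positivity)]
    linarith
  have hp0 : 0 ≤ 1 - 1 / (2 * (z : ℝ) ^ P.τ) := by linarith
  have hinv : ∀ l l' : {i // i ∈ S}, l ≠ l' → ∀ ω ω', E l (mix (D l') ω ω') ↔ E l ω := by
    intro l l' hne ω ω'
    rw [hE, hE, hD]
    apply not_congr
    apply obs_inv hz0 hR
    intro p hp hp'
    have hne' : l.1 ≠ l'.1 := fun h => hne (Subtype.ext h)
    rcases lt_or_gt_of_ne hne' with h | h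
    · exact hS2 l'.1 l'.2 l.1 l.2 h ⟨p, hp, hp'⟩
    · exact hS2 l.1 l.2 l'.1 l'.2 h ⟨p, hp', hp⟩
  have hpb : ∀ (l : {i // i ∈ S}) (ω : P.Sp z), av (fun ω' => ind (E l (mix (D l) ω ω'))) ≤
      1 - 1 / (2 * (z : ℝ) ^ P.τ) := by
    intro l ω
    have h1 : ∀ ω' : P.Sp z, ind (E l (mix (D l) ω ω')) = 1 + (-1) *
        ind (Obs (mix (P.V z hr.l1.val hr.l2.val hc.l1.val hc.l2.val lS kS
          (P.pairs z hr.l1.val hr.l2.val hc.l1.val hc.l2.val (xi hr (μ l.1).1)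
            (xi hc (μ l.1).2))) ω ω') hr.l1.val hc.l1.val (xi hr (μ l.1).1)
              (xi hc (μ l.1).2)) := by
      intro ω'
      have h2 : ind (E l (mix (D l) ω ω')) = ind (¬ Obs (mix (P.V z hr.l1.val hr.l2.val
          hc.l1.val hc.l2.val lS kS (P.pairs z hr.l1.val hr.l2.val hc.l1.val hc.l2.val
            (xi hr (μ l.1).1) (xi hc (μ l.1).2))) ω ω') hr.l1.val hc.l1.val (xi hr (μ l.1).1)
              (xi hc (μ l.1).2)) := by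
        congr 1
        apply propext
        rw [hE, hD]
        exact Iff.rfl
      rw [h2, ind_not]
      ring
    have h3 := obs_prob hz hR (hS1 l.1 l.2).1.ok (hS1 l.1 l.2).2.ok
      (One_xi_lt hz0 hr (μ l.1).1) (One_xi_lt hz0 hc (μ l.1).2) ω
    rw [av_congr h1, av_add, av_mul_left, av_const]
    linarith
  have hmain := prod_bound D E hp0 hinv hpb univ
  rw [card_univ, Fintype.card_coe] at hmain
  refine le_trans (av_mono ?_) hmain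
  intro ω
  apply ind_mono
  intro h l _
  rw [hE]
  intro hobs
  exact h l.1 ⟨(hS1 l.1 l.2).1, (hS1 l.1 l.2).2, hobs⟩

theorem one_data {z : ℕ} (hz : zD P ≤ z) (hr hc : P.Half z) {lS kS : ℕ}
    (hR : P.Rect hr.l1.val hr.l2.val hc.l1.val hc.l2.val lS kS) {c : ℝ} (hc0 : 0 ≤ c)
    (h1 : c ≤ av (fun ρ : P.R1 z => ind (GoodR hr ρ)))
    (h2 : c ≤ av (fun ρ : P.R1 z => ind (GoodR hc ρ)))
    (hzc : 32 * (P.q : ℝ) ^ 4 ≤ c ^ 2 * z) :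
    av (fun μ : Fin (z ^ P.κ) → P.R1 z × P.R1 z => av (fun ω : P.Sp z =>
      ind (∀ i, ¬ (GoodR hr (μ i).1 ∧ GoodR hc (μ i).2 ∧
        Obs ω hr.l1.val hc.l1.val (xi hr (μ i).1) (xi hc (μ i).2))))) ≤
      (1 - c ^ 2 / (4 * (z : ℝ) ^ P.τ)) ^ (z ^ P.κ) := by
  classical
  have hz0 := One_zpos hz
  have hz1 : (1 : ℝ) ≤ (z : ℝ) := by exact_mod_cast hz0
  have hzτ : (1 : ℝ) ≤ (z : ℝ) ^ P.τ := one_le_pow₀ hz1
  have hne : Nonempty (P.R1 z × P.R1 z) := by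
    have hf : Nonempty (Fin (z ^ P.D)) := ⟨⟨0, pow_pos hz0 _⟩⟩
    infer_instance
  have hρ0 : 0 ≤ 1 / (2 * (z : ℝ) ^ P.τ) := by positivity
  have hρ1 : 1 / (2 * (z : ℝ) ^ P.τ) ≤ 1 := by
    rw [div_le_one (by positivity)]
    linarith
  have hgd : c ^ 2 ≤ av (fun g : P.R1 z × P.R1 z => ind (GoodR hr g.1 ∧ GoodR hc g.2)) := by
    have h3 : ∀ g : P.R1 z × P.R1 z, ind (GoodR hr g.1 ∧ GoodR hc g.2) =
        ind (GoodR hr g.1) * ind (GoodR hc g.2) := fun g => ind_and _ _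
    rw [av_congr h3, av_prod_mul (fun ρ : P.R1 z => ind (GoodR hr ρ))
      (fun ρ : P.R1 z => ind (GoodR hc ρ)), sq]
    exact mul_le_mul h1 h2 hc0 (le_trans hc0 h1)
  have hΓ : ((z ^ P.κ : ℕ) : ℝ) * (16 * (P.q : ℝ) ^ 4 *
      ((z : ℝ) ^ (P.W1 + 2 - P.κ) / (z : ℝ) ^ P.D) ^ 2) ≤ c ^ 2 / 2 := by
    have hW := P.hW
    have hκ1 := P.hκ1
    have e1 : (z : ℝ) ^ P.κ * ((z : ℝ) ^ (P.W1 + 2 - P.κ)) ^ 2 * z ≤ ((z : ℝ) ^ P.D) ^ 2 := by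
      rw [← pow_mul, ← pow_mul, ← pow_add, ← pow_succ]
      apply pow_le_pow_right₀ hz1
      unfold D
      omega
    have hzr : (0 : ℝ) < (z : ℝ) := by linarith
    have e2 : (z : ℝ) ^ P.κ * ((z : ℝ) ^ (P.W1 + 2 - P.κ) / (z : ℝ) ^ P.D) ^ 2 ≤ 1 / z := by
      rw [div_pow, ← mul_div_assoc, div_le_div_iff₀ (by positivity) hzr, one_mul]
      exact e1
    have e3 : 16 * (P.q : ℝ) ^ 4 * (1 / z) ≤ c ^ 2 / 2 := by
      rw [mul_one_div, div_le_iff₀ hzr]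
      linarith
    push_cast
    calc (z : ℝ) ^ P.κ * (16 * (P.q : ℝ) ^ 4 *
        ((z : ℝ) ^ (P.W1 + 2 - P.κ) / (z : ℝ) ^ P.D) ^ 2)
        = 16 * (P.q : ℝ) ^ 4 * ((z : ℝ) ^ P.κ *
          ((z : ℝ) ^ (P.W1 + 2 - P.κ) / (z : ℝ) ^ P.D) ^ 2) := by ring
      _ ≤ 16 * (P.q : ℝ) ^ 4 * (1 / z) := mul_le_mul_of_nonneg_left e2 (by positivity)
      _ ≤ c ^ 2 / 2 := e3
  obtain ⟨gd, hgd'⟩ : ∃ gd : P.R1 z × P.R1 z → Prop, gd =
      fun g => GoodR hr g.1 ∧ GoodR hc g.2 := ⟨_, rfl⟩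
  obtain ⟨mt, hmt⟩ : ∃ mt : P.R1 z × P.R1 z → P.R1 z × P.R1 z → Prop, mt =
      fun g' g => ∃ p, p ∈ prs hr hc g' ∧ p ∈ prs hr hc g := ⟨_, rfl⟩
  have hgd2 : c ^ 2 ≤ av (fun g => ind (gd g)) := by
    rw [hgd']
    exact hgd
  have hmt2 : ∀ g', gd g' → av (fun g => ind (gd g ∧ mt g' g)) ≤ 16 * (P.q : ℝ) ^ 4 *
      ((z : ℝ) ^ (P.W1 + 2 - P.κ) / (z : ℝ) ^ P.D) ^ 2 := by
    intro g' _
    rw [hgd', hmt]
    exact meet_bound hz0 hr hc g'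
  have hseq := seqG (G := P.R1 z × P.R1 z) gd mt hρ0 hρ1 (sq_nonneg c) hgd2 hmt2 (z ^ P.κ) hΓ
  have hfin : 1 - 1 / (2 * (z : ℝ) ^ P.τ) * c ^ 2 / 2 = 1 - c ^ 2 / (4 * (z : ℝ) ^ P.τ) := by
    field_simp
    ring
  rw [← hfin]
  refine le_trans (av_mono ?_) hseq
  intro μ
  apply One_fixed hz hr hc hR μ
  · intro i hi
    have h3 := (mem_filter.mp hi).2.1
    rw [hgd'] at h3
    exact h3
  · intro i hi j hj hji
    have h3 := (mem_filter.mp hi).2.2 j hji (mem_filter.mp hj).2.1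
    rw [hmt] at h3
    exact h3

end Par

end Pool.Agent.H65.GD
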