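import Pool.Agent.H65.GD.Defs

/-! A random sample is in good position with positive probability. -/

namespace Pool.Agent.H65.GD

open Finset Pool.Agent.H46.SR Pool.Agent.H46.TS

/-- the point of the block of `X` with the residue of `Y` -/
def tup_pf {m l : ℕ} (hl : 0 < l) (hd : l ∣ m) (X Y : Fin m) : Fin m :=
  ⟨pl l X.val Y.val, pl_lt' hl hd X.2 _⟩

theorem tup_swap {l : ℕ} (hl : 0 < l) (X Y : ℕ) : pl l (pl l X Y) (pl l Y X) = X := by
  show pl l X Y / l * l + pl l Y X % l = X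
  rw [pl_div hl, pl_mod, Nat.div_add_mod']

theorem tup_assoc {l a : ℕ} (hl : 0 < l) (X Y c : ℕ) :
    pl l (pl (l * a) X Y) c = pl (l * a) X (pl l Y c) := by
  have e1 : pl l (pl (l * a) X Y) c =
      (X / (l * a) * (l * a) + Y % (l * a)) / l * l + c % l := rfl
  have e2 : pl (l * a) X (pl l Y c) = X / (l * a) * (l * a) + (pl l Y c) % (l * a) := rfl
  have e3 : (X / (l * a) * (l * a) + Y % (l * a)) / l = X / (l * a) * a + Y / l % a := by
    have : X / (l * a) * (l * a) = l * (X / (l * a) * a) := by ring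
    rw [this, Nat.mul_add_div hl, Nat.mod_mul_right_div_self]
  rw [e1, e2, e3, Nat.mod_mul, pl_div hl, pl_mod]
  ring

theorem tup_pf_assoc {m l1 l2 : ℕ} (hl1 : 0 < l1) (hl2 : 0 < l2) (hd : l1 ∣ l2) (hd2 : l2 ∣ m)
    (X Y c : Fin m) : tup_pf hl1 (hd.trans hd2) (tup_pf hl2 hd2 X Y) c =
      tup_pf hl2 hd2 X (tup_pf hl1 (hd.trans hd2) Y c) := by
  obtain ⟨a, rfl⟩ := hd
  apply Fin.ext
  exact tup_assoc hl1 _ _ _

theorem tup_u1 {m l : ℕ} (hl : 0 < l) (hd : l ∣ m) (hm : 0 < m) (g : Fin m → ℝ) :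
    av (fun X => av (fun Y => g (tup_pf hl hd X Y))) = av g := by
  have : Nonempty (Fin m) := ⟨⟨0, hm⟩⟩
  have hsw : ∀ X Y : Fin m, tup_pf hl hd (tup_pf hl hd X Y) (tup_pf hl hd Y X) = X := by
    intro X Y
    apply Fin.ext
    exact tup_swap hl _ _
  have h1 := av_equiv (⟨fun p => (tup_pf hl hd p.1 p.2, tup_pf hl hd p.2 p.1),
    fun p => (tup_pf hl hd p.1 p.2, tup_pf hl hd p.2 p.1),
    fun p => Prod.ext (hsw _ _) (hsw _ _), fun p => Prod.ext (hsw _ _) (hsw _ _)⟩ :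
    Fin m × Fin m ≃ Fin m × Fin m) (fun p : Fin m × Fin m => g p.1)
  rw [av_prod, av_prod] at h1
  refine h1.trans ?_
  apply av_congr
  intro X
  exact av_const (g X)

theorem tup_u2 {m l1 l2 : ℕ} (hl1 : 0 < l1) (hl2 : 0 < l2) (hd : l1 ∣ l2) (hd2 : l2 ∣ m)
    (hm : 0 < m) (X : Fin m) (g : Fin m → ℝ) :
    av (fun Y => av (fun c => g (tup_pf hl1 (hd.trans hd2) (tup_pf hl2 hd2 X Y) c))) =
      av (fun Y => g (tup_pf hl2 hd2 X Y)) := by
  rw [← tup_u1 hl1 (hd.trans hd2) hm (fun Y => g (tup_pf hl2 hd2 X Y))]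
  apply av_congr
  intro Y
  apply av_congr
  intro c
  rw [tup_pf_assoc hl1 hl2 hd hd2]

theorem tup_comm {A B : Type*} [Fintype A] [Fintype B] (f : A → B → ℝ) :
    av (fun a => av (fun b => f a b)) = av (fun b => av (fun a => f a b)) := by
  have h1 := av_prod (fun p : A × B => f p.1 p.2)
  have h2 := av_prod (fun p : B × A => f p.2 p.1)
  rw [← h1, ← h2]
  exact (av_equiv (Equiv.prodComm B A) (fun p : A × B => f p.1 p.2)).symm

theorem tup_pair {ι B : Type*} [Fintype ι] [DecidableEq ι] [Fintype B] [Nonempty B] {i i' : ι}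
    (h : i ≠ i') (f : B → B → ℝ) :
    av (fun ω : ι → B => f (ω i) (ω i')) = av (fun a => av (fun b => f a b)) := by
  have hinj : Function.Injective (fun c : Fin 2 => if c = 0 then i else i') := by
    intro a b hab
    fin_cases a <;> fin_cases b
    · rfl
    · simp at hab
      exact absurd hab h
    · simp at hab
      exact absurd hab.symm h
    · rfl
  have h1 := av_comp_inj (C := Fin 2) (D := ι) (B := B) _ hinj (fun ω => f (ω 0) (ω 1))
  simp only [if_true, one_ne_zero, if_false] at h1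
  rw [h1]
  have h2 := av_equiv (finTwoArrowEquiv B) (fun p : B × B => f p.1 p.2)
  rw [av_prod] at h2
  exact h2

theorem tup_jensen {A : Type*} [Fintype A] [Nonempty A] {f : A → ℝ} (hf : ∀ a, 0 ≤ f a)
    (n : ℕ) : av f ^ n ≤ av (fun a => f a ^ n) := by
  have hc : (0 : ℝ) < (Fintype.card A : ℝ) := by exact_mod_cast Fintype.card_pos (α := A)
  have h := Real.pow_arith_mean_le_arith_mean_pow (univ : Finset A)
    (fun _ => 1 / (Fintype.card A : ℝ)) f (fun _ _ => by positivity)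
    (by rw [Finset.sum_const, Finset.card_univ, nsmul_eq_mul]; field_simp) (fun a _ => hf a) n
  have e1 : ∀ g : A → ℝ, av g = ∑ a, 1 / (Fintype.card A : ℝ) * g a := by
    intro g
    unfold av
    rw [← Finset.mul_sum]
    ring
  rw [e1, e1]
  exact h

theorem tup_mod {m l : ℕ} (hd : l ∣ m) (hm : 0 < m) (ρ : ℕ) :
    av (fun Y : Fin m => ind (Y.val % l = ρ)) ≤ 1 / (l : ℝ) := by
  obtain ⟨q, hq⟩ := hd
  rw [mul_comm] at hq
  subst hq
  exact av_mod_le (Nat.pos_of_mul_pos_right hm)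

theorem tup_blk {m l : ℕ} (hl : 0 < l) (hd : l ∣ m) (hm : 0 < m) (X : Fin m)
    (P : Fin m → Prop) [DecidablePred P] :
    av (fun Y => ind (P (tup_pf hl hd X Y))) ≤ ((univ.filter P).card : ℝ) / l := by
  have : Nonempty (Fin m) := ⟨⟨0, hm⟩⟩
  have h1 : ∀ Y : Fin m, ind (P (tup_pf hl hd X Y)) ≤
      ∑ b ∈ univ.filter P, ind (Y.val % l = b.val % l) := by
    intro Y
    by_cases h : P (tup_pf hl hd X Y)
    · rw [ind_pos h]
      have h2 : ind (Y.val % l = (tup_pf hl hd X Y).val % l) = 1 := by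
        apply ind_pos
        show _ = pl l X.val Y.val % l
        rw [pl_mod]
      rw [← h2]
      exact Finset.single_le_sum (f := fun b : Fin m => ind (Y.val % l = b.val % l))
        (fun b _ => ind_nonneg _) (mem_filter.mpr ⟨mem_univ _, h⟩)
    · rw [ind_neg h]
      exact Finset.sum_nonneg (fun b _ => ind_nonneg _)
  refine (av_mono h1).trans ?_
  rw [av_sum]
  have h2 : ∀ b ∈ univ.filter P, av (fun Y : Fin m => ind (Y.val % l = b.val % l)) ≤
      1 / (l : ℝ) := by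
    intro b _
    exact tup_mod hd hm _
  refine (Finset.sum_le_card_nsmul _ _ _ h2).trans (le_of_eq ?_)
  rw [nsmul_eq_mul]
  ring

theorem tup_card {m : ℕ} (X : Finset (Fin m)) :
    av (fun x : Fin m => ind (x ∈ X)) = (X.card : ℝ) / m := by
  unfold av
  rw [Fintype.card_fin]
  congr 1
  rw [← Finset.sum_filter_add_sum_filter_not univ (fun x => x ∈ X)]
  rw [Finset.sum_congr rfl (fun x hx => ind_pos (mem_filter.mp hx).2),
    Finset.sum_congr rfl (fun x hx => ind_neg (mem_filter.mp hx).2)]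
  simp

section
variable {m l1 l2 q : ℕ} (hl1 : 0 < l1) (hl2 : 0 < l2) (hd : l1 ∣ l2) (hd2 : l2 ∣ m)

/-- a leaf -/
def tup_L (p : (Fin m × (Fin 2 → Fin m)) × (Fin 2 × Fin q → Fin m)) (c : Fin 2 × Fin q) :
    Fin m :=
  tup_pf hl1 (hd.trans hd2) (tup_pf hl2 hd2 p.1.1 (p.1.2 c.1)) (p.2 c)

theorem tup_all (hm : 0 < m) (P : Fin m → Prop) :
    (av (fun x => ind (P x))) ^ (2 * q) ≤
      av (fun p : (Fin m × (Fin 2 → Fin m)) × (Fin 2 × Fin q → Fin m) =>
        ind (∀ c, P (tup_L hl1 hl2 hd hd2 p c))) := by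
  have : Nonempty (Fin m) := ⟨⟨0, hm⟩⟩
  obtain ⟨F, hF⟩ : ∃ F : Fin m → ℝ, F = fun B =>
    av (fun y => ind (P (tup_pf hl1 (hd.trans hd2) B y))) := ⟨_, rfl⟩
  have hF0 : ∀ B, 0 ≤ F B := by
    intro B
    rw [hF]
    exact av_nonneg (fun _ => ind_nonneg _)
  have hFa : av F = av (fun x => ind (P x)) := by
    rw [hF]
    exact tup_u1 hl1 (hd.trans hd2) hm (fun x => ind (P x))
  have hFb : av (fun X => av (fun Y => F (tup_pf hl2 hd2 X Y))) = av F :=
    tup_u1 hl2 hd2 hm F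
  rw [av_prod, av_prod]
  have h1 : ∀ b0 : Fin m, ∀ b1 : Fin 2 → Fin m,
      av (fun ω : Fin 2 × Fin q → Fin m =>
        ind (∀ c, P (tup_L hl1 hl2 hd hd2 ((b0, b1), ω) c))) =
      ∏ j : Fin 2, F (tup_pf hl2 hd2 b0 (b1 j)) ^ q := by
    intro b0 b1
    have e1 : ∀ ω : Fin 2 × Fin q → Fin m,
        ind (∀ c, P (tup_L hl1 hl2 hd hd2 ((b0, b1), ω) c)) =
        ∏ c : Fin 2 × Fin q, (fun (c : Fin 2 × Fin q) (y : Fin m) =>
          ind (P (tup_pf hl1 (hd.trans hd2) (tup_pf hl2 hd2 b0 (b1 c.1)) y))) c (ω c) := by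
      intro ω
      rw [ind_forall]
      rfl
    rw [av_congr e1]
    refine (av_pi_prod (fun (c : Fin 2 × Fin q) (y : Fin m) =>
          ind (P (tup_pf hl1 (hd.trans hd2) (tup_pf hl2 hd2 b0 (b1 c.1)) y)))).trans ?_
    have e2 : ∀ c : Fin 2 × Fin q, av ((fun (c : Fin 2 × Fin q) (y : Fin m) =>
          ind (P (tup_pf hl1 (hd.trans hd2) (tup_pf hl2 hd2 b0 (b1 c.1)) y))) c) =
          F (tup_pf hl2 hd2 b0 (b1 c.1)) := by
      intro c
      rw [hF]
    rw [Finset.prod_congr rfl (fun c _ => e2 c), Fintype.prod_prod_type]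
    apply Finset.prod_congr rfl
    intro j _
    show ∏ _y : Fin q, F (tup_pf hl2 hd2 b0 (b1 j)) = _
    rw [Finset.prod_const, Finset.card_univ, Fintype.card_fin]
  have h2 : ∀ b0 : Fin m, av (fun b1 : Fin 2 → Fin m => av (fun ω : Fin 2 × Fin q → Fin m =>
        ind (∀ c, P (tup_L hl1 hl2 hd hd2 ((b0, b1), ω) c)))) =
      (av (fun y => F (tup_pf hl2 hd2 b0 y) ^ q)) ^ 2 := by
    intro b0
    rw [av_congr (h1 b0), av_pi_prod (fun (_ : Fin 2) (y : Fin m) =>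
      F (tup_pf hl2 hd2 b0 y) ^ q), Finset.prod_const, Finset.card_univ, Fintype.card_fin]
  rw [av_congr h2, ← hFa, ← hFb]
  refine (tup_jensen (fun X => av_nonneg (fun Y => hF0 _)) (2 * q)).trans ?_
  apply av_mono
  intro b0
  rw [mul_comm 2 q, pow_mul]
  exact pow_le_pow_left₀ (pow_nonneg (av_nonneg (fun Y => hF0 _)) _)
    (tup_jensen (fun Y => hF0 _) q) 2

/-- two leaves of one class -/
theorem tup_A {V : Type*} [DecidableEq V] (hm : 0 < m) {z : ℕ} (hz : 0 < z)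
    (TT : Finset (Fin m)) (e : Fin m → V)
    (h1 : ∀ b ∈ TT, (univ.filter (fun b' => e b' = e b)).card * z ≤ l1)
    {c c' : Fin 2 × Fin q} (hc : c ≠ c') (hcc : c.1 = c'.1) :
    av (fun p : (Fin m × (Fin 2 → Fin m)) × (Fin 2 × Fin q → Fin m) =>
        ind (tup_L hl1 hl2 hd hd2 p c ∈ TT ∧
          e (tup_L hl1 hl2 hd hd2 p c') = e (tup_L hl1 hl2 hd hd2 p c))) ≤ 1 / (z : ℝ) := by
  have : Nonempty (Fin m) := ⟨⟨0, hm⟩⟩
  rw [av_prod]
  refine (av_mono (fun p1 => ?_)).trans (av_const (1 / (z : ℝ))).le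
  have e1 := tup_pair hc (fun a b : Fin m =>
    ind (tup_pf hl1 (hd.trans hd2) (tup_pf hl2 hd2 p1.1 (p1.2 c.1)) a ∈ TT ∧
      e (tup_pf hl1 (hd.trans hd2) (tup_pf hl2 hd2 p1.1 (p1.2 c'.1)) b) =
      e (tup_pf hl1 (hd.trans hd2) (tup_pf hl2 hd2 p1.1 (p1.2 c.1)) a)))
  refine (le_of_eq e1).trans ?_
  refine (av_mono (fun a => ?_)).trans (av_const (1 / (z : ℝ))).le
  by_cases ha : tup_pf hl1 (hd.trans hd2) (tup_pf hl2 hd2 p1.1 (p1.2 c.1)) a ∈ TT
  · obtain ⟨x, hx⟩ : ∃ x, x = tup_pf hl1 (hd.trans hd2) (tup_pf hl2 hd2 p1.1 (p1.2 c.1)) a :=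
      ⟨_, rfl⟩
    rw [← hx] at ha ⊢
    refine (av_mono (fun b => ind_mono (fun h => h.2))).trans ?_
    refine (tup_blk hl1 (hd.trans hd2) hm _ (fun b' => e b' = e x)).trans ?_
    have h2 := h1 x ha
    have hz' : (0 : ℝ) < z := by exact_mod_cast hz
    have hl' : (0 : ℝ) < l1 := by exact_mod_cast hl1
    have h2' : ((univ.filter (fun b' => e b' = e x)).card : ℝ) * z ≤ l1 := by exact_mod_cast h2
    rw [div_le_div_iff₀ hl' hz']
    linarith
  · refine (av_mono (g := fun _ => (0 : ℝ)) (fun b => le_of_eq (ind_neg (fun h => ha h.1)))).trans ?_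
    rw [av_const]
    positivity

/-- two leaves of different classes -/
theorem tup_B {V : Type*} [DecidableEq V] (hm : 0 < m) {z : ℕ} (hz : 0 < z)
    (TT : Finset (Fin m)) (e : Fin m → V)
    (h1 : ∀ b ∈ TT, (univ.filter (fun b' => e b' = e b)).card * z ≤ l2)
    {c c' : Fin 2 × Fin q} (hcc : c.1 ≠ c'.1) :
    av (fun p : (Fin m × (Fin 2 → Fin m)) × (Fin 2 × Fin q → Fin m) =>
        ind (tup_L hl1 hl2 hd hd2 p c ∈ TT ∧
          e (tup_L hl1 hl2 hd hd2 p c') = e (tup_L hl1 hl2 hd hd2 p c))) ≤ 1 / (z : ℝ) := by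
  have : Nonempty (Fin m) := ⟨⟨0, hm⟩⟩
  have hc : c ≠ c' := fun h => hcc (by rw [h])
  rw [av_prod, av_prod]
  refine (av_mono (fun b0 => ?_)).trans (av_const (1 / (z : ℝ))).le
  obtain ⟨H, hH⟩ : ∃ H : Fin m → Fin m → Fin m → Fin m → ℝ, H = fun x a y b =>
    ind (tup_pf hl1 (hd.trans hd2) (tup_pf hl2 hd2 b0 x) a ∈ TT ∧
      e (tup_pf hl1 (hd.trans hd2) (tup_pf hl2 hd2 b0 y) b) =
      e (tup_pf hl1 (hd.trans hd2) (tup_pf hl2 hd2 b0 x) a)) := ⟨_, rfl⟩
  have e1 : ∀ b1 : Fin 2 → Fin m, av (fun ω : Fin 2 × Fin q → Fin m =>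
      ind (tup_L hl1 hl2 hd hd2 ((b0, b1), ω) c ∈ TT ∧
          e (tup_L hl1 hl2 hd hd2 ((b0, b1), ω) c') =
            e (tup_L hl1 hl2 hd hd2 ((b0, b1), ω) c))) =
      av (fun a => av (fun b => H (b1 c.1) a (b1 c'.1) b)) := by
    intro b1
    rw [← tup_pair hc (fun a b => H (b1 c.1) a (b1 c'.1) b), hH]
    rfl
  rw [av_congr e1, tup_pair hcc (fun x y => av (fun a => av (fun b => H x a y b)))]
  have e2 : ∀ x, av (fun y => av (fun a => av (fun b => H x a y b))) =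
      av (fun a => av (fun y => av (fun b => H x a y b))) := by
    intro x
    exact tup_comm (fun y a => av (fun b => H x a y b))
  rw [av_congr e2]
  refine (av_mono (fun x => ?_)).trans (av_const (1 / (z : ℝ))).le
  refine (av_mono (fun a => ?_)).trans (av_const (1 / (z : ℝ))).le
  rw [hH]
  beta_reduce
  by_cases ha : tup_pf hl1 (hd.trans hd2) (tup_pf hl2 hd2 b0 x) a ∈ TT
  · obtain ⟨v, hv⟩ : ∃ v, v = tup_pf hl1 (hd.trans hd2) (tup_pf hl2 hd2 b0 x) a :=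
      ⟨_, rfl⟩
    rw [← hv] at ha ⊢
    refine (av_mono (fun y => av_mono (fun b => ind_mono (fun h => h.2)))).trans ?_
    rw [tup_u2 hl1 hl2 hd hd2 hm b0 (fun b' => ind (e b' = e v))]
    refine (tup_blk hl2 hd2 hm _ (fun b' => e b' = e v)).trans ?_
    have h2 := h1 v ha
    have hz' : (0 : ℝ) < z := by exact_mod_cast hz
    have hl' : (0 : ℝ) < l2 := by exact_mod_cast hl2
    have h2' : ((univ.filter (fun b' => e b' = e v)).card : ℝ) * z ≤ l2 := by exact_mod_cast h2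
    rw [div_le_div_iff₀ hl' hz']
    linarith
  · refine (av_mono (g := fun _ => (0 : ℝ)) (fun y => ?_)).trans ?_
    · refine (av_mono (g := fun _ => (0 : ℝ)) (fun b => le_of_eq (ind_neg (fun h => ha h.1)))).trans ?_
      rw [av_const]
    · rw [av_const]
      positivity

theorem tup_core {V1 V2 : Type} [DecidableEq V1] [DecidableEq V2]
    (hm : 0 < m) {z : ℕ} (hz : 0 < z) (TT : Finset (Fin m)) (e1 : Fin m → V1)
    (e2 : Fin m → V2)
    (h1 : ∀ b ∈ TT, (univ.filter (fun b' => e1 b' = e1 b)).card * z ≤ l1)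
    (h2 : ∀ b ∈ TT, (univ.filter (fun b' => e2 b' = e2 b)).card * z ≤ l2) :
    ((TT.card : ℝ) / m) ^ (2 * q) - 4 * (q : ℝ) ^ 2 / z ≤
      av (fun p : (Fin m × (Fin 2 → Fin m)) × (Fin 2 × Fin q → Fin m) => ind (
          (∀ c, tup_L hl1 hl2 hd hd2 p c ∈ TT) ∧
          (∀ j l l', l ≠ l' → e1 (tup_L hl1 hl2 hd hd2 p (j, l)) ≠
            e1 (tup_L hl1 hl2 hd hd2 p (j, l'))) ∧
          ∀ l l', e2 (tup_L hl1 hl2 hd hd2 p (0, l)) ≠
            e2 (tup_L hl1 hl2 hd hd2 p (1, l')))) := by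
  have hz' : (0 : ℝ) < z := by exact_mod_cast hz
  -- the failures
  obtain ⟨BA, hBA⟩ : ∃ BA : (Fin 2 × Fin q) → (Fin 2 × Fin q) →
      ((Fin m × (Fin 2 → Fin m)) × (Fin 2 × Fin q → Fin m)) → ℝ, BA = fun c c' p =>
        if c.1 = c'.1 then
          (if c = c' then 0 else ind (tup_L hl1 hl2 hd hd2 p c ∈ TT ∧
            e1 (tup_L hl1 hl2 hd hd2 p c') = e1 (tup_L hl1 hl2 hd hd2 p c)))
        else ind (tup_L hl1 hl2 hd hd2 p c ∈ TT ∧
            e2 (tup_L hl1 hl2 hd hd2 p c') = e2 (tup_L hl1 hl2 hd hd2 p c)) := ⟨_, rfl⟩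
  have hBA0 : ∀ c c' p, 0 ≤ BA c c' p := by
    intro c c' p
    rw [hBA]
    beta_reduce
    split_ifs
    · exact le_rfl
    · exact ind_nonneg _
    · exact ind_nonneg _
  have hBAz : ∀ c c', av (BA c c') ≤ 1 / (z : ℝ) := by
    intro c c'
    rw [hBA]
    beta_reduce
    by_cases hcc : c.1 = c'.1
    · by_cases hc : c = c'
      · simp only [hcc, hc, if_true]
        unfold av
        simp only [Finset.sum_const_zero, zero_div]
        positivity
      · simp only [hcc, hc, if_true, if_false]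
        exact tup_A hl1 hl2 hd hd2 hm hz TT e1 h1 hc hcc
    · simp only [hcc, if_false]
      exact tup_B hl1 hl2 hd hd2 hm hz TT e2 h2 hcc
  have key : ∀ p : (Fin m × (Fin 2 → Fin m)) × (Fin 2 × Fin q → Fin m),
      ind (∀ c, tup_L hl1 hl2 hd hd2 p c ∈ TT) + (-1) * (∑ c, ∑ c', BA c c' p) ≤
      ind (
          (∀ c, tup_L hl1 hl2 hd hd2 p c ∈ TT) ∧
          (∀ j l l', l ≠ l' → e1 (tup_L hl1 hl2 hd hd2 p (j, l)) ≠
            e1 (tup_L hl1 hl2 hd hd2 p (j, l'))) ∧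
          ∀ l l', e2 (tup_L hl1 hl2 hd hd2 p (0, l)) ≠
            e2 (tup_L hl1 hl2 hd hd2 p (1, l'))) := by
    intro p
    have hs1 : 0 ≤ ∑ c, ∑ c', BA c c' p :=
      Finset.sum_nonneg (fun c _ => Finset.sum_nonneg (fun c' _ => hBA0 c c' p))
    have hge : ∀ c c', BA c c' p ≤ ∑ c, ∑ c', BA c c' p := by
      intro c c'
      refine le_trans ?_ (Finset.single_le_sum (f := fun c => ∑ c', BA c c' p)
        (fun c _ => Finset.sum_nonneg (fun c' _ => hBA0 c c' p)) (mem_univ c))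
      exact Finset.single_le_sum (f := fun c' => BA c c' p) (fun c' _ => hBA0 c c' p) (mem_univ c')
    by_cases hall : ∀ c, tup_L hl1 hl2 hd hd2 p c ∈ TT
    · rw [ind_pos hall]
      by_cases hgood : ((∀ c, tup_L hl1 hl2 hd hd2 p c ∈ TT) ∧
          (∀ j l l', l ≠ l' → e1 (tup_L hl1 hl2 hd hd2 p (j, l)) ≠
            e1 (tup_L hl1 hl2 hd hd2 p (j, l'))) ∧
          ∀ l l', e2 (tup_L hl1 hl2 hd hd2 p (0, l)) ≠
            e2 (tup_L hl1 hl2 hd hd2 p (1, l')))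
      · rw [ind_pos hgood]
        linarith
      · rw [ind_neg hgood]
        have hone : 1 ≤ ∑ c, ∑ c', BA c c' p := by
          by_contra hcon
          apply hgood
          refine ⟨hall, ?_, ?_⟩
          · intro j l l' hl he
            have hb : BA (j, l) (j, l') p = 1 := by
              rw [hBA]
              beta_reduce
              rw [if_pos rfl, if_neg (fun h => hl (Prod.mk.inj h).2)]
              exact ind_pos ⟨hall _, he.symm⟩
            have := hge (j, l) (j, l')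
            linarith
          · intro l l' he
            have hb : BA (0, l) (1, l') p = 1 := by
              rw [hBA]
              beta_reduce
              rw [if_neg (by simp)]
              exact ind_pos ⟨hall _, he.symm⟩
            have := hge (0, l) (1, l')
            linarith
        linarith
    · rw [ind_neg hall]
      refine le_trans ?_ (ind_nonneg _)
      linarith
  refine le_trans ?_ (av_mono key)
  rw [av_add, av_mul_left, av_sum]
  have t1 : ∑ c, av (fun p => ∑ c', BA c c' p) ≤ 4 * (q : ℝ) ^ 2 * (1 / z) := by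
    have : ∀ c ∈ (univ : Finset (Fin 2 × Fin q)), av (fun p => ∑ c', BA c c' p) ≤
        2 * (q : ℝ) * (1 / z) := by
      intro c _
      rw [av_sum]
      refine (Finset.sum_le_card_nsmul _ _ _ (fun c' _ => hBAz c c')).trans (le_of_eq ?_)
      rw [nsmul_eq_mul, Finset.card_univ, Fintype.card_prod, Fintype.card_fin, Fintype.card_fin]
      push_cast
      ring
    refine (Finset.sum_le_card_nsmul _ _ _ this).trans (le_of_eq ?_)
    rw [nsmul_eq_mul, Finset.card_univ, Fintype.card_prod, Fintype.card_fin, Fintype.card_fin]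
    push_cast
    ring
  have t3 : ((TT.card : ℝ) / m) ^ (2 * q) ≤
      av (fun p : (Fin m × (Fin 2 → Fin m)) × (Fin 2 × Fin q → Fin m) =>
        ind (∀ c, tup_L hl1 hl2 hd hd2 p c ∈ TT)) := by
    refine le_trans (le_of_eq ?_) (tup_all hl1 hl2 hd hd2 hm (fun x => x ∈ TT))
    congr 1
    exact (tup_card TT).symm
  have t4 : 4 * (q : ℝ) ^ 2 / z = 4 * (q : ℝ) ^ 2 * (1 / z) := by
    ring
  rw [t4]
  linarith

end

theorem tup {V1 V2 : Type} [DecidableEq V1] [DecidableEq V2]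
    {z q D : ℕ} (hz : 2 ≤ z) {s1 s2 : ℕ} (h12 : s1 ≤ s2) (hs2 : s2 ≤ D)
    (T : Finset (Fin (z ^ D))) (e1 : Fin (z ^ D) → V1) (e2 : Fin (z ^ D) → V2)
    (h1 : ∀ b ∈ T, (univ.filter (fun b' => e1 b' = e1 b)).card * z ≤ z ^ s1)
    (h2 : ∀ b ∈ T, (univ.filter (fun b' => e2 b' = e2 b)).card * z ≤ z ^ s2) :
    ((T.card : ℝ) / (z : ℝ) ^ D) ^ (2 * q) / ((D : ℝ) + 1) ^ 2 - 4 * (q : ℝ) ^ 2 / z ≤
      av (fun r : Rs z q D => ind (r.1.1.val = s1 ∧ r.1.2.val = s2 ∧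
        ∀ w : Fin 2 × Fin q → Fin (z ^ D), (∀ c, (w c).val = lfN r c) →
          (∀ c, w c ∈ T) ∧ (∀ j l l', l ≠ l' → e1 (w (j, l)) ≠ e1 (w (j, l'))) ∧
          ∀ l l', e2 (w (0, l)) ≠ e2 (w (1, l')))) := by
  have hz0 : 0 < z := by omega
  have hm : 0 < z ^ D := pow_pos hz0 _
  have : Nonempty (Fin (z ^ D)) := ⟨⟨0, hm⟩⟩
  have hl1 : 0 < z ^ s1 := pow_pos hz0 _
  have hl2 : 0 < z ^ s2 := pow_pos hz0 _
  have hd : z ^ s1 ∣ z ^ s2 := pow_dvd_pow _ h12
  have hd2 : z ^ s2 ∣ z ^ D := pow_dvd_pow _ hs2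
  have hcore := tup_core (q := q) hl1 hl2 hd hd2 hm hz0 T e1 e2 h1 h2
  obtain ⟨G, hG⟩ : ∃ G : ((Fin (z ^ D) × (Fin 2 → Fin (z ^ D))) ×
      (Fin 2 × Fin q → Fin (z ^ D))) → Prop, G = fun p =>
          (∀ c, tup_L hl1 hl2 hd hd2 p c ∈ T) ∧
          (∀ j l l', l ≠ l' → e1 (tup_L hl1 hl2 hd hd2 p (j, l)) ≠
            e1 (tup_L hl1 hl2 hd hd2 p (j, l'))) ∧
          ∀ l l', e2 (tup_L hl1 hl2 hd hd2 p (0, l)) ≠
            e2 (tup_L hl1 hl2 hd hd2 p (1, l')) := ⟨_, rfl⟩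
  have hcore' : ((T.card : ℝ) / (z : ℝ) ^ D) ^ (2 * q) - 4 * (q : ℝ) ^ 2 / z ≤
      av (fun p => ind (G p)) := by
    rw [hG]
    push_cast at hcore
    exact hcore
  have hle : ∀ r : Rs z q D, ind (r.1.1.val = s1) * ind (r.1.2.val = s2) * ind (G r.2) ≤
      ind (r.1.1.val = s1 ∧ r.1.2.val = s2 ∧
        ∀ w : Fin 2 × Fin q → Fin (z ^ D), (∀ c, (w c).val = lfN r c) →
          (∀ c, w c ∈ T) ∧ (∀ j l l', l ≠ l' → e1 (w (j, l)) ≠ e1 (w (j, l'))) ∧
          ∀ l l', e2 (w (0, l)) ≠ e2 (w (1, l'))) := by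
    intro r
    rw [← ind_and, ← ind_and]
    apply ind_mono
    rintro ⟨⟨ha, hb⟩, hg⟩
    refine ⟨ha, hb, ?_⟩
    intro w hw
    have hwe : ∀ c, w c = tup_L hl1 hl2 hd hd2 r.2 c := by
      intro c
      apply Fin.ext
      rw [hw c]
      unfold lfN
      rw [ha, hb]
      rfl
    have hwf : w = fun c => tup_L hl1 hl2 hd hd2 r.2 c := funext hwe
    rw [hG] at hg
    rw [hwf]
    exact hg
  refine le_trans ?_ (av_mono hle)
  have e1' : av (fun r : Rs z q D => ind (r.1.1.val = s1) * ind (r.1.2.val = s2) * ind (G r.2)) =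
      (1 / ((D : ℝ) + 1)) ^ 2 * av (fun p => ind (G p)) := by
    rw [av_prod_mul (fun a : Fin (D + 1) × Fin (D + 1) => ind (a.1.val = s1) * ind (a.2.val = s2))
      (fun p => ind (G p)), av_prod_mul (fun a : Fin (D + 1) => ind (a.val = s1))
      (fun a : Fin (D + 1) => ind (a.val = s2)), av_ind_eq (by omega), av_ind_eq (by omega)]
    push_cast
    ring
  rw [e1']
  have hD1 : (0 : ℝ) < (D : ℝ) + 1 := by positivity
  have hq1 : (0 : ℝ) ≤ 4 * (q : ℝ) ^ 2 / z := by positivity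
  have hk : (1 / ((D : ℝ) + 1)) ^ 2 ≤ 1 := by
    apply pow_le_one₀ (by positivity)
    rw [div_le_one hD1]
    have : (0 : ℝ) ≤ D := Nat.cast_nonneg _
    linarith
  have hk0 : 0 ≤ (1 / ((D : ℝ) + 1)) ^ 2 := by positivity
  calc ((T.card : ℝ) / (z : ℝ) ^ D) ^ (2 * q) / ((D : ℝ) + 1) ^ 2 - 4 * (q : ℝ) ^ 2 / z
      = (1 / ((D : ℝ) + 1)) ^ 2 * ((T.card : ℝ) / (z : ℝ) ^ D) ^ (2 * q) -
        1 * (4 * (q : ℝ) ^ 2 / z) := by
        rw [one_div, inv_pow]
        ring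
    _ ≤ (1 / ((D : ℝ) + 1)) ^ 2 * ((T.card : ℝ) / (z : ℝ) ^ D) ^ (2 * q) -
        (1 / ((D : ℝ) + 1)) ^ 2 * (4 * (q : ℝ) ^ 2 / z) := by
        have := mul_le_mul_of_nonneg_right hk hq1
        linarith
    _ = (1 / ((D : ℝ) + 1)) ^ 2 * (((T.card : ℝ) / (z : ℝ) ^ D) ^ (2 * q) -
        4 * (q : ℝ) ^ 2 / z) := by ring
    _ ≤ _ := mul_le_mul_of_nonneg_left hcore' hk0

/-- the marginal law of a leaf is uniform -/
theorem lf_marg {z q D : ℕ} (hz : 0 < z) (c : Fin 2 × Fin q) (X : Finset (Fin (z ^ D))) :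
    av (fun r : Rs z q D => ind (∃ b ∈ X, b.val = lfN r c)) ≤ (X.card : ℝ) / (z : ℝ) ^ D := by
  have hm : 0 < z ^ D := pow_pos hz _
  have : Nonempty (Fin (z ^ D)) := ⟨⟨0, hm⟩⟩
  rw [av_prod]
  refine (av_mono (fun s => ?_)).trans (av_const ((X.card : ℝ) / (z : ℝ) ^ D)).le
  have hs1 : s.1.val ≤ D := by have := s.1.2; omega
  have hs2 : s.2.val ≤ D := by have := s.2.2; omega
  have hl1 : 0 < z ^ s.1.val := pow_pos hz _
  have hl2 : 0 < z ^ s.2.val := pow_pos hz _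
  have hd1 : z ^ s.1.val ∣ z ^ D := pow_dvd_pow _ hs1
  have hd2 : z ^ s.2.val ∣ z ^ D := pow_dvd_pow _ hs2
  have h0 : ∀ p : (Fin (z ^ D) × (Fin 2 → Fin (z ^ D))) × (Fin 2 × Fin q → Fin (z ^ D)),
      ind (∃ b ∈ X, b.val = lfN ((s, p) : Rs z q D) c) ≤
      ind (tup_pf hl1 hd1 (tup_pf hl2 hd2 p.1.1 (p.1.2 c.1)) (p.2 c) ∈ X) := by
    intro p
    apply ind_mono
    rintro ⟨b, hb, hbv⟩
    have : b = tup_pf hl1 hd1 (tup_pf hl2 hd2 p.1.1 (p.1.2 c.1)) (p.2 c) := Fin.ext hbv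
    rw [← this]
    exact hb
  refine (av_mono h0).trans (le_of_eq ?_)
  rw [av_prod, av_prod]
  have h1 : ∀ b0 : Fin (z ^ D), ∀ b1 : Fin 2 → Fin (z ^ D),
      av (fun ω : Fin 2 × Fin q → Fin (z ^ D) =>
        ind (tup_pf hl1 hd1 (tup_pf hl2 hd2 b0 (b1 c.1)) (ω c) ∈ X)) =
      (fun b : Fin (z ^ D) => av (fun y =>
        ind (tup_pf hl1 hd1 (tup_pf hl2 hd2 b0 b) y ∈ X))) (b1 c.1) := by
    intro b0 b1
    exact av_coord c (fun y => ind (tup_pf hl1 hd1 (tup_pf hl2 hd2 b0 (b1 c.1)) y ∈ X))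
  have h2 : ∀ b0 : Fin (z ^ D), av (fun b1 : Fin 2 → Fin (z ^ D) =>
      av (fun ω : Fin 2 × Fin q → Fin (z ^ D) =>
        ind (tup_pf hl1 hd1 (tup_pf hl2 hd2 b0 (b1 c.1)) (ω c) ∈ X))) =
      av (fun b => av (fun y => ind (tup_pf hl1 hd1 (tup_pf hl2 hd2 b0 b) y ∈ X))) := by
    intro b0
    rw [av_congr (h1 b0)]
    exact av_coord c.1 (fun b : Fin (z ^ D) => av (fun y =>
      ind (tup_pf hl1 hd1 (tup_pf hl2 hd2 b0 b) y ∈ X)))
  refine (av_congr h2).trans ?_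
  refine (tup_u1 hl2 hd2 hm (fun B => av (fun y => ind (tup_pf hl1 hd1 B y ∈ X)))).trans ?_
  refine (tup_u1 hl1 hd1 hm (fun x => ind (x ∈ X))).trans ?_
  rw [tup_card]
  push_cast
  rfl

end Pool.Agent.H65.GD
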