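import Pool.Agent.H65.GD.One
import Pool.Agent.H65.GD.HalfE
import Pool.Agent.H65.GD.FinN

/-! A matrix and a colouring which work for all coarse data. -/

namespace Pool.Agent.H65.GD

open Finset Filter Pool.Agent.H46.SR Pool.Agent.H46.TS

namespace Par

variable (P : Par)

theorem UnionF_C0 : 1 ≤ P.C0 := by
  unfold C0
  have h : 0 < (P.m + 1) ^ (P.K + 1) := pow_pos (by omega) _
  omega

theorem UnionF_den : (1 : ℝ) ≤ 2 * ((P.D : ℝ) + 1) ^ 2 * (P.C0 : ℝ) ^ (2 * P.q) := by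
  have h1 : (1 : ℝ) ≤ (P.C0 : ℝ) ^ (2 * P.q) := by
    apply one_le_pow₀
    exact_mod_cast P.UnionF_C0
  have h2 : (1 : ℝ) ≤ ((P.D : ℝ) + 1) ^ 2 := by
    apply one_le_pow₀
    have : (0 : ℝ) ≤ P.D := Nat.cast_nonneg _
    linarith
  nlinarith [mul_le_mul h2 h1 zero_le_one (by linarith)]

theorem UnionF_c1_pos : 0 < P.c1 := by
  unfold c1
  have h := P.UnionF_den
  exact one_div_pos.mpr (by linarith)

theorem UnionF_c1_le : P.c1 ≤ 1 := by
  unfold c1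
  have h := P.UnionF_den
  rw [div_le_one (by linarith)]
  exact h

/-- one half of the data, as a finite type -/
abbrev UnionF_H (z : ℕ) : Type :=
  ((Fin P.K × Fin P.K) × (Fin (P.D + 1) × Fin (P.D + 1))) × (Fin (z ^ P.D) → Option (Fin (P.N z)))

/-- the data, as a finite type -/
abbrev UnionF_U (z : ℕ) : Type :=
  (P.UnionF_H z × P.UnionF_H z) × (Fin P.K × Fin P.K)

variable {P} in
/-- from the finite type to the data -/
def UnionF_to {z : ℕ} (a : P.UnionF_H z) : P.Half z where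
  l1 := a.1.1.1
  l2 := a.1.1.2
  a1 := a.1.2.1
  a2 := a.1.2.2
  dr := a.2

theorem UnionF_to_surj {z : ℕ} (h : P.Half z) : ∃ a : P.UnionF_H z, UnionF_to a = h :=
  ⟨(((h.l1, h.l2), (h.a1, h.a2)), h.dr), rfl⟩

theorem UnionF_card (z : ℕ) : (Fintype.card (P.UnionF_U z) : ℝ) =
    ((P.K : ℝ) ^ 2 * ((P.D : ℝ) + 1) ^ 2 * ((P.N z : ℝ) + 1) ^ (z ^ P.D)) ^ 2 * (P.K : ℝ) ^ 2 := by
  unfold UnionF_U UnionF_H
  simp only [Fintype.card_prod, Fintype.card_fin, Fintype.card_pi, Fintype.card_option,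
    Finset.prod_const, Finset.card_univ]
  push_cast
  ring

variable {P} in
/-- the admissible data -/
def UnionF_adm {z : ℕ} (d : P.UnionF_U z) : Prop :=
  P.Rect (UnionF_to d.1.1).l1.val (UnionF_to d.1.1).l2.val (UnionF_to d.1.2).l1.val
    (UnionF_to d.1.2).l2.val d.2.1.val d.2.2.val ∧
  P.c1 ≤ av (fun ρ : P.R1 z => ind (GoodR (UnionF_to d.1.1) ρ)) ∧
  P.c1 ≤ av (fun ρ : P.R1 z => ind (GoodR (UnionF_to d.1.2) ρ))

variable {P} in
/-- no index is good for the data -/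
def UnionF_bad {z : ℕ} (d : P.UnionF_U z) (μ : Fin (z ^ P.κ) → P.R1 z × P.R1 z)
    (ω : P.Sp z) : Prop :=
  ∀ i, ¬ (GoodR (UnionF_to d.1.1) (μ i).1 ∧ GoodR (UnionF_to d.1.2) (μ i).2 ∧
    Obs ω (UnionF_to d.1.1).l1.val (UnionF_to d.1.2).l1.val
      (xi (UnionF_to d.1.1) (μ i).1) (xi (UnionF_to d.1.2) (μ i).2))

theorem UnionF_one {z : ℕ} (h1 : zD P ≤ z) (hz : 1 ≤ z)
    (h3 : 32 * (P.q : ℝ) ^ 4 ≤ P.c1 ^ 2 * z) (d : P.UnionF_U z) :
    av (fun μ : Fin (z ^ P.κ) → P.R1 z × P.R1 z => av (fun ω : P.Sp z =>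
      ind (UnionF_adm d) * ind (UnionF_bad d μ ω))) ≤
      (1 - P.c1 ^ 2 / (4 * (z : ℝ) ^ P.τ)) ^ (z ^ P.κ) := by
  by_cases hd : UnionF_adm d
  · have e : ∀ (μ : Fin (z ^ P.κ) → P.R1 z × P.R1 z), av (fun ω : P.Sp z =>
        ind (UnionF_adm d) * ind (UnionF_bad d μ ω)) =
        av (fun ω : P.Sp z => ind (UnionF_bad d μ ω)) := by
      intro μ
      apply av_congr
      intro ω
      rw [ind_pos hd, one_mul]
    rw [av_congr e]
    exact one_data h1 (UnionF_to d.1.1) (UnionF_to d.1.2) hd.1 P.UnionF_c1_pos.le hd.2.1 hd.2.2 h3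
  · have hB : 0 ≤ (1 - P.c1 ^ 2 / (4 * (z : ℝ) ^ P.τ)) ^ (z ^ P.κ) := by
      apply pow_nonneg
      have hz1 : (1 : ℝ) ≤ (z : ℝ) ^ P.τ := one_le_pow₀ (by exact_mod_cast hz)
      have hc : P.c1 ^ 2 ≤ 1 := pow_le_one₀ P.UnionF_c1_pos.le P.UnionF_c1_le
      have : P.c1 ^ 2 / (4 * (z : ℝ) ^ P.τ) ≤ 1 := by
        rw [div_le_one (by linarith)]
        linarith
      linarith
    refine le_trans (le_of_eq ?_) hB
    have e : ∀ (μ : Fin (z ^ P.κ) → P.R1 z × P.R1 z), av (fun ω : P.Sp z =>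
        ind (UnionF_adm d) * ind (UnionF_bad d μ ω)) = 0 := by
      intro μ
      have : ∀ ω : P.Sp z, ind (UnionF_adm d) * ind (UnionF_bad d μ ω) = 0 := by
        intro ω
        rw [ind_neg hd, zero_mul]
      rw [av_congr this]
      unfold av
      rw [Finset.sum_const_zero, zero_div]
    rw [av_congr e]
    unfold av
    rw [Finset.sum_const_zero, zero_div]

theorem exists_mu : ∀ᶠ z : ℕ in atTop,
    ∃ (μ : Fin (z ^ P.κ) → P.R1 z × P.R1 z) (ω : P.Sp z),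
      ∀ (hr hc : P.Half z) (lS kS : ℕ),
        P.Rect hr.l1.val hr.l2.val hc.l1.val hc.l2.val lS kS →
        P.c1 ≤ av (fun ρ : P.R1 z => ind (GoodR hr ρ)) →
        P.c1 ≤ av (fun ρ : P.R1 z => ind (GoodR hc ρ)) →
        ∃ i, GoodR hr (μ i).1 ∧ GoodR hc (μ i).2 ∧
          Obs ω hr.l1.val hc.l1.val (xi hr (μ i).1) (xi hc (μ i).2) := by
  have hc1 := P.UnionF_c1_pos
  have hev : ∀ᶠ z : ℕ in atTop, 32 * (P.q : ℝ) ^ 4 ≤ P.c1 ^ 2 * z := by
    have h := (tendsto_natCast_atTop_atTop (R := ℝ)).const_mul_atTop (pow_pos hc1 2)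
    exact h.eventually_ge_atTop _
  filter_upwards [eventually_ge_atTop (zD P), eventually_ge_atTop 1, hev,
    fin_num P hc1 P.UnionF_c1_le] with z h1 hz h3 h4
  by_contra hcon
  push Not at hcon
  have : Nonempty (Fin (z ^ P.D)) := ⟨⟨0, pow_pos hz _⟩⟩
  have : Nonempty (Fin (z ^ P.τ)) := ⟨⟨0, pow_pos hz _⟩⟩
  have : Nonempty (Fin 2 × Fin P.q → Fin (z ^ P.D)) := inferInstance
  have : Nonempty (P.R1 z) := inferInstance
  have : Nonempty (P.Sp z) := inferInstance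
  have key : ∀ (μ : Fin (z ^ P.κ) → P.R1 z × P.R1 z) (ω : P.Sp z),
      (1 : ℝ) ≤ ∑ d : P.UnionF_U z, ind (UnionF_adm d) * ind (UnionF_bad d μ ω) := by
    intro μ ω
    obtain ⟨hr, hc, lS, kS, hR, ha, hb, hno⟩ := hcon μ ω
    obtain ⟨a, rfl⟩ := P.UnionF_to_surj hr
    obtain ⟨b, rfl⟩ := P.UnionF_to_surj hc
    have hl : lS < P.K := lt_of_le_of_lt hR.hl2 hR.hlK
    have hk : kS < P.K := lt_of_le_of_lt hR.hk2 hR.hkK
    let d : P.UnionF_U z := ((a, b), (⟨lS, hl⟩, ⟨kS, hk⟩))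
    have hd1 : UnionF_adm d := ⟨hR, ha, hb⟩
    have hd2 : UnionF_bad d μ ω := by
      intro i hi
      exact hno i hi.1 hi.2.1 hi.2.2
    have e : ind (UnionF_adm d) * ind (UnionF_bad d μ ω) = 1 := by
      rw [ind_pos hd1, ind_pos hd2, one_mul]
    calc (1 : ℝ) = ind (UnionF_adm d) * ind (UnionF_bad d μ ω) := e.symm
      _ ≤ _ := Finset.single_le_sum
        (f := fun d : P.UnionF_U z => ind (UnionF_adm d) * ind (UnionF_bad d μ ω))
        (fun l _ => mul_nonneg (ind_nonneg _) (ind_nonneg _)) (mem_univ d)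
  have h5 : (1 : ℝ) ≤ av (fun μ : Fin (z ^ P.κ) → P.R1 z × P.R1 z => av (fun ω : P.Sp z =>
      ∑ d : P.UnionF_U z, ind (UnionF_adm d) * ind (UnionF_bad d μ ω))) := by
    calc (1 : ℝ) = av (fun _ : Fin (z ^ P.κ) → P.R1 z × P.R1 z => (1 : ℝ)) := (av_const 1).symm
      _ ≤ _ := av_mono (fun μ => by
        calc (1 : ℝ) = av (fun _ : P.Sp z => (1 : ℝ)) := (av_const 1).symm
          _ ≤ _ := av_mono (fun ω => key μ ω))
  have h6 : av (fun μ : Fin (z ^ P.κ) → P.R1 z × P.R1 z => av (fun ω : P.Sp z =>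
      ∑ d : P.UnionF_U z, ind (UnionF_adm d) * ind (UnionF_bad d μ ω))) =
      ∑ d : P.UnionF_U z, av (fun μ : Fin (z ^ P.κ) → P.R1 z × P.R1 z => av (fun ω : P.Sp z =>
        ind (UnionF_adm d) * ind (UnionF_bad d μ ω))) := by
    rw [← av_sum]
    apply av_congr
    intro μ
    rw [← av_sum]
  have h7 : ∑ d : P.UnionF_U z, av (fun μ : Fin (z ^ P.κ) → P.R1 z × P.R1 z => av (fun ω : P.Sp z =>
        ind (UnionF_adm d) * ind (UnionF_bad d μ ω))) ≤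
      (Fintype.card (P.UnionF_U z) : ℝ) *
        (1 - P.c1 ^ 2 / (4 * (z : ℝ) ^ P.τ)) ^ (z ^ P.κ) := by
    calc _ ≤ ∑ _d : P.UnionF_U z, (1 - P.c1 ^ 2 / (4 * (z : ℝ) ^ P.τ)) ^ (z ^ P.κ) :=
          Finset.sum_le_sum (fun d _ => P.UnionF_one h1 hz h3 d)
      _ = _ := by rw [Finset.sum_const, nsmul_eq_mul, Finset.card_univ]
  rw [UnionF_card] at h7
  linarith

end Par

end Pool.Agent.H65.GD
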